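import Pool.Agent.Work.StdConj.Main

/-!
The Lefschetz standard conjecture passes to hypersurface sections.
-/

open CategoryTheory MonoidalCategory CartesianMonoidalCategory

universe u v w x b

namespace Pool.Std

open Pool.KC Pool.SL

variable {V : Type u} [Category.{v} V] [CartesianMonoidalCategory V] {K : Type x} [Field K]
variable {T : WeilTheory.{u, v, w, x} V K} {R : Cyc T}

/-- the class of the graph acts as push-forward -/
theorem act_graph {X Y : V} (i : Y ⟶ X) {s : ℕ} {y : T.H Y} (hy : y ∈ T.deg Y s) {w : T.H X}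
    (hwd : w ∈ T.deg X (s + 2))
    (hw : ∀ a : T.H X, T.tr X (a * w) = T.tr Y (T.pull i a * y)) :
    T.act (T.pull (lift (fst Y X ≫ i) (snd Y X)) (T.diag X)) y = w := by
  have h0 : ∀ p : T.H X, T.tr Y (y * T.pull i p) = T.tr X (w * p) := by
    intro p
    refine T.hind (P := fun p => T.tr Y (y * T.pull i p) = T.tr X (w * p)) (by simp) ?_ ?_ p
    · intro t p hp
      have h1 : (-1 : K) ^ ((s + 2) * t) = (-1) ^ (s * t) := by
        rw [add_mul, pow_add, pow_mul _ 2 t]
        simp
      rw [T.comm hy (T.pull_deg i hp), T.comm hwd hp, T.neg_pow_smul, T.neg_pow_smul, map_smul,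
        map_smul, hw, h1]
    · intro p q h1 h2
      rw [map_add, mul_add, map_add, h1, h2, mul_add, map_add]
  have key : ∀ z : T.H (X ⊗ X),
      T.act (T.pull (lift (fst Y X ≫ i) (snd Y X)) z) y = T.act z w := by
    intro z
    refine T.kind (P := fun z => T.act (T.pull (lift (fst Y X ≫ i) (snd Y X)) z) y = T.act z w)
      (by simp [T.act_zero]) ?_ ?_ z
    · intro p q
      rw [map_mul, T.pull_comp', T.pull_comp', lift_fst, lift_snd, T.pull_comp (fst Y X) i,
        T.act_pure, T.act_pure, h0]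
    · intro p q h1 h2
      rw [map_add, T.act_add, T.act_add, LinearMap.add_apply, LinearMap.add_apply, h1, h2]
  rw [key, T.act_diag, LinearMap.id_apply]

/-- properties of the push-forward -/
theorem exists_push {X Y : V} (i : Y ⟶ X) (hd : T.dim Y + 1 = T.dim X) {c : T.H X}
    (hc : c ∈ T.deg X (2 * 1)) {r : K} (htr : ∀ a, T.tr Y (T.pull i a) = r * T.tr X (a * c)) :
    ∃ J ∈ R.Op Y X (T.dim X), (∀ x, J (T.pull i x) = r • (c * x)) ∧
      ∀ y, J (T.pull i c * y) = c * J y := by
  refine ⟨T.act (T.pull (lift (fst Y X ≫ i) (snd Y X)) (T.diag X)),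
    Cyc.act_mem_Op (R.pull _ (R.diag X)), ?_, ?_⟩
  · intro x
    refine T.hind (P := fun x => T.act (T.pull (lift (fst Y X ≫ i) (snd Y X)) (T.diag X))
      (T.pull i x) = r • (c * x)) (by simp) ?_ ?_ x
    · intro s x hx
      refine act_graph i (T.pull_deg i hx)
        (Submodule.smul_mem _ _ (T.deg_of_eq (T.mul_deg hc hx) (by omega))) ?_
      intro a
      rw [← map_mul, htr, mul_smul_comm, map_smul, smul_eq_mul, T.even_comm hc x, mul_assoc]
    · intro p q h1 h2
      rw [map_add, map_add, h1, h2, mul_add, smul_add]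
  · intro y
    refine T.hind (P := fun y => T.act (T.pull (lift (fst Y X ≫ i) (snd Y X)) (T.diag X))
      (T.pull i c * y) = c * T.act (T.pull (lift (fst Y X ≫ i) (snd Y X)) (T.diag X)) y)
      (by simp) ?_ ?_ y
    · intro s y hy
      obtain ⟨w, hwd, hw⟩ := exists_gys_deg i hd hy
      rw [act_graph i hy hwd hw]
      have h1 : T.pull i c * y ∈ T.deg Y (s + 2) :=
        T.deg_of_eq (T.mul_deg (T.pull_deg i hc) hy) (by omega)
      refine act_graph i h1 (T.deg_of_eq (T.mul_deg hc hwd) (by omega)) ?_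
      intro a
      rw [← mul_assoc a c w, hw, map_mul (T.pull i), mul_assoc]
    · intro p q h1 h2
      rw [mul_add, map_add, map_add, h1, h2, mul_add]

variable {G : Pl.{u, v, w, x, b} R}

/-- the Lefschetz standard conjecture for a hypersurface section -/
theorem Sect.lefB [CharZero K] {X : V} {M : G.Bund X} (S : Sect R (G.c M)) (N : G.Bund S.Y)
    (hN : G.c N = T.pull S.i (G.c M)) (hX : 2 ≤ T.dim X) (h : G.LefB M) : G.LefB N := by
  have hd := S.dim
  obtain ⟨z, hz, hl⟩ := h
  obtain ⟨J, hJ, hJ1, hJ2⟩ := exists_push (R := R) S.i S.dim (G.c_deg M) S.tr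
  have hop : ((S.r⁻¹ : ℚ) : K) • ((T.pull S.i).toLinearMap ∘ₗ (T.act z ∘ₗ (T.act z ∘ₗ J))) ∈
      R.Op S.Y S.Y (T.dim S.Y - 1) := by
    apply Cyc.Op_smul
    have e1 := Cyc.Op_comp hJ (Cyc.act_mem_Op hz) (t := T.dim X - 1) (by omega)
    have e2 := Cyc.Op_comp e1 (Cyc.act_mem_Op hz) (t := T.dim X - 2) (by omega)
    exact Cyc.Op_comp e2 (Cyc.Op_pull (R := R) S.i) (by omega)
  obtain ⟨y0, hy0, hy0a⟩ := hop
  have hval : ∀ y, T.act y0 y = ((S.r⁻¹ : ℚ) : K) • T.pull S.i (T.act z (T.act z (J y))) :=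
    fun y => by rw [hy0a]; rfl
  have hr : ∀ w : T.H S.Y, ((S.r⁻¹ : ℚ) : K) • ((S.r : K) • w) = w := by
    intro w
    rw [smul_smul, Rat.cast_inv, inv_mul_cancel₀ S.r_ne, one_smul]
  refine ⟨y0, hy0, ?_⟩
  intro i y hy
  obtain ⟨hid, hyi, hyk⟩ := hy
  rcases Nat.lt_or_ge i (T.dim S.Y) with hi | hi
  · obtain ⟨x, hx, rfl⟩ := S.weak i hi y hyi
    have hpow : ∀ j, G.c N ^ j * T.pull S.i x = T.pull S.i (G.c M ^ j * x) := by
      intro j
      rw [hN, map_mul, map_pow]
    have hJpow : ∀ j, J (G.c N ^ j * T.pull S.i x) = (S.r : K) • (G.c M ^ (j + 1) * x) := by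
      intro j
      rw [hpow, hJ1, ← mul_assoc, ← pow_succ']
    have hprim : G.Prim M i x := by
      refine ⟨by omega, hx, ?_⟩
      have h1 := hJpow (T.dim S.Y - i + 1)
      rw [hyk, map_zero, show T.dim S.Y - i + 1 + 1 = T.dim X - i + 1 by omega] at h1
      exact (smul_eq_zero.mp h1.symm).resolve_left S.r_ne
    obtain ⟨h0, h1⟩ := hl i x hprim
    constructor
    · have e1 := hJpow 0
      rw [pow_zero, one_mul] at e1
      rw [hval, e1, map_smul, h1 0 (by omega), pow_zero, one_mul, map_smul, h0, smul_zero,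
        map_zero, smul_zero]
    · intro j hj
      rw [hval, hJpow, map_smul, h1 (j + 1) (by omega), map_smul, h1 j (by omega), map_smul, hr,
        hpow]
  · have hid' : i = T.dim S.Y := by omega
    subst hid'
    constructor
    · have hcy : T.pull S.i (G.c M) * y = 0 := by
        rw [← hN]
        rw [Nat.sub_self, zero_add, pow_one] at hyk
        exact hyk
      have hJy : J y ∈ T.deg X (T.dim S.Y + 2 * 1) := Cyc.Op_deg hJ (by omega) hyi
      obtain ⟨e, he, hey⟩ := G.hard_surj M (i := T.dim S.Y) (k := 1) (by omega) _ hJy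
      rw [pow_one] at hey
      have hprim : G.Prim M (T.dim S.Y) e := by
        refine ⟨by omega, he, ?_⟩
        rw [show T.dim X - T.dim S.Y + 1 = 2 by omega, pow_two, mul_assoc, hey, ← hJ2, hcy,
          map_zero]
      obtain ⟨h0, h1⟩ := hl _ e hprim
      have h2 := h1 0 (by omega)
      rw [zero_add, pow_one, pow_zero, one_mul] at h2
      rw [hval, ← hey, h2, h0, map_zero, smul_zero]
    · intro j hj
      omega

end Pool.Std
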