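import Pool.Agent.Work.StdConj.Api
import Pool.Agent.Work.StdConj.Hyper

/-!
From the axioms of `Api` to the internal form.
-/

open CategoryTheory MonoidalCategory CartesianMonoidalCategory
open scoped TensorProduct

universe u v w x b

namespace Pool.Std

open Pool.KC

variable {V : Type u} [Category.{v} V] [CartesianMonoidalCategory V] {K : Type x} [Field K]

namespace WeilCoh

variable {D : WeilCoh.{u, v, w, x} V K}

theorem kun_bij (h : D.IsWeil) (X Y : V) : Function.Bijective
    (TensorProduct.lift ((LinearMap.mul K (D.H (X ⊗ Y))).compl₁₂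
      (D.pull (fst X Y)).toLinearMap (D.pull (snd X Y)).toLinearMap)) := by
  have hs : Function.Surjective
    (TensorProduct.lift ((LinearMap.mul K (D.H (X ⊗ Y))).compl₁₂
      (D.pull (fst X Y)).toLinearMap (D.pull (snd X Y)).toLinearMap)) := by
    rw [← LinearMap.range_eq_top, eq_top_iff, ← h.kunneth.span X Y, Submodule.span_le]
    rintro _ ⟨a, b, rfl⟩
    exact ⟨a ⊗ₜ b, by simp [cross, pb]⟩
  refine ⟨?_, hs⟩
  rw [LinearMap.injective_iff_surjective_of_finrank_eq_finrank]
  · exact hs
  · rw [Module.finrank_tensorProduct, h.kunneth.finrank]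

/-- the associated cohomology theory -/
@[reducible] def toCoh (h : D.IsWeil) : Cohomology.{u, v, w, x} V K where
  dim := D.dim
  H := D.H
  ringH X := (D.R X).ring
  algH X := (D.R X).alg
  finH X := (D.R X).fin
  deg := fun X => (D.R X).deg
  gradH X := (D.R X).grad
  comm := fun ha hb => (D.R _).comm _ _ _ _ ha hb
  pull := D.pull
  pull_id := h.pull.id
  pull_comp := fun f g a => h.pull.comp _ _ _ f g a
  pull_deg := fun f _ _ ha => h.pull.deg _ _ f _ _ ha
  kunneth := kun_bij h
  dim_prod := h.kunneth.dim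
  tr := D.tr
  tr_deg := fun ha hi => h.trace.deg _ _ _ ha hi
  nondeg := fun hb => h.trace.duality _ _ hb
  tr_prod := fun a b => h.trace.cross _ _ a b
  tr_iso := fun f a => h.trace.iso _ _ f a

theorem push_eq (h : D.IsWeil) {X Y : V} (z : D.H (X ⊗ Y)) :
    (toCoh h).push X Y z = D.push X Y z := by
  refine (toCoh h).kind (P := fun z => (toCoh h).push X Y z = D.push X Y z) ?_ ?_ ?_ z
  · rw [map_zero]
    exact (map_zero (D.push X Y)).symm
  · intro a b
    rw [(toCoh h).push_pure]
    exact (h.kunneth.push X Y a b).symm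
  · intro a b h1 h2
    rw [map_add, h1, h2]
    exact (map_add (D.push X Y) a b).symm

/-- the associated Weil theory, with the spans of the rational classes -/
@[reducible] def toWeil (h : D.IsWeil) : WeilTheory.{u, v, w, x} V K where
  toCohomology := toCoh h
  C X i := Submodule.span K (D.alg X i : Set (D.H X))
  C_deg X i := by
    rw [Submodule.span_le]
    exact h.cycle.deg X i
  C_one X := Submodule.subset_span (h.cycle.one X)
  C_mul := by
    intro X i j a b ha hb
    induction ha using Submodule.span_induction with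
    | mem a ha =>
      induction hb using Submodule.span_induction with
      | mem b hb => exact Submodule.subset_span (h.cycle.mul _ _ _ a ha b hb)
      | zero => rw [mul_zero]; exact zero_mem _
      | add x y _ _ hx hy => rw [mul_add]; exact add_mem hx hy
      | smul c x _ hx => rw [mul_smul_comm]; exact Submodule.smul_mem _ _ hx
    | zero => rw [zero_mul]; exact zero_mem _
    | add x y _ _ hx hy => rw [add_mul]; exact add_mem hx hy
    | smul c x _ hx => rw [smul_mul_assoc]; exact Submodule.smul_mem _ _ hx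
  C_pull := by
    intro X Y f i a ha
    induction ha using Submodule.span_induction with
    | mem a ha => exact Submodule.subset_span (h.functor.pull _ _ f _ a ha)
    | zero => rw [map_zero]; exact zero_mem _
    | add x y _ _ hx hy => rw [map_add]; exact add_mem hx hy
    | smul c x _ hx => rw [map_smul]; exact Submodule.smul_mem _ _ hx
  C_push := by
    intro X Y i a ha
    induction ha using Submodule.span_induction with
    | mem a ha =>
      rw [push_eq h]
      exact Submodule.subset_span (h.functor.push _ _ _ a ha)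
    | zero => rw [map_zero]; exact zero_mem _
    | add x y _ _ hx hy => rw [map_add]; exact add_mem hx hy
    | smul c x _ hx => rw [map_smul]; exact Submodule.smul_mem _ _ hx
  diag := D.diag
  diag_spec := h.diagonal.spec
  C_diag X := Submodule.subset_span (h.diagonal.mem X)

theorem act_eq (h : D.IsWeil) {X Y : V} (z : D.H (X ⊗ Y)) (a : D.H X) :
    (toWeil h).act z a = D.act z a := by
  rw [(toWeil h).act_apply]
  exact push_eq h _

/-- the rational classes -/
def toCyc (h : D.IsWeil) : Cyc (toWeil h) where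
  A := D.alg
  le := fun ha => Submodule.subset_span ha
  smul := fun q _ ha => h.cycle.smul _ _ q _ ha
  one := h.cycle.one
  mul := fun ha hb => h.cycle.mul _ _ _ _ ha _ hb
  pull := fun f _ _ ha => h.functor.pull _ _ f _ _ ha
  push := by
    intro X Y i a ha
    rw [push_eq h]
    exact h.functor.push _ _ _ a ha
  diag := h.diagonal.mem

theorem signConj_iff (h : D.IsWeil) (X : V) : D.SignConj X ↔ (toCyc h).Sign X := by
  unfold SignConj Cyc.Sign
  constructor
  · rintro ⟨z, hz, h1, h2⟩
    exact ⟨z, hz, fun i a ha => (act_eq h z a).trans (h1 i a ha),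
      fun i a ha => (act_eq h z a).trans (h2 i a ha)⟩
  · rintro ⟨z, hz, h1, h2⟩
    exact ⟨z, hz, fun i a ha => (act_eq h z a).symm.trans (h1 i a ha),
      fun i a ha => (act_eq h z a).symm.trans (h2 i a ha)⟩

theorem conjC_iff (h : D.IsWeil) (X : V) : D.ConjC X ↔ (toCyc h).KunnethC X := by
  unfold ConjC Cyc.KunnethC
  refine forall_congr' fun i => ?_
  constructor
  · rintro ⟨z, hz, h1, h2⟩
    exact ⟨z, hz, fun a ha => (act_eq h z a).trans (h1 a ha),
      fun j hj a ha => (act_eq h z a).trans (h2 j hj a ha)⟩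
  · rintro ⟨z, hz, h1, h2⟩
    exact ⟨z, hz, fun a ha => (act_eq h z a).symm.trans (h1 a ha),
      fun j hj a ha => (act_eq h z a).symm.trans (h2 j hj a ha)⟩

end WeilCoh

namespace Polarization

variable {D : WeilCoh.{u, v, w, x} V K} {G : Polarization.{u, v, w, x, b} D}

/-- the internal form -/
def toPl (h : D.IsWeil) (hP : G.IsPolarized) : Pl.{u, v, w, x, b} (WeilCoh.toCyc h) where
  Bund := G.Bund
  c := G.c
  c_mem := hP.chern_mem _
  box := G.box
  c_box := hP.chern_box _ _
  P1 := G.P1
  O1 := G.O1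
  P_dim := hP.dim_line
  P_tr := hP.int_line
  hard_inj := fun M _ _ hik a ha h0 => hP.hard_inj _ M _ _ hik a ha h0
  hard_surj := fun M _ _ hik a ha => hP.hard_surj _ M _ _ hik a ha

theorem conjB_iff (h : D.IsWeil) (hP : G.IsPolarized) {X : V} (M : G.Bund X) :
    G.ConjB M ↔ (toPl h hP).LefB M := by
  unfold ConjB Pl.LefB IsLambda
  constructor
  · rintro ⟨z, hz, h1⟩
    refine ⟨z, hz, fun i y hy => ⟨?_, fun j hj => ?_⟩⟩
    · exact (WeilCoh.act_eq h z y).trans (h1 i y hy).1
    · exact (WeilCoh.act_eq h z _).trans ((h1 i y hy).2 j hj)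
  · rintro ⟨z, hz, h1⟩
    refine ⟨z, hz, fun i y hy => ⟨?_, fun j hj => ?_⟩⟩
    · exact (WeilCoh.act_eq h z y).symm.trans (h1 i y hy).1
    · exact (WeilCoh.act_eq h z _).symm.trans ((h1 i y hy).2 j hj)

/-- the internal form of a very general section -/
noncomputable def VeryGeneral.toSect (h : D.IsWeil) (hP : G.IsPolarized) [CharZero K] {X Y : V}
    {M : G.Bund X} {i : Y ⟶ X} (hV : G.VeryGeneral M i) : Sect (WeilCoh.toCyc h) (G.c M) where
  Y := Y
  i := i
  r := hV.int.choose
  r_ne := by
    rw [Ne, Rat.cast_eq_zero]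
    exact hV.int.choose_spec.1
  dim := hV.dim
  tr := hV.int.choose_spec.2
  weak := hV.weak
  hard := by
    intro j k hjk y hy
    obtain ⟨e, he, hey⟩ := hP.hard_surj Y hV.chern.choose j k hjk y hy
    rw [hV.chern.choose_spec] at hey
    exact ⟨e, he, hey⟩
  v := hV.vanishing.choose
  v_mem := hV.vanishing.choose_spec.1
  v_ne := hV.vanishing.choose_spec.2.1
  v_orth := hV.vanishing.choose_spec.2.2
  spread := hV.spread

theorem conjC_of_lefB [CharZero K] (h : D.IsWeil) (hP : G.IsPolarized) {X : V} {M : G.Bund X}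
    (hB : (toPl h hP).LefB M) : D.ConjC X := by
  rw [WeilCoh.conjC_iff h]
  exact (toPl h hP).kunneth_of_lefB M hB

theorem sign_of_conjC (h : D.IsWeil) {X : V} (hC : D.ConjC X) : D.SignConj X := by
  rw [WeilCoh.signConj_iff h]
  exact ((WeilCoh.conjC_iff h X).mp hC).sign

/-- the sign conjecture for one very general section gives `B(X)` -/
theorem conjB_of_sign [CharZero K] (h : D.IsWeil) (hP : G.IsPolarized) {X : V} (M : G.Bund X)
    {Y : V} {i : Y ⟶ (G.P1 ⊗ (G.P1 ⊗ X)) ⊗ (G.P1 ⊗ (G.P1 ⊗ X))}
    (hY : G.VeryGeneral (G.ambient M) i) (hs : D.SignConj Y) : G.ConjB M := by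
  rw [conjB_iff h hP]
  have hdim : D.dim ((G.P1 ⊗ (G.P1 ⊗ X)) ⊗ (G.P1 ⊗ (G.P1 ⊗ X))) = 2 * (D.dim X + 2) := by
    rw [h.kunneth.dim, h.kunneth.dim, h.kunneth.dim, hP.dim_line]
    ring
  apply Pl.lefB_of_reg_lines
  exact (hY.toSect h hP).reg_of_sign (hP.chern_mem _ (G.ambient M)) (m := D.dim X + 2)
    (by omega) hdim ((WeilCoh.signConj_iff h Y).mp hs)

/-- `B(X)` gives `C(Y)` for all very general sections -/
theorem conjC_of_conjB [CharZero K] (h : D.IsWeil) (hP : G.IsPolarized) {X : V} (M : G.Bund X)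
    (hB : G.ConjB M) {Y : V} {i : Y ⟶ (G.P1 ⊗ (G.P1 ⊗ X)) ⊗ (G.P1 ⊗ (G.P1 ⊗ X))}
    (hY : G.VeryGeneral (G.ambient M) i) : D.ConjC Y := by
  rw [conjB_iff h hP] at hB
  have hdim : D.dim ((G.P1 ⊗ (G.P1 ⊗ X)) ⊗ (G.P1 ⊗ (G.P1 ⊗ X))) = 2 * (D.dim X + 2) := by
    rw [h.kunneth.dim, h.kunneth.dim, h.kunneth.dim, hP.dim_line]
    ring
  obtain ⟨N, hN⟩ := hY.chern
  have h1 : (toPl h hP).LefB N :=
    (hY.toSect h hP).lefB (G := toPl h hP) (M := G.ambient M) N hN (by
      change 2 ≤ D.dim ((G.P1 ⊗ (G.P1 ⊗ X)) ⊗ (G.P1 ⊗ (G.P1 ⊗ X)))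
      omega)
      (Pl.reg_lines_of_lefB (G := toPl h hP) hP.span_line M hB)
  exact conjC_of_lefB h hP h1

end Polarization

end Pool.Std
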