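import Pool.Agent.Work.StdConj.Prod

/-!
Pointwise form: `B(X)` and the regularity of the Lefschetz operators of finitely many products
of `X` and projective spaces.
-/

open CategoryTheory MonoidalCategory CartesianMonoidalCategory

universe u v w x b

namespace Pool.Std

open Pool.KC

variable {V : Type u} [Category.{v} V] [CartesianMonoidalCategory V] {K : Type x} [Field K]
variable {T : WeilTheory.{u, v, w, x} V K} {R : Cyc T}

namespace Pl

variable (G : Pl.{u, v, w, x, b} R)

/-- from `Λ` to the operator of the `sl2`-triple -/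
theorem lef_of_lefB {X : V} (M : G.Bund X) (h : G.LefB M) : G.Lef M := by
  obtain ⟨z, hz, hl⟩ := h
  rcases Nat.eq_zero_or_pos (T.dim X) with h0 | h0
  · refine ⟨0, zero_mem _, ?_⟩
    rw [T.act_zero]
    refine ⟨fun i _ a _ => rfl, fun i a _ => zero_mem _, ?_⟩
    intro i a ha
    rcases Nat.eq_zero_or_pos i with hi | hi
    · subst hi
      simp [h0]
    · rw [T.deg_eq_zero ha (by omega)]
      simp
  · set f : Module.End K (T.H X) := T.act z with hf
    set L : Module.End K (T.H X) := LinearMap.mulLeft K (G.c M) with hL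
    have hLa : ∀ a, L a = G.c M * a := fun a => rfl
    have hconj1 : ∀ g ∈ R.ops X, L * g * f ∈ R.ops X := by
      rintro g ⟨y, hy, rfl⟩
      refine ⟨T.pull (snd X X) (G.c M) * T.comp z y, R.of_eq (R.mul (R.pull _ (G.c_mem M))
        (R.comp_mem hz hy (k := T.dim X - 1) (by omega) rfl)) (by omega), ?_⟩
      apply LinearMap.ext
      intro a
      rw [T.act_snd_mul (G.c_deg M), T.act_comp]
      rfl
    have hconj2 : ∀ g ∈ R.ops X, f * g * L ∈ R.ops X := by
      rintro g ⟨y, hy, rfl⟩
      refine ⟨T.comp (T.pull (fst X X) (G.c M) * y) z, R.comp_mem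
        (R.mul (R.pull _ (G.c_mem M)) hy) hz (k := T.dim X) (by omega) rfl, ?_⟩
      apply LinearMap.ext
      intro a
      rw [T.act_comp]
      change f (T.act (T.pull (fst X X) (G.c M) * y) a) = f (T.act y (G.c M * a))
      rw [T.act_fst_mul, ← G.c_comm]
    have hS1 : ∀ r : ℕ, L ^ r * f ^ r ∈ R.ops X := by
      intro r
      induction r with
      | zero => simpa using one_mem (R.ops X)
      | succ r ih =>
        have := hconj1 _ ih
        rwa [← mul_assoc L, ← pow_succ', mul_assoc, ← pow_succ] at this
    have hS2 : ∀ r : ℕ, f ^ r * L ^ r ∈ R.ops X := by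
      intro r
      induction r with
      | zero => simpa using one_mem (R.ops X)
      | succ r ih =>
        have := hconj2 _ ih
        rwa [← mul_assoc f, ← pow_succ', mul_assoc, ← pow_succ] at this
    have hfr : ∀ (r : ℕ) {i j : ℕ} {y : T.H X}, G.Prim M i y → i + j ≤ T.dim X →
        (f ^ r) (G.c M ^ j * y) = if r ≤ j then G.c M ^ (j - r) * y else 0 := by
      intro r
      induction r with
      | zero => intro i j y _ _; simp
      | succ r ih =>
        intro i j y hy hij
        rw [pow_succ', Module.End.mul_apply, ih hy hij]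
        by_cases h1 : r ≤ j
        · rw [if_pos h1]
          by_cases h2 : r + 1 ≤ j
          · rw [if_pos h2]
            have h3 := (hl i y hy).2 (j - (r + 1)) (by omega)
            rw [show j - (r + 1) + 1 = j - r by omega] at h3
            exact h3
          · rw [if_neg h2, show j - r = 0 by omega, pow_zero, one_mul]
            exact (hl i y hy).1
        · rw [if_neg h1, if_neg (by omega), map_zero]
    have hLr : ∀ (r : ℕ) (a : T.H X), (L ^ r) a = G.c M ^ r * a := by
      intro r a
      rw [hL, LinearMap.pow_mulLeft]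
      rfl
    set S1 : Module.End K (T.H X) := ∑ r ∈ Finset.range (T.dim X),
      L ^ (r + 1) * f ^ (r + 1) with hS1d
    set S2 : Module.End K (T.H X) := ∑ r ∈ Finset.range (T.dim X),
      f ^ (r + 1) * L ^ (r + 1) with hS2d
    have hS1o : S1 ∈ R.ops X := sum_mem fun r _ => hS1 _
    have hS2o : S2 ∈ R.ops X := sum_mem fun r _ => hS2 _
    have hS1a : ∀ {i j : ℕ} {y : T.H X}, G.Prim M i y → i + j ≤ T.dim X →
        S1 (G.c M ^ j * y) = (j : K) • (G.c M ^ j * y) := by
      intro i j y hy hij
      have h1 : S1 (G.c M ^ j * y) = ∑ r ∈ Finset.range (T.dim X),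
          (if r + 1 ≤ j then 1 else 0 : K) • (G.c M ^ j * y) := by
        rw [hS1d, LinearMap.sum_apply]
        apply Finset.sum_congr rfl
        intro r _
        rw [Module.End.mul_apply, hfr _ hy hij]
        by_cases h2 : r + 1 ≤ j
        · rw [if_pos h2, if_pos h2, one_smul, hLr, ← mul_assoc, ← pow_add]
          congr 2
          omega
        · rw [if_neg h2, if_neg h2, zero_smul, map_zero]
      rw [h1, ← Finset.sum_smul, Finset.sum_boole]
      congr 2
      have e1 : (Finset.range (T.dim X)).filter (fun r => r + 1 ≤ j) = Finset.range j := by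
        ext r
        simp only [Finset.mem_filter, Finset.mem_range]
        omega
      rw [e1, Finset.card_range]
    have hS2a : ∀ {i j : ℕ} {y : T.H X}, G.Prim M i y → i + j ≤ T.dim X →
        S2 (G.c M ^ j * y) = ((T.dim X - i - j : ℕ) : K) • (G.c M ^ j * y) := by
      intro i j y hy hij
      have h1 : S2 (G.c M ^ j * y) = ∑ r ∈ Finset.range (T.dim X),
          (if r + 1 ≤ T.dim X - i - j then 1 else 0 : K) • (G.c M ^ j * y) := by
        rw [hS2d, LinearMap.sum_apply]
        apply Finset.sum_congr rfl
        intro r _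
        rw [Module.End.mul_apply, hLr, ← mul_assoc, ← pow_add]
        by_cases h2 : r + 1 ≤ T.dim X - i - j
        · rw [if_pos h2, one_smul, hfr _ hy (by omega), if_pos (by omega)]
          congr 2
          omega
        · rw [if_neg h2, zero_smul, hy.pow_eq_zero (by omega), map_zero]
      rw [h1, ← Finset.sum_smul, Finset.sum_boole]
      congr 2
      have e2 : (Finset.range (T.dim X)).filter (fun r => r + 1 ≤ T.dim X - i - j) =
          Finset.range (T.dim X - i - j) := by
        ext r
        simp only [Finset.mem_filter, Finset.mem_range]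
        omega
      rw [e2, Finset.card_range]
    obtain ⟨y0, hy0, hy0a⟩ := mul_mem (add_mem hS2o (one_mem (R.ops X))) hS1o
    have hz' : T.comp y0 z ∈ R.A (X ⊗ X) (T.dim X - 1) :=
      R.comp_mem hy0 hz (k := T.dim X - 1) (by omega) rfl
    have hval : ∀ {i j : ℕ} {y : T.H X}, G.Prim M i y → i + j ≤ T.dim X →
        T.act (T.comp y0 z) (G.c M ^ j * y) =
          (((T.dim X - i - j : ℕ) + 1 : K) * (j : K)) • f (G.c M ^ j * y) := by
      intro i j y hy hij
      rw [T.act_comp, LinearMap.comp_apply, hy0a, Module.End.mul_apply, hS1a hy hij, map_smul,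
        LinearMap.add_apply, hS2a hy hij, Module.End.one_apply, map_smul, map_add, map_smul]
      module
    refine ⟨T.comp y0 z, hz', isLam_of_comm h0 (R.deg hz') ?_⟩
    have key : ∀ a : T.H X, G.c M * T.act (T.comp y0 z) a - T.act (T.comp y0 z) (G.c M * a) =
        ∑ i ∈ Finset.range (2 * T.dim X + 1), ((i : K) - T.dim X) • T.proj X i a := by
      intro a
      refine prim_ind M (P := fun a => G.c M * T.act (T.comp y0 z) a -
        T.act (T.comp y0 z) (G.c M * a) = ∑ i ∈ Finset.range (2 * T.dim X + 1),
          ((i : K) - T.dim X) • T.proj X i a) (by simp) ?_ ?_ a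
      · intro i y hy j hij
        have hdeg : G.c M ^ j * y ∈ T.deg X (i + 2 * j) :=
          T.deg_of_eq (T.mul_deg (G.c_pow_deg M j) hy.2.1) (by omega)
        have hR : ∑ k ∈ Finset.range (2 * T.dim X + 1),
            ((k : K) - T.dim X) • T.proj X k (G.c M ^ j * y) =
            (((i + 2 * j : ℕ) : K) - T.dim X) • (G.c M ^ j * y) := by
          rw [Finset.sum_eq_single (i + 2 * j), T.proj_same hdeg]
          · intro k _ hk
            rw [T.proj_ne hdeg (Ne.symm hk), smul_zero]
          · intro h2
            exact absurd (Finset.mem_range.mpr (by omega)) h2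
        have h1 : G.c M * T.act (T.comp y0 z) (G.c M ^ j * y) =
            (((T.dim X - i - j : ℕ) + 1 : K) * (j : K)) • (G.c M ^ j * y) := by
          rw [hval hy hij, mul_smul_comm]
          rcases Nat.eq_zero_or_pos j with hj | hj
          · subst hj
            simp
          · obtain ⟨j, rfl⟩ : ∃ j', j = j' + 1 := ⟨j - 1, by omega⟩
            rw [(hl i y hy).2 j hij, ← mul_assoc, ← pow_succ']
        have h2 : T.act (T.comp y0 z) (G.c M * (G.c M ^ j * y)) =
            (((T.dim X - i - j : ℕ) : K) * ((j : K) + 1)) • (G.c M ^ j * y) := by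
          rw [← mul_assoc, ← pow_succ']
          rcases Nat.lt_or_ge (T.dim X) (i + (j + 1)) with hj | hj
          · rw [hy.pow_eq_zero hj, map_zero, show T.dim X - i - j = 0 by omega]
            simp
          · rw [hval hy hj, (hl i y hy).2 j hj,
              show T.dim X - i - j = (T.dim X - i - (j + 1)) + 1 by omega]
            push_cast
            rfl
        rw [hR, h1, h2, ← sub_smul]
        congr 1
        rw [Nat.cast_sub (by omega), Nat.cast_sub (by omega)]
        push_cast
        ring
      · intro a e h1 h2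
        simp only [map_add, mul_add, smul_add, Finset.sum_add_distrib]
        rw [← h1, ← h2]
        abel
    intro i a ha
    rw [key]
    by_cases hi : i ≤ 2 * T.dim X
    · rw [Finset.sum_eq_single i, T.proj_same ha]
      · intro k _ hk
        rw [T.proj_ne ha (Ne.symm hk), smul_zero]
      · intro h2
        exact absurd (Finset.mem_range.mpr (by omega)) h2
    · rw [T.deg_eq_zero ha (by omega)]
      simp

/-- `B(X)` implies regularity -/
theorem reg_of_lefB [CharZero K] {X : V} (hX : 1 ≤ T.dim X) (M : G.Bund X) (h : G.LefB M) :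
    R.Reg (G.c M) := by
  obtain ⟨y, hy, hy0, hy1⟩ := (G.kunneth_of_lefB M h).sign
  obtain ⟨z, hz, hl⟩ := h
  have hLfL : ∀ a : T.H X, G.c M * T.act z (G.c M * a) = G.c M * a := by
    intro a
    refine prim_ind M (P := fun a => G.c M * T.act z (G.c M * a) = G.c M * a) (by simp) ?_ ?_ a
    · intro i e he j hij
      rw [← mul_assoc (G.c M) (G.c M ^ j), ← pow_succ']
      rcases Nat.lt_or_ge (T.dim X) (i + (j + 1)) with h1 | h1
      · rw [he.pow_eq_zero h1, map_zero, mul_zero]
      · rw [(hl i e he).2 j h1, ← mul_assoc, ← pow_succ']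
    · intro a e h1 h2
      rw [mul_add, map_add, mul_add, h1, h2]
  refine ⟨T.comp y z, R.comp_mem hy hz (k := T.dim X - 1) (by omega) rfl, ?_, ?_⟩
  · intro j a ha
    have h1 : G.c M * a ∈ T.deg X (2 * (j + 1)) :=
      T.deg_of_eq (T.mul_deg (G.c_deg M) ha) (by omega)
    rw [T.act_comp, LinearMap.comp_apply, hy0 (j + 1) _ h1, hLfL]
  · intro j a ha
    have h1 : G.c M * a ∈ T.deg X (2 * (j + 1) + 1) :=
      T.deg_of_eq (T.mul_deg (G.c_deg M) ha) (by omega)
    rw [T.act_comp, LinearMap.comp_apply, hy1 (j + 1) _ h1, map_zero, mul_zero]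

end Pl

end Pool.Std
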