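import Pool.Agent.Work.StdConj.Reg

/-!
External products of correspondences; the Lefschetz standard conjecture for products.
-/

open CategoryTheory MonoidalCategory CartesianMonoidalCategory

universe u v w x b

namespace Pool.Std

open Pool.KC

variable {V : Type u} [Category.{v} V] [CartesianMonoidalCategory V] {K : Type x} [Field K]
variable {T : WeilTheory.{u, v, w, x} V K} {R : Cyc T}

/-- external product of correspondences -/
noncomputable def bx (T : WeilTheory.{u, v, w, x} V K) {X Y : V} (z : T.H (X ⊗ X))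
    (y : T.H (Y ⊗ Y)) : T.H ((X ⊗ Y) ⊗ (X ⊗ Y)) :=
  T.pull (lift (fst (X ⊗ Y) (X ⊗ Y) ≫ fst X Y) (snd (X ⊗ Y) (X ⊗ Y) ≫ fst X Y)) z *
    T.pull (lift (fst (X ⊗ Y) (X ⊗ Y) ≫ snd X Y) (snd (X ⊗ Y) (X ⊗ Y) ≫ snd X Y)) y

theorem bx_mem {X Y : V} {i j : ℕ} {z : T.H (X ⊗ X)} {y : T.H (Y ⊗ Y)}
    (hz : z ∈ R.A (X ⊗ X) i) (hy : y ∈ R.A (Y ⊗ Y) j) :
    bx T z y ∈ R.A ((X ⊗ Y) ⊗ (X ⊗ Y)) (i + j) :=
  R.mul (R.pull _ hz) (R.pull _ hy)

theorem bx_aux {A : Type*} [Ring A] [Algebra K A] {a e p r s t : A} {c d : K}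
    (h1 : e * p = c • (p * e)) (h2 : s * r = d • (r * s)) :
    a * e * (p * s * (r * t)) = (c * d) • (a * p * (e * r) * (s * t)) := by
  calc a * e * (p * s * (r * t)) = a * (e * p) * (s * r) * t := by simp only [mul_assoc]
    _ = (c * d) • (a * (p * e) * (r * s) * t) := by
        rw [h1, h2]
        simp only [smul_mul_assoc, mul_smul_comm, smul_smul]
        rw [mul_comm d c]
    _ = _ := by simp only [mul_assoc]

theorem act_bx {X Y : V} {k : ℕ} {z : T.H (X ⊗ X)} (hz : z ∈ T.deg (X ⊗ X) (2 * k))
    (y : T.H (Y ⊗ Y)) {m n : ℕ} {a : T.H X} {e : T.H Y} (ha : a ∈ T.deg X m)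
    (he : e ∈ T.deg Y n) :
    T.act (bx T z y) (T.pull (fst X Y) a * T.pull (snd X Y) e) =
      T.pull (fst X Y) (T.act z a) * T.pull (snd X Y) (T.act y e) := by
  refine T.kindk (P := fun z => T.act (bx T z y) (T.pull (fst X Y) a * T.pull (snd X Y) e) =
      T.pull (fst X Y) (T.act z a) * T.pull (snd X Y) (T.act y e))
      (by simp [bx, T.act_zero]) ?_ ?_ hz
  · intro i j p1 p2 hp1 hp2 hij
    refine T.kind' (P := fun y =>
      T.act (bx T (T.pull (fst X X) p1 * T.pull (snd X X) p2) y)
        (T.pull (fst X Y) a * T.pull (snd X Y) e) =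
      T.pull (fst X Y) (T.act (T.pull (fst X X) p1 * T.pull (snd X X) p2) a) *
        T.pull (snd X Y) (T.act y e)) (by simp [bx, T.act_zero]) ?_ ?_ y
    · intro s t q1 q2 hq1 hq2
      rw [T.act_pure, T.act_pure, T.act_apply]
      have h1 := T.comm (T.pull_deg (fst (X ⊗ Y) (X ⊗ Y) ≫ snd X Y) he)
        (T.pull_deg (fst (X ⊗ Y) (X ⊗ Y) ≫ fst X Y) hp1)
      have h2 := T.comm (T.pull_deg (snd (X ⊗ Y) (X ⊗ Y) ≫ fst X Y) hp2)
        (T.pull_deg (fst (X ⊗ Y) (X ⊗ Y) ≫ snd X Y) hq1)
      rw [T.neg_pow_smul] at h1 h2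
      have h3 : T.pull (fst (X ⊗ Y) (X ⊗ Y)) (T.pull (fst X Y) a * T.pull (snd X Y) e) *
          bx T (T.pull (fst X X) p1 * T.pull (snd X X) p2)
            (T.pull (fst Y Y) q1 * T.pull (snd Y Y) q2) =
          ((-1 : K) ^ (n * i) * (-1) ^ (j * s)) •
            (T.pull (fst (X ⊗ Y) (X ⊗ Y)) (T.pull (fst X Y) (a * p1) * T.pull (snd X Y) (e * q1)) *
            T.pull (snd (X ⊗ Y) (X ⊗ Y)) (T.pull (fst X Y) p2 * T.pull (snd X Y) q2)) := by
        unfold bx
        simp only [map_mul, T.pull_comp', lift_fst, lift_snd]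
        exact bx_aux h1 h2
      rw [h3, map_smul, T.push_pure, T.tr_prod, map_smul, map_smul, smul_mul_assoc,
        mul_smul_comm, smul_smul, smul_smul]
      congr 1
      by_cases hn : n + s = 2 * T.dim Y
      · have h4 : ((-1 : K) ^ (n * i) * (-1) ^ (j * s)) = 1 := by
          rw [← pow_add]
          apply Even.neg_one_pow
          have h5 : Even (n + s) := ⟨T.dim Y, by omega⟩
          have h6 : Even (i + j) := ⟨k, by omega⟩
          rcases Nat.even_or_odd n with hn' | hn'
          · have hs' : Even s := (Nat.even_add.mp h5).mp hn'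
            exact (hn'.mul_right i).add (hs'.mul_left j)
          · have hs' : Odd s := by
              rw [← Nat.not_even_iff_odd] at hn' ⊢
              exact fun h => hn' ((Nat.even_add.mp h5).mpr h)
            rcases Nat.even_or_odd i with hi' | hi'
            · have hj' : Even j := (Nat.even_add.mp h6).mp hi'
              exact (hi'.mul_left n).add (hj'.mul_right s)
            · have hj' : Odd j := by
                rw [← Nat.not_even_iff_odd] at hi' ⊢
                exact fun h => hi' ((Nat.even_add.mp h6).mpr h)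
              exact (hn'.mul hi').add_odd (hj'.mul hs')
        rw [h4, one_mul]
      · rw [T.tr_mul_ne he hq1 hn, mul_zero, mul_zero]
    · intro y y' h1 h2
      have h3 : bx T (T.pull (fst X X) p1 * T.pull (snd X X) p2) (y + y') =
          bx T (T.pull (fst X X) p1 * T.pull (snd X X) p2) y +
          bx T (T.pull (fst X X) p1 * T.pull (snd X X) p2) y' := by
        simp only [bx, map_add, mul_add]
      rw [h3, T.act_add, T.act_add, LinearMap.add_apply, LinearMap.add_apply, h1, h2, map_add,
        mul_add]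
  · intro z z' h1 h2
    have h3 : bx T (z + z') y = bx T z y + bx T z' y := by
      simp only [bx, map_add, add_mul]
    rw [h3, T.act_add, T.act_add, LinearMap.add_apply, LinearMap.add_apply, h1, h2, map_add,
      add_mul]

namespace Pl

variable {G : Pl.{u, v, w, x, b} R}

theorem box_mul' {X Y : V} (M : G.Bund X) (N : G.Bund Y) (a : T.H X) (e : T.H Y) :
    G.c (G.box M N) * (T.pull (fst X Y) a * T.pull (snd X Y) e) =
      T.pull (fst X Y) (G.c M * a) * T.pull (snd X Y) e +
        T.pull (fst X Y) a * T.pull (snd X Y) (G.c N * e) := by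
  rw [G.c_box, add_mul, ← mul_assoc, ← map_mul, ← mul_assoc,
    T.even_comm (T.snd_deg (X := X) (G.c_deg N)), mul_assoc, ← map_mul]

theorem isLam_of_comm {X : V} {M : G.Bund X} (hX : 1 ≤ T.dim X) {z : T.H (X ⊗ X)}
    (hz : z ∈ T.deg (X ⊗ X) (2 * (T.dim X - 1)))
    (h : ∀ (i : ℕ), ∀ a ∈ T.deg X i,
      G.c M * T.act z a - T.act z (G.c M * a) = ((i : K) - T.dim X) • a) :
    G.IsLam M (T.act z) :=
  ⟨fun i hi a ha => act_eq_zero T.toCohomology hz ha (by omega),
    fun i a ha => T.act_deg hz (by omega) ha, h⟩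

/-- the product of varieties satisfying the standard conjecture -/
theorem lef_prod {X Y : V} {M : G.Bund X} {N : G.Bund Y} (hM : G.Lef M) (hN : G.Lef N) :
    G.Lef (G.box M N) := by
  obtain ⟨z, hz, hz'⟩ := hM
  obtain ⟨y, hy, hy'⟩ := hN
  have hdim := T.dim_prod X Y
  rcases Nat.eq_zero_or_pos (T.dim X) with hX | hX
  · rcases Nat.eq_zero_or_pos (T.dim Y) with hY | hY
    · -- everything is in degree zero
      refine ⟨0, zero_mem _, ?_⟩
      rw [T.act_zero]
      refine ⟨fun i _ a _ => rfl, fun i a _ => zero_mem _, ?_⟩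
      intro i a ha
      rcases Nat.eq_zero_or_pos i with hi | hi
      · subst hi
        simp [hdim, hX, hY]
      · rw [T.deg_eq_zero ha (by omega)]
        simp
    · -- `dim X = 0`
      have hmem : bx T (T.diag X) y ∈ R.A ((X ⊗ Y) ⊗ (X ⊗ Y)) (T.dim (X ⊗ Y) - 1) :=
        R.of_eq (bx_mem (R.diag X) hy) (by omega)
      refine ⟨bx T (T.diag X) y, hmem, isLam_of_comm (by omega) (R.deg hmem) ?_⟩
      intro i a ha
      refine T.kindk (P := fun a => G.c (G.box M N) * T.act (bx T (T.diag X) y) a -
        T.act (bx T (T.diag X) y) (G.c (G.box M N) * a) = ((i : K) - T.dim (X ⊗ Y)) • a)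
        (by simp) ?_ ?_ ha
      · intro s t a e hs ht hst
        rcases Nat.eq_zero_or_pos s with h0 | h0
        · have hc0 : G.c M * a = 0 := T.deg_eq_zero (T.mul_deg (G.c_deg M) hs) (by omega)
          have h2 := eq_add_of_sub_eq (hy'.comm t e ht)
          rw [box_mul', hc0, map_zero, zero_mul, zero_add,
            act_bx (k := T.dim X) (T.diag_deg X) y hs ht,
            act_bx (k := T.dim X) (T.diag_deg X) y hs (T.mul_deg (G.c_deg N) ht),
            T.act_diag, LinearMap.id_apply, box_mul', hc0, map_zero, zero_mul, zero_add, h2,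
            hdim, hX, ← hst, h0]
          push_cast
          simp only [map_add, map_smul, mul_add, mul_smul_comm]
          module
        · rw [T.deg_eq_zero hs (by omega)]
          simp
      · intro a e h1 h2
        rw [map_add, mul_add, mul_add, map_add, smul_add, ← h1, ← h2]
        abel
  · rcases Nat.eq_zero_or_pos (T.dim Y) with hY | hY
    · have hmem : bx T z (T.diag Y) ∈ R.A ((X ⊗ Y) ⊗ (X ⊗ Y)) (T.dim (X ⊗ Y) - 1) :=
        R.of_eq (bx_mem hz (R.diag Y)) (by omega)
      refine ⟨bx T z (T.diag Y), hmem, isLam_of_comm (by omega) (R.deg hmem) ?_⟩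
      intro i a ha
      refine T.kindk (P := fun a => G.c (G.box M N) * T.act (bx T z (T.diag Y)) a -
        T.act (bx T z (T.diag Y)) (G.c (G.box M N) * a) = ((i : K) - T.dim (X ⊗ Y)) • a)
        (by simp) ?_ ?_ ha
      · intro s t a e hs ht hst
        rcases Nat.eq_zero_or_pos t with h0 | h0
        · have hc0 : G.c N * e = 0 := T.deg_eq_zero (T.mul_deg (G.c_deg N) ht) (by omega)
          have h2 := eq_add_of_sub_eq (hz'.comm s a hs)
          rw [box_mul', hc0, map_zero, mul_zero, add_zero,
            act_bx (R.deg hz) _ hs ht,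
            act_bx (R.deg hz) _ (T.mul_deg (G.c_deg M) hs) ht,
            T.act_diag, LinearMap.id_apply, box_mul', hc0, map_zero, mul_zero, add_zero, h2,
            hdim, hY, ← hst, h0]
          push_cast
          simp only [map_add, map_smul, add_mul, smul_mul_assoc]
          module
        · rw [T.deg_eq_zero ht (by omega)]
          simp
      · intro a e h1 h2
        rw [map_add, mul_add, mul_add, map_add, smul_add, ← h1, ← h2]
        abel
    · have hmem : bx T z (T.diag Y) + bx T (T.diag X) y ∈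
          R.A ((X ⊗ Y) ⊗ (X ⊗ Y)) (T.dim (X ⊗ Y) - 1) :=
        add_mem (R.of_eq (bx_mem hz (R.diag Y)) (by omega))
          (R.of_eq (bx_mem (R.diag X) hy) (by omega))
      refine ⟨_, hmem, isLam_of_comm (by omega) (R.deg hmem) ?_⟩
      have hval : ∀ {s t : ℕ} {a : T.H X} {e : T.H Y}, a ∈ T.deg X s → e ∈ T.deg Y t →
          T.act (bx T z (T.diag Y) + bx T (T.diag X) y)
            (T.pull (fst X Y) a * T.pull (snd X Y) e) =
          T.pull (fst X Y) (T.act z a) * T.pull (snd X Y) e +
            T.pull (fst X Y) a * T.pull (snd X Y) (T.act y e) := by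
        intro s t a e hs ht
        rw [T.act_add, LinearMap.add_apply, act_bx (R.deg hz) _ hs ht,
          act_bx (k := T.dim X) (T.diag_deg X) y hs ht, T.act_diag, T.act_diag,
          LinearMap.id_apply, LinearMap.id_apply]
      intro i a ha
      refine T.kindk (P := fun a => G.c (G.box M N) *
        T.act (bx T z (T.diag Y) + bx T (T.diag X) y) a -
        T.act (bx T z (T.diag Y) + bx T (T.diag X) y) (G.c (G.box M N) * a) =
          ((i : K) - T.dim (X ⊗ Y)) • a) (by simp) ?_ ?_ ha
      · intro s t a e hs ht hst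
        have h1 := eq_add_of_sub_eq (hz'.comm s a hs)
        have h2 := eq_add_of_sub_eq (hy'.comm t e ht)
        rw [hval hs ht, mul_add, box_mul', box_mul', box_mul', map_add,
          hval (T.mul_deg (G.c_deg M) hs) ht, hval hs (T.mul_deg (G.c_deg N) ht), h1, h2, hdim,
          ← hst]
        push_cast
        simp only [map_add, map_smul, add_mul, mul_add, smul_mul_assoc, mul_smul_comm]
        module
      · intro a e h1 h2
        rw [map_add, mul_add, mul_add, map_add, smul_add, ← h1, ← h2]
        abel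

end Pl

end Pool.Std
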