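import Mathlib

/-!
# Weil cohomology theories with rational algebraic classes

`GrAlg K`: finite-dimensional graded-commutative graded algebras over the field `K`.

`WeilCoh V K`: the data of a Weil cohomology theory with coefficients in the field `K` on a
category `V` with finite products (the category of smooth projective varieties over an
algebraically closed field), with the groups of algebraic classes with rational coefficients.

`WeilCoh.IsWeil`: the axioms.

`Polarization D`: ample line bundles, the projective line; `Polarization.IsPolarized`: their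
axioms and the hard Lefschetz theorem; `Polarization.VeryGeneral`: very general hypersurface
sections.

`WeilCoh.SignConj`, `WeilCoh.ConjC`, `Polarization.ConjB`: the standard conjectures.
-/

open CategoryTheory MonoidalCategory CartesianMonoidalCategory

universe u v w x b

namespace Pool.Std

/-- A finite-dimensional graded algebra over `K`, graded-commutative. -/
structure GrAlg (K : Type x) [Field K] where
  A : Type w
  [ring : Ring A]
  [alg : Algebra K A]
  [fin : FiniteDimensional K A]
  /-- the elements of degree `i` -/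
  deg : ℕ → Submodule K A
  [grad : GradedAlgebra deg]
  comm : ∀ (i j : ℕ) (a b : A), a ∈ deg i → b ∈ deg j → a * b = (-1) ^ (i * j) * (b * a)

namespace GrAlg

variable {K : Type x} [Field K] (R : GrAlg.{w, x} K)

instance instRing : Ring R.A := R.ring
instance instSemiring : Semiring R.A := inferInstance
instance instAlgebra : Algebra K R.A := R.alg
instance instAddCommMonoid : AddCommMonoid R.A := inferInstance
instance instAddGroup : AddGroup R.A := inferInstance
instance instModule : Module K R.A := inferInstance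
instance instZero : Zero R.A := inferInstance
instance instOne : One R.A := inferInstance
instance instMul : Mul R.A := inferInstance
instance instFinite : FiniteDimensional K R.A := R.fin
instance instGraded : GradedAlgebra R.deg := R.grad

end GrAlg

/-- The data of a Weil cohomology theory: `R X` is the cohomology algebra `H(X)`, `tr` the
trace (orientation), `push X Y` the push-forward along the projection `X × Y → Y`, `alg X i`
the group of the classes of algebraic cycles of codimension `i` on `X` with rational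
coefficients, and `diag X` the class of the diagonal. -/
structure WeilCoh (V : Type u) [Category.{v} V] [CartesianMonoidalCategory V]
    (K : Type x) [Field K] where
  dim : V → ℕ
  R : V → GrAlg.{w, x} K
  pull : ∀ {X Y : V}, (X ⟶ Y) → ((R Y).A →ₐ[K] (R X).A)
  tr : ∀ X : V, (R X).A →ₗ[K] K
  push : ∀ X Y : V, (R (X ⊗ Y)).A →ₗ[K] (R Y).A
  alg : ∀ X : V, ℕ → AddSubgroup (R X).A
  diag : ∀ X : V, (R (X ⊗ X)).A

namespace WeilCoh

variable {V : Type u} [Category.{v} V] [CartesianMonoidalCategory V] {K : Type x} [Field K]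
variable (D : WeilCoh.{u, v, w, x} V K)

/-- the cohomology `H(X)` -/
abbrev H (X : V) : Type w := (D.R X).A

/-- the cohomology `H^i(X)` -/
abbrev deg (X : V) (i : ℕ) : Submodule K (D.H X) := (D.R X).deg i

/-- pull-back of classes -/
def pb {X Y : V} (f : X ⟶ Y) (a : D.H Y) : D.H X := D.pull f a

/-- push-forward of classes along the projection `X × Y → Y` -/
def pf {X Y : V} (z : D.H (X ⊗ Y)) : D.H Y := D.push X Y z

/-- the trace (degree) of a class -/
def int {X : V} (a : D.H X) : K := D.tr X a

/-- The product class `a × b = pr₁^* a * pr₂^* b` on `X × Y`. -/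
def cross {X Y : V} (a : D.H X) (b : D.H Y) : D.H (X ⊗ Y) :=
  D.pb (fst X Y) a * D.pb (snd X Y) b

/-- `H` is a contravariant functor to graded algebras. -/
structure PullAxioms : Prop where
  id : ∀ (X : V) (a : D.H X), D.pb (𝟙 X) a = a
  comp : ∀ (X Y Z : V) (f : X ⟶ Y) (g : Y ⟶ Z) (a : D.H Z), D.pb (f ≫ g) a = D.pb f (D.pb g a)
  deg : ∀ (X Y : V) (f : X ⟶ Y) (i : ℕ) (a : D.H Y), a ∈ D.deg Y i → D.pb f a ∈ D.deg X i

/-- The Kuenneth formula: `H(X) ⊗ H(Y) → H(X × Y)` is surjective and both sides have the same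
dimension; and `push` is `tr ⊗ id`. -/
structure KunnethAxioms : Prop where
  dim : ∀ X Y : V, D.dim (X ⊗ Y) = D.dim X + D.dim Y
  span : ∀ X Y : V, Submodule.span K {t | ∃ (a : D.H X) (b : D.H Y), D.cross a b = t} = ⊤
  finrank : ∀ X Y : V,
    Module.finrank K (D.H (X ⊗ Y)) = Module.finrank K (D.H X) * Module.finrank K (D.H Y)
  push : ∀ (X Y : V) (a : D.H X) (b : D.H Y), D.pf (D.cross a b) = D.int a • b

/-- The trace lives in the top degree, satisfies Poincare duality, is compatible with
products and invariant under isomorphisms. -/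
structure TraceAxioms : Prop where
  deg : ∀ (X : V) (i : ℕ) (a : D.H X), a ∈ D.deg X i → i ≠ 2 * D.dim X → D.int a = 0
  duality : ∀ (X : V) (a : D.H X), (∀ b : D.H X, D.int (b * a) = 0) → a = 0
  cross : ∀ (X Y : V) (a : D.H X) (b : D.H Y), D.int (D.cross a b) = D.int a * D.int b
  iso : ∀ (X Y : V) (f : X ≅ Y) (a : D.H Y), D.int (D.pb f.hom a) = D.int a

/-- The algebraic classes of codimension `i` have degree `2 i` and are stable under
products and multiplication by rational numbers. -/
structure CycleAxioms : Prop where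
  deg : ∀ (X : V) (i : ℕ), ∀ a ∈ D.alg X i, a ∈ D.deg X (2 * i)
  one : ∀ X : V, 1 ∈ D.alg X 0
  mul : ∀ (X : V) (i j : ℕ), ∀ a ∈ D.alg X i, ∀ b ∈ D.alg X j, a * b ∈ D.alg X (i + j)
  smul : ∀ (X : V) (i : ℕ) (q : ℚ), ∀ a ∈ D.alg X i, (q : K) • a ∈ D.alg X i

/-- Pull-backs, and push-forwards along projections, of algebraic classes are algebraic. -/
structure FunctorAxioms : Prop where
  pull : ∀ (X Y : V) (f : X ⟶ Y) (i : ℕ), ∀ a ∈ D.alg Y i, D.pb f a ∈ D.alg X i
  push : ∀ (X Y : V) (i : ℕ), ∀ z ∈ D.alg (X ⊗ Y) (D.dim X + i), D.pf z ∈ D.alg Y i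

/-- The class of the diagonal is algebraic and is the push-forward of `1` along the diagonal
map. -/
structure DiagonalAxioms : Prop where
  mem : ∀ X : V, D.diag X ∈ D.alg (X ⊗ X) (D.dim X)
  spec : ∀ (X : V) (z : D.H (X ⊗ X)), D.int (z * D.diag X) = D.int (D.pb (lift (𝟙 X) (𝟙 X)) z)

/-- The axioms of a Weil cohomology theory. -/
structure IsWeil : Prop where
  pull : D.PullAxioms
  kunneth : D.KunnethAxioms
  trace : D.TraceAxioms
  cycle : D.CycleAxioms
  functor : D.FunctorAxioms
  diagonal : D.DiagonalAxioms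

/-- The action `a ↦ pr₂_* (pr₁^* a * z)` of a class `z` on `X × Y` as a correspondence. -/
def act {X Y : V} (z : D.H (X ⊗ Y)) (a : D.H X) : D.H Y :=
  D.pf (D.pb (fst X Y) a * z)

/-- **The sign conjecture `C⁺(X)`**: the projector of `H(X)` onto its even part is given by an
algebraic class. -/
def SignConj (X : V) : Prop :=
  ∃ z ∈ D.alg (X ⊗ X) (D.dim X), (∀ i : ℕ, ∀ a ∈ D.deg X (2 * i), D.act z a = a) ∧
    ∀ i : ℕ, ∀ a ∈ D.deg X (2 * i + 1), D.act z a = 0

/-- **The Kuenneth standard conjecture `C(X)`**: for all `i` the projector of `H(X)` onto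
`H^i(X)` is given by an algebraic class. -/
def ConjC (X : V) : Prop :=
  ∀ i : ℕ, ∃ z ∈ D.alg (X ⊗ X) (D.dim X), (∀ a ∈ D.deg X i, D.act z a = a) ∧
    ∀ j : ℕ, j ≠ i → ∀ a ∈ D.deg X j, D.act z a = 0

end WeilCoh

/-- Ample line bundles and the projective line: `Bund X` are the ample line bundles on `X`,
`c M` is the first Chern class of `M`, `box M N` is the external tensor product, `P1` is the
projective line and `O1 = O(1)`. -/
structure Polarization {V : Type u} [Category.{v} V] [CartesianMonoidalCategory V]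
    {K : Type x} [Field K] (D : WeilCoh.{u, v, w, x} V K) where
  Bund : V → Type b
  c : ∀ {X : V}, Bund X → D.H X
  box : ∀ {X Y : V}, Bund X → Bund Y → Bund (X ⊗ Y)
  P1 : V
  O1 : Bund P1

namespace Polarization

variable {V : Type u} [Category.{v} V] [CartesianMonoidalCategory V] {K : Type x} [Field K]
variable {D : WeilCoh.{u, v, w, x} V K} (G : Polarization.{u, v, w, x, b} D)

/-- Every `X` has an ample line bundle; Chern classes are algebraic and additive; dimension,
degree and cohomology of the projective line; the hard Lefschetz theorem. -/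
structure IsPolarized : Prop where
  exists_bundle : ∀ X : V, Nonempty (G.Bund X)
  chern_mem : ∀ (X : V) (M : G.Bund X), G.c M ∈ D.alg X 1
  chern_box : ∀ (X Y : V) (M : G.Bund X) (N : G.Bund Y),
    G.c (G.box M N) = D.pb (fst X Y) (G.c M) + D.pb (snd X Y) (G.c N)
  dim_line : D.dim G.P1 = 1
  int_line : D.int (G.c G.O1) = 1
  span_line : ∀ a : D.H G.P1, ∃ s t : K, a = s • 1 + t • G.c G.O1
  hard_inj : ∀ (X : V) (M : G.Bund X) (i k : ℕ), i + k = D.dim X → ∀ a ∈ D.deg X i,
    G.c M ^ k * a = 0 → a = 0
  hard_surj : ∀ (X : V) (M : G.Bund X) (i k : ℕ), i + k = D.dim X → ∀ a ∈ D.deg X (i + 2 * k),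
    ∃ e ∈ D.deg X i, G.c M ^ k * e = a

/-- The morphism `i × i : Y × Y → X × X`. -/
def square {X Y : V} (i : Y ⟶ X) : Y ⊗ Y ⟶ X ⊗ X := lift (fst Y Y ≫ i) (snd Y Y ≫ i)

/-- **Very general hypersurface sections.**  The properties of (the embedding `i` of) a very
general member `Y` of the linear system of a large power `M^r` of `M` on `X` of even dimension:
degree, weak Lefschetz theorem, existence of a nonzero vanishing class `v`, and the spreading
of cycles: if the class `z` of a rational cycle of codimension `dim Y` on `Y × Y` is the sum of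
the restriction of a cohomology class `g` of `X × X` and of a multiple of the diagonal class,
then the same holds with `g` the class of a rational cycle on `X × X` (Voisin). -/
structure VeryGeneral {X Y : V} (M : G.Bund X) (i : Y ⟶ X) : Prop where
  dim : D.dim Y + 1 = D.dim X
  chern : ∃ N : G.Bund Y, G.c N = D.pb i (G.c M)
  int : ∃ r : ℚ, r ≠ 0 ∧ ∀ a : D.H X, D.int (D.pb i a) = (r : K) * D.int (a * G.c M)
  weak : ∀ j < D.dim Y, ∀ y ∈ D.deg Y j, ∃ a ∈ D.deg X j, D.pb i a = y
  vanishing : ∃ v ∈ D.deg Y (D.dim Y), v ≠ 0 ∧ ∀ a : D.H X, D.int (v * D.pb i a) = 0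
  spread : ∀ z ∈ D.alg (Y ⊗ Y) (D.dim Y),
    (∃ g ∈ D.deg (X ⊗ X) (2 * D.dim Y), ∃ s : K, z = D.pb (square i) g + s • D.diag Y) →
    ∃ g ∈ D.alg (X ⊗ X) (D.dim Y), ∃ s : K, z = D.pb (square i) g + s • D.diag Y

/-- Every `X` of even dimension at least two has very general hypersurface sections (true over
every algebraically closed field of infinite transcendence degree over its prime field). -/
def HasSections : Prop :=
  ∀ (X : V) (M : G.Bund X) (m : ℕ), 1 ≤ m → D.dim X = 2 * m →
    ∃ (Y : V) (i : Y ⟶ X), G.VeryGeneral M i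

/-- The class `y` on `X` of degree `i ≤ dim X` is primitive (with respect to `M`). -/
def Primitive {X : V} (M : G.Bund X) (i : ℕ) (y : D.H X) : Prop :=
  i ≤ D.dim X ∧ y ∈ D.deg X i ∧ G.c M ^ (D.dim X - i + 1) * y = 0

/-- `f` is the operator `Λ` on `H(X)`: `Λ(ξ^j y) = ξ^(j-1) y` for `1 ≤ j ≤ dim X - i` and
`Λ(y) = 0`, for primitive classes `y` of degree `i`, where `ξ = c M`.  (These classes span
`H(X)` by the hard Lefschetz theorem.) -/
def IsLambda {X : V} (M : G.Bund X) (f : D.H X → D.H X) : Prop :=
  ∀ (i : ℕ) (y : D.H X), G.Primitive M i y → f y = 0 ∧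
    ∀ j : ℕ, i + (j + 1) ≤ D.dim X → f (G.c M ^ (j + 1) * y) = G.c M ^ j * y

/-- **The Lefschetz standard conjecture `B(X)`** for the polarization `M`: the operator `Λ` is
given by an algebraic class. -/
def ConjB {X : V} (M : G.Bund X) : Prop :=
  ∃ z ∈ D.alg (X ⊗ X) (D.dim X - 1), G.IsLambda M (D.act z)

/-- the polarization `O(1) ⊠ O(1) ⊠ M` of `P¹ × P¹ × X` -/
def lines {X : V} (M : G.Bund X) : G.Bund (G.P1 ⊗ (G.P1 ⊗ X)) := G.box G.O1 (G.box G.O1 M)

/-- the product polarization of `(P¹ × P¹ × X) × (P¹ × P¹ × X)` -/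
def ambient {X : V} (M : G.Bund X) :
    G.Bund ((G.P1 ⊗ (G.P1 ⊗ X)) ⊗ (G.P1 ⊗ (G.P1 ⊗ X))) := G.box (G.lines M) (G.lines M)

end Polarization

end Pool.Std
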