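import Pool.Agent.Work.MP_298761_vhc.Ops
import Pool.Agent.Work.StdConj.Api

/-!
Internal form: rational algebraic classes in a Weil theory, line bundles, hard Lefschetz.
-/

open CategoryTheory MonoidalCategory CartesianMonoidalCategory
open scoped TensorProduct

universe u v w x b

namespace Pool.Std

open Pool.KC

variable {V : Type u} [Category.{v} V] [CartesianMonoidalCategory V] {K : Type x} [Field K]

/-- rational algebraic classes -/
structure Cyc (T : WeilTheory.{u, v, w, x} V K) where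
  A : ∀ X, ℕ → AddSubgroup (T.H X)
  le : ∀ {X : V} {i : ℕ} {a : T.H X}, a ∈ A X i → a ∈ T.C X i
  smul : ∀ {X : V} {i : ℕ} (q : ℚ) {a : T.H X}, a ∈ A X i → (q : K) • a ∈ A X i
  one : ∀ X, 1 ∈ A X 0
  mul : ∀ {X : V} {i j : ℕ} {a b : T.H X}, a ∈ A X i → b ∈ A X j → a * b ∈ A X (i + j)
  pull : ∀ {X Y : V} (f : X ⟶ Y) {i : ℕ} {a : T.H Y}, a ∈ A Y i → T.pull f a ∈ A X i
  push : ∀ {X Y : V} {i : ℕ} {a : T.H (X ⊗ Y)}, a ∈ A (X ⊗ Y) (T.dim X + i) →
    T.push X Y a ∈ A Y i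
  diag : ∀ X : V, T.diag X ∈ A (X ⊗ X) (T.dim X)

namespace Cyc

variable {T : WeilTheory.{u, v, w, x} V K} (R : Cyc T)

theorem deg {X : V} {i : ℕ} {a : T.H X} (ha : a ∈ R.A X i) : a ∈ T.deg X (2 * i) :=
  T.C_deg _ _ (R.le ha)

theorem of_eq {X : V} {i j : ℕ} {a : T.H X} (ha : a ∈ R.A X i) (h : i = j) : a ∈ R.A X j :=
  h ▸ ha

theorem neg_one_smul' {X : V} {i : ℕ} {a : T.H X} (ha : a ∈ R.A X i) : (-1 : K) • a ∈ R.A X i := by
  rw [neg_one_smul]
  exact neg_mem ha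

/-- an algebraic correspondence maps algebraic classes to algebraic classes -/
theorem act_mem {X Y : V} {i j k : ℕ} {z : T.H (X ⊗ Y)} (hz : z ∈ R.A (X ⊗ Y) k) {a : T.H X}
    (ha : a ∈ R.A X j) (h : j + k = T.dim X + i) : T.act z a ∈ R.A Y i := by
  rw [T.act_apply]
  apply R.push
  exact R.of_eq (R.mul (R.pull _ ha) hz) h

theorem pow {X : V} {a : T.H X} (ha : a ∈ R.A X 1) (k : ℕ) : a ^ k ∈ R.A X k := by
  induction k with
  | zero => rw [pow_zero]; exact R.one X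
  | succ k ih => rw [pow_succ]; exact R.mul ih ha

theorem eq_zero {X : V} {i : ℕ} {a : T.H X} (ha : a ∈ R.A X i) (h : T.dim X < i) : a = 0 :=
  T.C_eq_zero (R.le ha) h

theorem comp_mem {X Y Z : V} {i j k l : ℕ} {z : T.H (X ⊗ Y)} {y : T.H (Y ⊗ Z)}
    (hz : z ∈ R.A (X ⊗ Y) i) (hy : y ∈ R.A (Y ⊗ Z) j) (hk : i + j = T.dim Y + k) (hl : k = l) :
    T.comp z y ∈ R.A (X ⊗ Z) l := by
  subst hl
  unfold Cohomology.comp
  apply R.push
  have := R.mul (R.pull (lift (snd Y (X ⊗ Z) ≫ fst X Z) (fst Y (X ⊗ Z))) hz)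
    (R.pull (lift (fst Y (X ⊗ Z)) (snd Y (X ⊗ Z) ≫ snd X Z)) hy)
  exact R.of_eq this hk

/-- algebraic operators of degree `0` -/
def ops (X : V) : Subring (Module.End K (T.H X)) where
  carrier := {f | ∃ z ∈ R.A (X ⊗ X) (T.dim X), T.act z = f}
  mul_mem' := by
    rintro f g ⟨z, hz, rfl⟩ ⟨y, hy, rfl⟩
    exact ⟨T.comp y z, R.comp_mem hy hz rfl rfl, T.act_comp _ _⟩
  one_mem' := ⟨_, R.diag X, T.act_diag X⟩
  add_mem' := by
    rintro f g ⟨z, hz, rfl⟩ ⟨y, hy, rfl⟩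
    exact ⟨z + y, add_mem hz hy, T.act_add _ _⟩
  zero_mem' := ⟨0, zero_mem _, T.act_zero⟩
  neg_mem' := by
    rintro f ⟨z, hz, rfl⟩
    refine ⟨-z, neg_mem hz, ?_⟩
    apply LinearMap.ext
    intro a
    rw [T.act_apply, LinearMap.neg_apply, T.act_apply, mul_neg, map_neg]

theorem mem_ops {X : V} {f : Module.End K (T.H X)} :
    f ∈ R.ops X ↔ ∃ z ∈ R.A (X ⊗ X) (T.dim X), T.act z = f := Iff.rfl

theorem smul_ops {X : V} {f : Module.End K (T.H X)} (hf : f ∈ R.ops X) (q : ℚ) :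
    (q : K) • f ∈ R.ops X := by
  obtain ⟨z, hz, rfl⟩ := hf
  exact ⟨_, R.smul q hz, T.act_smul _ _⟩

open Polynomial in
/-- rational polynomials in algebraic operators are algebraic -/
theorem aeval_ops [CharZero K] {X : V} {f : Module.End K (T.H X)} (hf : f ∈ R.ops X) (p : ℚ[X]) :
    aeval f (p.map (algebraMap ℚ K)) ∈ R.ops X := by
  induction p using Polynomial.induction_on' with
  | add p q hp hq =>
    rw [Polynomial.map_add, map_add]
    exact add_mem hp hq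
  | monomial n c =>
    rw [Polynomial.map_monomial, aeval_monomial, ← Algebra.smul_def]
    exact R.smul_ops (pow_mem hf n) c

end Cyc

/-- line bundles and hard Lefschetz -/
structure Pl {T : WeilTheory.{u, v, w, x} V K} (R : Cyc T) where
  Bund : V → Type b
  c : ∀ {X : V}, Bund X → T.H X
  c_mem : ∀ {X : V} (M : Bund X), c M ∈ R.A X 1
  box : ∀ {X Y : V}, Bund X → Bund Y → Bund (X ⊗ Y)
  c_box : ∀ {X Y : V} (M : Bund X) (N : Bund Y),
    c (box M N) = T.pull (fst X Y) (c M) + T.pull (snd X Y) (c N)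
  P1 : V
  O1 : Bund P1
  P_dim : T.dim P1 = 1
  P_tr : T.tr P1 (c O1) = 1
  hard_inj : ∀ {X : V} (M : Bund X) {i k : ℕ}, i + k = T.dim X → ∀ a ∈ T.deg X i,
    c M ^ k * a = 0 → a = 0
  hard_surj : ∀ {X : V} (M : Bund X) {i k : ℕ}, i + k = T.dim X → ∀ a ∈ T.deg X (i + 2 * k),
    ∃ e ∈ T.deg X i, c M ^ k * e = a

namespace Pl

variable {T : WeilTheory.{u, v, w, x} V K} {R : Cyc T} (G : Pl.{u, v, w, x, b} R)

theorem c_deg {X : V} (M : G.Bund X) : G.c M ∈ T.deg X (2 * 1) := R.deg (G.c_mem M)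

theorem c_comm {X : V} (M : G.Bund X) (a : T.H X) : G.c M * a = a * G.c M :=
  T.even_comm (G.c_deg M) a

theorem c_pow_mem {X : V} (M : G.Bund X) (k : ℕ) : G.c M ^ k ∈ R.A X k := R.pow (G.c_mem M) k

theorem c_pow_deg {X : V} (M : G.Bund X) (k : ℕ) : G.c M ^ k ∈ T.deg X (2 * k) :=
  R.deg (G.c_pow_mem M k)

theorem c_pow_comm {X : V} (M : G.Bund X) (k : ℕ) (a : T.H X) : G.c M ^ k * a = a * G.c M ^ k :=
  T.even_comm (G.c_pow_deg M k) a

/-- the square of the class of a point of the projective line -/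
theorem P_sq : G.c G.O1 * G.c G.O1 = 0 := by
  have h := R.eq_zero (G.c_pow_mem G.O1 2) (by rw [G.P_dim]; omega)
  rwa [pow_two] at h

theorem P_tr_one : T.tr G.P1 1 = 0 := by
  apply T.tr_deg T.one_deg
  rw [G.P_dim]
  omega

end Pl

end Pool.Std
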