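import Pool.Agent.Work.StdConj.Cyc

/-!
Duality and traces: which correspondences are multiples of `1 × c ∓ c × 1`.
-/

open CategoryTheory MonoidalCategory CartesianMonoidalCategory
open scoped TensorProduct

universe u v w x b

namespace Pool.Std

open Pool.KC

variable {V : Type u} [Category.{v} V] [CartesianMonoidalCategory V] {K : Type x} [Field K]

section Coh

variable (T : Cohomology.{u, v, w, x} V K)

/-- the image of the multiplication by a class of degree `2` -/
theorem range_of_orth {X : V} {l : T.H X} (hl : l ∈ T.deg X (2 * 1)) {s t r : ℕ}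
    (hst : s = t + 2) (hsr : s + r = 2 * T.dim X) {a : T.H X} (ha : a ∈ T.deg X s)
    (h : ∀ x ∈ T.deg X r, l * x = 0 → T.tr X (a * x) = 0) : ∃ e ∈ T.deg X t, l * e = a := by
  by_contra hcon
  have hnot : a ∉ (T.deg X t).map (LinearMap.mulLeft K l) := by
    rintro ⟨e, he, hea⟩
    exact hcon ⟨e, he, hea⟩
  obtain ⟨f, hf, hf0⟩ := Submodule.exists_dual_map_eq_bot_of_notMem hnot inferInstance
  obtain ⟨y, rfl⟩ := (T.dualEquiv X).surjective f
  rw [T.dualEquiv_apply] at hf
  rw [← T.tr_proj_mul y ha hsr] at hf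
  apply hf
  apply h _ (T.proj_mem r y)
  apply T.eq_zero_of_deg (T.mul_deg hl (T.proj_mem r y))
  intro j hj e he
  have he' : e ∈ T.deg X t := T.deg_of_eq he (by omega)
  have h1 : l * e ∈ (T.deg X t).map (LinearMap.mulLeft K l) := ⟨e, he', rfl⟩
  have h2 : T.dualEquiv X y (l * e) = 0 := by
    have h3 : T.dualEquiv X y (l * e) ∈
        ((T.deg X t).map (LinearMap.mulLeft K l)).map (T.dualEquiv X y) := ⟨_, h1, rfl⟩
    rw [hf0, Submodule.mem_bot] at h3
    exact h3
  rw [T.dualEquiv_apply] at h2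
  have h4 : l * e ∈ T.deg X s := T.deg_of_eq (T.mul_deg hl he') (by omega)
  rw [← mul_assoc, ← T.even_comm hl, T.tr_proj_mul y h4 hsr, h2]

/-- correspondences of small degree act by zero in small degrees -/
theorem act_eq_zero {X Y : V} {k i : ℕ} {z : T.H (X ⊗ Y)} (hz : z ∈ T.deg (X ⊗ Y) k)
    {a : T.H X} (ha : a ∈ T.deg X i) (h : i + k < 2 * T.dim X) : T.act z a = 0 := by
  apply T.nondeg
  intro e
  refine T.hind (P := fun e => T.tr Y (e * T.act z a) = 0) (by simp) ?_ ?_ e
  · intro j e he
    rw [T.act_apply, ← T.push_snd_mul, T.tr_push]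
    by_cases hj : j ≤ 2 * T.dim Y
    · refine T.tr_mul_ne (T.snd_deg he) (T.mul_deg (T.fst_deg ha) hz) ?_
      rw [T.dim_prod]
      omega
    · rw [T.deg_eq_zero he (by omega)]
      simp
  · intro p q h1 h2
    rw [add_mul, map_add, h1, h2, add_zero]

theorem component_deg {X Y : V} (s t : ℕ) (z : T.H (X ⊗ Y)) :
    T.component X Y s t z ∈ T.deg (X ⊗ Y) (s + t) := by
  refine T.kind (P := fun z => T.component X Y s t z ∈ T.deg (X ⊗ Y) (s + t)) (by simp) ?_ ?_ z
  · intro p q
    rw [T.component_pure]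
    exact T.mul_deg (T.fst_deg (T.proj_mem s p)) (T.snd_deg (T.proj_mem t q))
  · intro p q h1 h2
    rw [map_add]
    exact add_mem h1 h2

/-- hard Lefschetz property of a class -/
def Hard {X : V} (c : T.H X) : Prop :=
  (∀ {i k : ℕ}, i + k = T.dim X → ∀ a ∈ T.deg X i, c ^ k * a = 0 → a = 0) ∧
  (∀ {i k : ℕ}, i + k = T.dim X → ∀ a ∈ T.deg X (i + 2 * k), ∃ e ∈ T.deg X i, c ^ k * e = a)

variable {T}

theorem pow_deg {X : V} {c : T.H X} (hc : c ∈ T.deg X (2 * 1)) (k : ℕ) :
    c ^ k ∈ T.deg X (2 * k) := by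
  induction k with
  | zero => rw [pow_zero]; exact T.one_deg
  | succ k ih => rw [pow_succ]; exact T.deg_of_eq (T.mul_deg ih hc) (by omega)

/-- the inverse of the Lefschetz isomorphism -/
theorem Hard.exists_inv {X : V} {c : T.H X} (hc : c ∈ T.deg X (2 * 1)) (h : Hard T c) {i k : ℕ}
    (hik : i + k = T.dim X) : ∃ l : Module.End K (T.H X),
      (∀ a ∈ T.deg X i, l (c ^ k * a) = a) ∧ ∀ a ∈ T.deg X (i + 2 * k), c ^ k * l a = a := by
  have hmap : ∀ a ∈ T.deg X i, LinearMap.mulLeft K (c ^ k) a ∈ T.deg X (i + 2 * k) := by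
    intro a ha
    exact T.deg_of_eq (T.mul_deg (pow_deg hc k) ha) (by omega)
  let f : T.deg X i →ₗ[K] T.deg X (i + 2 * k) := (LinearMap.mulLeft K (c ^ k)).restrict hmap
  have hf : ∀ a, (f a : T.H X) = c ^ k * a := fun a => rfl
  have hbij : Function.Bijective f := by
    constructor
    · rw [injective_iff_map_eq_zero]
      intro a ha
      apply Subtype.ext
      apply h.1 hik _ a.2
      rw [← hf, ha]
      rfl
    · rintro ⟨a, ha⟩
      obtain ⟨e, he, hea⟩ := h.2 hik a ha
      exact ⟨⟨e, he⟩, Subtype.ext hea⟩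
  let e := LinearEquiv.ofBijective f hbij
  have he : ∀ a, e a = f a := fun a => rfl
  refine ⟨(T.deg X i).subtype ∘ₗ e.symm.toLinearMap ∘ₗ
    LinearMap.codRestrict (T.deg X (i + 2 * k)) (T.proj X (i + 2 * k))
      (fun a => T.proj_mem _ a), ?_, ?_⟩
  · intro a ha
    have h1 : LinearMap.codRestrict (T.deg X (i + 2 * k)) (T.proj X (i + 2 * k))
        (fun a => T.proj_mem _ a) (c ^ k * a) = e ⟨a, ha⟩ := by
      apply Subtype.ext
      exact T.proj_same (hmap a ha)
    simp only [LinearMap.comp_apply, LinearEquiv.coe_coe]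
    rw [h1, LinearEquiv.symm_apply_apply]
    rfl
  · intro a ha
    have h1 : LinearMap.codRestrict (T.deg X (i + 2 * k)) (T.proj X (i + 2 * k))
        (fun a => T.proj_mem _ a) a = ⟨a, ha⟩ := by
      apply Subtype.ext
      exact T.proj_same ha
    simp only [LinearMap.comp_apply, LinearEquiv.coe_coe]
    rw [h1]
    have h2 := hf (e.symm ⟨a, ha⟩)
    rw [← he, LinearEquiv.apply_symm_apply] at h2
    exact h2.symm

/-- traces in opposite degrees of an operator (anti)commuting with `c` -/
theorem Hard.trace_pair {X : V} {c : T.H X} (hc : c ∈ T.deg X (2 * 1)) (h : Hard T c)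
    {S : Module.End K (T.H X)} {ε : K} (hS : ∀ a, S (c * a) = ε • (c * S a)) {i k : ℕ}
    (hik : i + k = T.dim X) :
    LinearMap.trace K (T.H X) (S * T.proj X (i + 2 * k)) =
      ε ^ k * LinearMap.trace K (T.H X) (S * T.proj X i) := by
  obtain ⟨l, hl1, hl2⟩ := h.exists_inv hc hik
  set C : Module.End K (T.H X) := LinearMap.mulLeft K (c ^ k) with hC
  have hCa : ∀ a, C a = c ^ k * a := fun a => rfl
  have hSk : ∀ j : ℕ, ∀ a, S (c ^ j * a) = ε ^ j • (c ^ j * S a) := by
    intro j
    induction j with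
    | zero => intro a; simp
    | succ j ih =>
      intro a
      rw [pow_succ, mul_assoc, ih, hS, mul_smul_comm, smul_smul, ← mul_assoc, ← pow_succ,
        ← pow_succ]
  have hSC : S * C = ε ^ k • (C * S) := by
    apply LinearMap.ext
    intro a
    exact hSk k a
  have h1 : C * l * T.proj X (i + 2 * k) = T.proj X (i + 2 * k) := by
    apply LinearMap.ext
    intro a
    exact hl2 _ (T.proj_mem _ a)
  have h2 : T.proj X (i + 2 * k) * C = C * T.proj X i := by
    apply LinearMap.ext
    intro a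
    refine T.hind (P := fun a => (T.proj X (i + 2 * k) * C) a = (C * T.proj X i) a)
      (by simp) ?_ ?_ a
    · intro j a ha
      have h3 : C a ∈ T.deg X (2 * k + j) := T.mul_deg (pow_deg hc k) ha
      rw [Module.End.mul_apply, Module.End.mul_apply]
      by_cases hj : j = i
      · subst hj
        rw [T.proj_same ha, T.proj_same (T.deg_of_eq h3 (by omega))]
      · rw [T.proj_ne ha hj, T.proj_ne h3 (by omega), map_zero]
    · intro a b h3 h4
      rw [map_add, map_add, h3, h4]
  have h3 : l * C * T.proj X i = T.proj X i := by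
    apply LinearMap.ext
    intro a
    exact hl1 _ (T.proj_mem _ a)
  calc LinearMap.trace K (T.H X) (S * T.proj X (i + 2 * k))
      = LinearMap.trace K (T.H X) (S * (C * l * T.proj X (i + 2 * k))) := by rw [h1]
    _ = LinearMap.trace K (T.H X) (ε ^ k • (C * (S * l * T.proj X (i + 2 * k)))) := by
        congr 1
        rw [mul_assoc C, ← mul_assoc S, hSC, smul_mul_assoc]
        simp only [mul_assoc]
    _ = ε ^ k * LinearMap.trace K (T.H X) (S * l * T.proj X (i + 2 * k) * C) := by
        rw [map_smul, smul_eq_mul, LinearMap.trace_mul_comm]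
    _ = ε ^ k * LinearMap.trace K (T.H X) (S * (l * C * T.proj X i)) := by
        congr 2
        rw [mul_assoc (S * l), h2]
        simp only [mul_assoc]
    _ = _ := by rw [h3]

theorem Hard.sum_eq_zero [CharZero K] {X : V} {c : T.H X} (hc : c ∈ T.deg X (2 * 1))
    (h : Hard T c) {S : Module.End K (T.H X)} {ε : K} (hS : ∀ a, S (c * a) = ε • (c * S a))
    {w : ℕ → K} (hw : ∀ i k, i + k = T.dim X → w (i + 2 * k) * ε ^ k = - w i) :
    ∑ i ∈ Finset.range (2 * T.dim X + 1),
      w i * LinearMap.trace K (T.H X) (S * T.proj X i) = 0 := by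
  set g : ℕ → K := fun i => w i * LinearMap.trace K (T.H X) (S * T.proj X i) with hg
  have h1 : ∀ i k, i + k = T.dim X → g (i + 2 * k) = - g i := by
    intro i k hik
    simp only [hg]
    rw [h.trace_pair hc hS hik, ← mul_assoc, hw i k hik, neg_mul]
  have h2 : ∀ i ∈ Finset.range (2 * T.dim X + 1), g (2 * T.dim X + 1 - 1 - i) = - g i := by
    intro i hi
    rw [Finset.mem_range] at hi
    rcases Nat.le_total i (T.dim X) with h3 | h3
    · rw [← h1 i (T.dim X - i) (by omega)]
      congr 1
      omega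
    · have h4 := h1 (2 * T.dim X - i) (i - T.dim X) (by omega)
      rw [show 2 * T.dim X - i + 2 * (i - T.dim X) = i by omega] at h4
      rw [h4, neg_neg]
      congr 1
  have h3 := Finset.sum_range_reflect g (2 * T.dim X + 1)
  rw [Finset.sum_congr rfl h2, Finset.sum_neg_distrib] at h3
  have h4 : (2 : K) * ∑ i ∈ Finset.range (2 * T.dim X + 1), g i = 0 := by
    rw [two_mul]
    nth_rw 1 [← h3]
    exact neg_add_cancel _
  exact (mul_eq_zero.mp h4).resolve_left two_ne_zero

end Coh

section Weil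

variable (T : WeilTheory.{u, v, w, x} V K)

/-- Let `ε = ± 1` and let `U` be multiplication by `f i` in degree `i`.  If the signed traces
cancel then there is a correspondence `y` with `c y(a) - ε y (c a) = U a`. -/
theorem exists_homotopy [CharZero K] {X : V} (hX : 1 ≤ T.dim X) {c : T.H X}
    (hc : c ∈ T.deg X (2 * 1))
    (h : Hard T.toCohomology c) {ε : K} (hε : ε * ε = 1) {f : ℕ → K}
    (hf : ∀ i k, i + k = T.dim X → ((-1) ^ (i + 2 * k) * f (i + 2 * k)) * ε ^ k =
      - ((-1) ^ i * f i)) {z : T.H (X ⊗ X)} (hz : z ∈ T.deg (X ⊗ X) (2 * T.dim X))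
    (hzf : ∀ i, ∀ a ∈ T.deg X i, T.act z a = f i • a) :
    ∃ y ∈ T.deg (X ⊗ X) (2 * (T.dim X - 1)),
      (T.pull (snd X X) c - ε • T.pull (fst X X) c) * y = z := by
  set l := T.pull (snd X X) c - ε • T.pull (fst X X) c with hl
  have hl2 : l ∈ T.deg (X ⊗ X) (2 * 1) :=
    sub_mem (T.snd_deg hc) (Submodule.smul_mem _ _ (T.fst_deg hc))
  refine range_of_orth T.toCohomology hl2 (t := 2 * (T.dim X - 1)) (s := 2 * T.dim X)
    (r := 2 * T.dim X) (by omega) (by rw [T.dim_prod]; omega) hz ?_
  intro y hy hly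
  rw [T.tr_mul_eq_str]
  set S : Module.End K (T.H X) := T.act (T.pull (Cohomology.swap X) y) with hS
  have hsw : T.pull (snd X X) c * T.pull (Cohomology.swap X) y =
      ε • (T.pull (fst X X) c * T.pull (Cohomology.swap X) y) := by
    have h1 := congrArg (T.pull (Cohomology.swap X)) hly
    rw [map_mul, map_zero, hl, map_sub, map_smul, T.pull_comp', T.pull_comp', lift_snd, lift_fst,
      sub_mul, smul_mul_assoc, sub_eq_zero] at h1
    rw [h1, smul_smul, hε, one_smul]
  have hSc : ∀ a, S (c * a) = ε • (c * S a) := by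
    intro a
    have h1 := congrArg (fun z => T.act z a) hsw
    simp only [T.act_smul, LinearMap.smul_apply] at h1
    rw [T.act_snd_mul hc, T.act_fst_mul, ← T.even_comm hc] at h1
    change c * S a = ε • S (c * a) at h1
    rw [h1, smul_smul, hε, one_smul]
  rw [str_apply, ← h.sum_eq_zero (w := fun i => (-1) ^ i * f i) hc hSc hf]
  apply Finset.sum_congr rfl
  intro i _
  have h2 : S * T.act z * T.proj X i = f i • (S * T.proj X i) := by
    apply LinearMap.ext
    intro a
    change S (T.act z (T.proj X i a)) = f i • S (T.proj X i a)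
    rw [hzf i _ (T.proj_mem i a), map_smul]
  rw [h2, map_smul, smul_eq_mul]
  ring

theorem kunneth_deg {X : V} {i : ℕ} (hi : i ≤ 2 * T.dim X) :
    T.kunnethComponent X i ∈ T.deg (X ⊗ X) (2 * T.dim X) :=
  T.deg_of_eq (component_deg T.toCohomology _ _ _) (by omega)

/-- the class acting on `H^i` as multiplication by `f i` -/
theorem exists_diagonal {X : V} (f : ℕ → K) : ∃ z ∈ T.deg (X ⊗ X) (2 * T.dim X),
    ∀ i, ∀ a ∈ T.deg X i, T.act z a = f i • a := by
  refine ⟨∑ i ∈ Finset.range (2 * T.dim X + 1), f i • T.kunnethComponent X i, ?_, ?_⟩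
  · apply sum_mem
    intro i hi
    exact Submodule.smul_mem _ _ (kunneth_deg T (by rw [Finset.mem_range] at hi; omega))
  · intro i a ha
    rw [← T.actEquiv_apply, map_sum, LinearMap.sum_apply]
    by_cases hi : i ≤ 2 * T.dim X
    · rw [Finset.sum_eq_single i]
      · rw [map_smul, LinearMap.smul_apply, T.actEquiv_apply, T.act_kunneth hi, T.proj_same ha]
      · intro j hj hji
        rw [Finset.mem_range] at hj
        rw [map_smul, LinearMap.smul_apply, T.actEquiv_apply, T.act_kunneth (by omega),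
          T.proj_ne ha (Ne.symm hji), smul_zero]
      · intro h1
        exact absurd (Finset.mem_range.mpr (by omega)) h1
    · rw [T.deg_eq_zero ha (by omega)]
      simp

end Weil

end Pool.Std
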