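import Pool.Agent.Work.StdConj.Line

/-!
Regularity on `(P¹ × P¹ × X) × (P¹ × P¹ × X)` gives the Lefschetz standard conjecture for `X`.
-/

open CategoryTheory MonoidalCategory CartesianMonoidalCategory Polynomial

universe u v w x b

namespace Pool.Std

open Pool.KC

variable {V : Type u} [Category.{v} V] [CartesianMonoidalCategory V] {K : Type x} [Field K]
variable {T : WeilTheory.{u, v, w, x} V K} {R : Cyc T}

/-- projectors onto the degrees of a given parity -/
theorem Cyc.Sign.parity {Z : V} (hs : R.Sign Z) (p : ℕ) : ∃ z ∈ R.A (Z ⊗ Z) (T.dim Z),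
    (∀ i, Even (i + p) → ∀ a ∈ T.deg Z i, T.act z a = a) ∧
    ∀ i, Odd (i + p) → ∀ a ∈ T.deg Z i, T.act z a = 0 := by
  obtain ⟨z, hz, h0, h1⟩ := hs
  have hop : LinearMap.id - T.act z ∈ R.Op Z Z (T.dim Z) :=
    sub_mem (Cyc.Op_id Z) (Cyc.act_mem_Op hz)
  obtain ⟨y, hy, hya⟩ := hop
  rcases Nat.even_or_odd p with hp | hp
  · refine ⟨z, hz, ?_, ?_⟩
    · intro i hi a ha
      obtain ⟨j, rfl⟩ := (Nat.even_add.mp hi).mpr hp
      exact h0 j a (T.deg_of_eq ha (by omega))
    · intro i hi a ha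
      have h2 : Odd i := by
        rw [← Nat.not_even_iff_odd] at hi ⊢
        exact fun h => hi (h.add hp)
      obtain ⟨j, rfl⟩ := h2
      exact h1 j a ha
  · refine ⟨y, hy, ?_, ?_⟩
    · intro i hi a ha
      have h2 : Odd i := by
        rw [← Nat.not_even_iff_odd]
        intro h
        have := (Nat.even_add.mp hi).mp h
        exact (Nat.not_even_iff_odd.mpr hp) this
      obtain ⟨j, rfl⟩ := h2
      rw [hya, LinearMap.sub_apply, LinearMap.id_apply, h1 j a ha, sub_zero]
    · intro i hi a ha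
      have h2 : Even i := by
        by_contra h
        rw [Nat.not_even_iff_odd] at h
        exact (Nat.not_even_iff_odd.mpr hi) (h.add_odd hp)
      obtain ⟨j, rfl⟩ := h2
      rw [hya, LinearMap.sub_apply, LinearMap.id_apply, h0 j a (T.deg_of_eq ha (by omega)),
        sub_self]

/-- regularity gives divisibility -/
theorem Cyc.Reg.divide {X : V} {c : T.H X} (hX : 1 ≤ T.dim X) (h : R.Reg c) {j : ℕ} {ξ : T.H X}
    (hξ : ξ ∈ T.deg X (2 * j)) (ha : c * ξ ∈ R.A X (j + 1)) : ∃ e ∈ R.A X j, c * e = c * ξ := by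
  obtain ⟨g, hg, h0, _⟩ := h
  have h2 : T.act g (c * ξ) ∈ R.A X j := by
    apply R.act_mem hg ha
    omega
  exact ⟨_, h2, h0 j ξ hξ⟩

namespace Pl

variable {G : Pl.{u, v, w, x, b} R}

/-- an algebraic correspondence `y` of degree `-2` with `L y + y L = 1` on the cohomology in the
degrees not congruent to the dimension modulo two -/
theorem homotopy [CharZero K] {Z : V} (M : G.Bund Z) (hZ : 1 ≤ T.dim Z)
    (hreg : R.Reg (G.c (G.box M M))) (hs : R.Sign Z) : ∃ y ∈ R.A (Z ⊗ Z) (T.dim Z - 1),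
      ∀ (i : ℕ), Odd (i + T.dim Z) → ∀ a ∈ T.deg Z i,
        G.c M * T.act y a + T.act y (G.c M * a) = a := by
  obtain ⟨z, hz, h1, h0⟩ := hs.parity (T.dim Z + 1)
  have h1' : ∀ i, Odd (i + T.dim Z) → ∀ a ∈ T.deg Z i, T.act z a = a := by
    intro i hi a ha
    exact h1 i (by rw [← add_assoc]; exact hi.add_one) a ha
  have h0' : ∀ i, ¬ Odd (i + T.dim Z) → ∀ a ∈ T.deg Z i, T.act z a = 0 := by
    intro i hi a ha
    rw [Nat.not_odd_iff_even] at hi
    exact h0 i (by rw [← add_assoc]; exact hi.add_one) a ha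
  obtain ⟨y0, hy0, hy0z⟩ := exists_homotopy T (X := Z) hZ (G.c_deg M) (G.hard M)
    (ε := -1) (by ring) (f := fun i => if Odd (i + T.dim Z) then 1 else 0) (by
      intro i k hik
      have e1 : (-1 : K) ^ (i + 2 * k) = (-1) ^ i := by
        rw [pow_add, pow_mul]
        simp
      rcases Nat.even_or_odd k with hk | hk
      · have h2 : ¬ Odd (i + T.dim Z) := by
          rw [Nat.not_odd_iff_even, ← hik, ← add_assoc, ← two_mul]
          exact (even_two_mul i).add hk
        have h3 : ¬ Odd (i + 2 * k + T.dim Z) := by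
          rw [Nat.not_odd_iff_even] at h2 ⊢
          rw [show i + 2 * k + T.dim Z = (i + T.dim Z) + 2 * k by ring]
          exact h2.add (even_two_mul k)
        rw [if_neg h2, if_neg h3]
        ring
      · have h2 : Odd (i + T.dim Z) := by
          rw [← hik, ← add_assoc, ← two_mul]
          exact (even_two_mul i).add_odd hk
        have h3 : Odd (i + 2 * k + T.dim Z) := by
          rw [show i + 2 * k + T.dim Z = (i + T.dim Z) + 2 * k by ring]
          exact h2.add_even (even_two_mul k)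
        rw [if_pos h2, if_pos h3, e1, hk.neg_one_pow]
        ring) (R.deg hz) (by
      intro i a ha
      by_cases hi : Odd (i + T.dim Z)
      · rw [if_pos hi, one_smul]
        exact h1' i hi a ha
      · rw [if_neg hi, zero_smul]
        exact h0' i hi a ha)
  have hbox : T.pull (snd Z Z) (G.c M) - (-1 : K) • T.pull (fst Z Z) (G.c M) =
      G.c (G.box M M) := by
    rw [G.c_box, neg_one_smul, sub_neg_eq_add, add_comm]
  rw [hbox] at hy0z
  obtain ⟨y, hy, hyz⟩ := hreg.divide (by rw [T.dim_prod]; omega) hy0 (by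
    rw [hy0z]
    exact R.of_eq hz (by omega))
  refine ⟨y, hy, ?_⟩
  intro i hi a ha
  rw [hy0z] at hyz
  have h2 := h1' i hi a ha
  rw [← hyz, G.c_box, add_mul, T.act_add, LinearMap.add_apply, T.act_fst_mul,
    T.act_snd_mul (G.c_deg M), ← G.c_comm] at h2
  rw [add_comm]
  exact h2

/-- the operator obtained from an operator of `P¹ × X` -/
noncomputable def compress (G : Pl.{u, v, w, x, b} R) {X : V} (f : Module.End K (T.H (G.P1 ⊗ X))) :
    Module.End K (T.H X) :=
  T.push G.P1 X ∘ₗ f ∘ₗ LinearMap.mulLeft K (T.pull (fst G.P1 X) (G.c G.O1)) ∘ₗ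
    (T.pull (snd G.P1 X)).toLinearMap

theorem compress_apply {X : V} (f : Module.End K (T.H (G.P1 ⊗ X))) (a : T.H X) :
    G.compress f a = T.push G.P1 X (f (T.pull (fst G.P1 X) (G.c G.O1) *
      T.pull (snd G.P1 X) a)) := rfl

theorem compress_mem {X : V} (hX : 1 ≤ T.dim X) {f : Module.End K (T.H (G.P1 ⊗ X))}
    (hf : f ∈ R.Op (G.P1 ⊗ X) (G.P1 ⊗ X) (T.dim (G.P1 ⊗ X) - 1)) :
    G.compress f ∈ R.Op X X (T.dim X - 1) := by
  have hdim : T.dim (G.P1 ⊗ X) = T.dim X + 1 := by rw [T.dim_prod, G.P_dim]; omega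
  have hh : T.pull (fst G.P1 X) (G.c G.O1) ∈ R.A (G.P1 ⊗ X) 1 := R.pull _ (G.c_mem _)
  have e1 := Cyc.Op_comp (Cyc.Op_pull (R := R) (snd G.P1 X)) (Cyc.Op_mul hh)
    (t := T.dim X + 1) (by omega)
  have e2 := Cyc.Op_comp e1 hf (t := T.dim X) (by omega)
  exact Cyc.Op_comp e2 (Cyc.Op_push (R := R) G.P1 X) (by omega)

/-- `push (L w) = push (h w) + L (push w)` -/
theorem push_box {X : V} (M : G.Bund X) (w : T.H (G.P1 ⊗ X)) :
    T.push G.P1 X (G.c (G.box G.O1 M) * w) =
      T.push G.P1 X (T.pull (fst G.P1 X) (G.c G.O1) * w) + G.c M * T.push G.P1 X w := by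
  rw [G.c_box, add_mul, map_add, T.push_snd_mul]

theorem box_h {X : V} (M : G.Bund X) (a : T.H X) :
    G.c (G.box G.O1 M) * (T.pull (fst G.P1 X) (G.c G.O1) * T.pull (snd G.P1 X) a) =
      T.pull (fst G.P1 X) (G.c G.O1) * T.pull (snd G.P1 X) (G.c M * a) := by
  rw [box_mul', G.P_sq, map_zero, zero_mul, zero_add]

theorem push_h {X : V} (a : T.H X) :
    T.push G.P1 X (T.pull (fst G.P1 X) (G.c G.O1) * T.pull (snd G.P1 X) a) = a := by
  rw [T.push_pure, G.P_tr, one_smul]

/-- the relation `L² D + 2 L D L + D L² = 2 L` -/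
theorem compress_rel {X : V} (M : G.Bund X) {y : Module.End K (T.H (G.P1 ⊗ X))}
    (hrel : ∀ (i : ℕ), Odd (i + T.dim (G.P1 ⊗ X)) → ∀ a ∈ T.deg (G.P1 ⊗ X) i,
      G.c (G.box G.O1 M) * y a + y (G.c (G.box G.O1 M) * a) = a)
    {i : ℕ} (hi : Even (i + T.dim X)) {a : T.H X} (ha : a ∈ T.deg X i) :
    G.c M * (G.c M * G.compress y a) + (2 : K) • (G.c M * G.compress y (G.c M * a)) +
      G.compress y (G.c M * (G.c M * a)) = (2 : K) • (G.c M * a) := by
  have hdim : T.dim (G.P1 ⊗ X) = T.dim X + 1 := by rw [T.dim_prod, G.P_dim]; omega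
  set h := T.pull (fst G.P1 X) (G.c G.O1) with hh
  have hhh : h * h = 0 := by rw [hh, ← map_mul, G.P_sq, map_zero]
  set C : T.H X → T.H X := fun a => T.push G.P1 X (h * y (h * T.pull (snd G.P1 X) a)) with hC
  have key : ∀ j, Even (j + T.dim X) → ∀ e ∈ T.deg X j,
      C e + G.c M * G.compress y e + G.compress y (G.c M * e) = e ∧
      G.c M * C e + C (G.c M * e) = 0 := by
    intro j hj e he
    have he' : h * T.pull (snd G.P1 X) e ∈ T.deg (G.P1 ⊗ X) (2 * 1 + j) :=
      T.mul_deg (T.fst_deg (G.c_deg G.O1)) (T.snd_deg he)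
    have hodd : Odd (2 * 1 + j + T.dim (G.P1 ⊗ X)) := by
      rw [hdim, show 2 * 1 + j + (T.dim X + 1) = (j + T.dim X) + 2 * 1 + 1 by ring]
      exact (hj.add (even_two_mul 1)).add_one
    have h1 := hrel _ hodd _ he'
    rw [box_h] at h1
    constructor
    · have h2 := congrArg (T.push G.P1 X) h1
      rw [map_add, push_box, push_h] at h2
      exact h2
    · have h2 := congrArg (fun w => T.push G.P1 X (h * w)) h1
      rw [mul_add, map_add, ← mul_assoc h h, hhh, zero_mul, map_zero, ← mul_assoc h,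
        ← G.c_comm, mul_assoc, push_box, ← mul_assoc h h, hhh, zero_mul, map_zero, zero_add] at h2
      exact h2
  obtain ⟨h1, h2⟩ := key i hi a ha
  have hca : G.c M * a ∈ T.deg X (i + 2) :=
    T.deg_of_eq (T.mul_deg (G.c_deg M) ha) (by omega)
  obtain ⟨h3, _⟩ := key (i + 2) (by
    rw [show i + 2 + T.dim X = (i + T.dim X) + 2 * 1 by ring]
    exact hi.add (even_two_mul 1)) _ hca
  have h4 := congrArg (fun w => G.c M * w) h1
  rw [mul_add, mul_add] at h4
  calc G.c M * (G.c M * G.compress y a) + (2 : K) • (G.c M * G.compress y (G.c M * a)) +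
      G.compress y (G.c M * (G.c M * a)) =
      (G.c M * C a + G.c M * (G.c M * G.compress y a) + G.c M * G.compress y (G.c M * a)) +
      (C (G.c M * a) + G.c M * G.compress y (G.c M * a) + G.compress y (G.c M * (G.c M * a))) -
      (G.c M * C a + C (G.c M * a)) := by
        rw [two_smul]
        abel
    _ = (2 : K) • (G.c M * a) := by
        rw [h4, h3, h2, two_smul, sub_zero]

end Pl

end Pool.Std
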