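import Pool.Agent.Work.MP_a60482_sl.Middle
import Pool.Agent.Work.StdConj.Cyc

/-!
A very general hypersurface section `Y` of `X`, `dim X = 2 m`, satisfying the sign conjecture:
an algebraic class of `X` which is a multiple of the hyperplane class in cohomology is a
multiple of it in algebraic classes.
-/

open CategoryTheory MonoidalCategory CartesianMonoidalCategory

universe u v w x b

namespace Pool.Std

open Pool.KC Pool.SL

variable {V : Type u} [Category.{v} V] [CartesianMonoidalCategory V] {K : Type x} [Field K]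
variable {T : WeilTheory.{u, v, w, x} V K} (R : Cyc T)

/-- the sign conjecture -/
def Cyc.Sign (X : V) : Prop :=
  ∃ z ∈ R.A (X ⊗ X) (T.dim X), (∀ (i : ℕ), ∀ a ∈ T.deg X (2 * i), T.act z a = a) ∧
    ∀ (i : ℕ), ∀ a ∈ T.deg X (2 * i + 1), T.act z a = 0

/-- Data of a very general smooth hyperplane section. -/
structure Sect {X : V} (c : T.H X) where
  Y : V
  i : Y ⟶ X
  r : ℚ
  r_ne : (r : K) ≠ 0
  dim : T.dim Y + 1 = T.dim X
  tr : ∀ a, T.tr Y (T.pull i a) = (r : K) * T.tr X (a * c)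
  weak : ∀ j < T.dim Y, ∀ y ∈ T.deg Y j, ∃ a ∈ T.deg X j, T.pull i a = y
  hard : ∀ j k, j + k = T.dim Y → ∀ y ∈ T.deg Y (j + 2 * k),
    ∃ e ∈ T.deg Y j, T.pull i c ^ k * e = y
  v : T.H Y
  v_mem : v ∈ T.deg Y (T.dim Y)
  v_ne : v ≠ 0
  v_orth : ∀ a, T.tr Y (v * T.pull i a) = 0
  spread : ∀ z ∈ R.A (Y ⊗ Y) (T.dim Y),
    (∃ g ∈ T.deg (X ⊗ X) (2 * T.dim Y), ∃ s : K, z = T.pull (sq i) g + s • T.diag Y) →
    ∃ g ∈ R.A (X ⊗ X) (T.dim Y), ∃ s : K, z = T.pull (sq i) g + s • T.diag Y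

variable {R}

theorem Sect.res {X : V} {c : T.H X} (hc : c ∈ R.A X 1) {m : ℕ} (hX : T.dim X = 2 * m)
    (S : Sect R c) (j : ℕ) :
    ∀ y ∈ T.deg S.Y (2 * j), ∃ a ∈ T.deg X (2 * j), T.pull S.i a = y := by
  intro y hy
  have hd := S.dim
  rcases Nat.lt_or_ge (T.dim S.Y) j with h0 | h0
  · exact ⟨0, zero_mem _, by rw [map_zero, T.deg_eq_zero hy (by omega)]⟩
  rcases Nat.lt_or_ge (2 * j) (T.dim S.Y) with h1 | h1
  · exact S.weak _ h1 y hy
  · obtain ⟨e, he, hey⟩ := S.hard (2 * (T.dim S.Y - j)) (2 * j - T.dim S.Y) (by omega) y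
      (T.deg_of_eq hy (by omega))
    obtain ⟨a, ha, hae⟩ := S.weak _ (by omega) e he
    refine ⟨c ^ (2 * j - T.dim S.Y) * a, ?_, ?_⟩
    · exact T.deg_of_eq (T.mul_deg (R.deg (R.pow hc _)) ha) (by omega)
    · rw [map_mul, map_pow, hae, hey]

/-- the sign conjecture for a very general hyperplane section `Y` gives a quasi-inverse of
`L` on the even cohomology of `X` -/
theorem Sect.regular {X : V} {c : T.H X} (hc : c ∈ R.A X 1) {m : ℕ} (hm : 1 ≤ m)
    (hX : T.dim X = 2 * m) (S : Sect R c) (hsign : R.Sign S.Y) :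
    ∃ g ∈ R.A (X ⊗ X) (T.dim X - 1), ∀ (j : ℕ), ∀ a ∈ T.deg X (2 * j),
      c * T.act g (c * a) = c * a := by
  have hd := S.dim
  obtain ⟨z, hz, heven, hodd⟩ := hsign
  obtain ⟨g0, hg0, hg0z⟩ := exists_of_even (S.res hc hX) (R.deg hz) hodd
  obtain ⟨g, hg, s, hgz⟩ := S.spread z hz ⟨g0, hg0, 0, by rw [zero_smul, add_zero, hg0z]⟩
  have hs : s = 0 := by
    have h1 : T.act z S.v = 0 := hodd (m - 1) _ (T.deg_of_eq S.v_mem (by omega))
    rw [hgz, T.act_add, T.act_smul, LinearMap.add_apply, LinearMap.smul_apply,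
      act_sq_van S.i g S.v_orth, zero_add, T.act_diag, LinearMap.id_apply] at h1
    exact (smul_eq_zero.mp h1).resolve_right S.v_ne
  rw [hs, zero_smul, add_zero] at hgz
  have hcC : c ∈ T.C X 1 := R.le hc
  refine ⟨(S.r : K) • g, R.smul _ (R.of_eq hg (by omega)), ?_⟩
  intro j ξ hξ
  have h2 : T.pull S.i ξ = (S.r : K) • T.pull S.i (T.act g (c * ξ)) := by
    have h3 := act_sq_pull S.i hcC S.tr g ξ
    rw [← T.even_comm (R.deg hc) ξ, ← hgz, heven j _ (T.pull_deg _ hξ)] at h3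
    exact h3
  rw [T.act_smul, LinearMap.smul_apply, ← sub_eq_zero]
  apply T.nondeg
  intro b
  have h4 : (S.r : K) * T.tr X (b * (c * ((S.r : K) • T.act g (c * ξ) - ξ))) = 0 := by
    have h5 := S.tr (b * ((S.r : K) • T.act g (c * ξ) - ξ))
    rw [map_mul, map_sub, map_smul, ← h2, sub_self, mul_zero, map_zero] at h5
    rw [T.even_comm (R.deg hc) ((S.r : K) • T.act g (c * ξ) - ξ), ← mul_assoc, ← h5]
  rw [← mul_sub]
  exact (mul_eq_zero.mp h4).resolve_left S.r_ne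

/-- an algebraic class which is a multiple of `c` is `c` times an algebraic class -/
theorem Sect.divide {X : V} {c : T.H X} (hc : c ∈ R.A X 1) {m : ℕ} (hm : 1 ≤ m)
    (hX : T.dim X = 2 * m) (S : Sect R c) (hsign : R.Sign S.Y) {j : ℕ} {ξ : T.H X}
    (hξ : ξ ∈ T.deg X (2 * j)) (ha : c * ξ ∈ R.A X (j + 1)) : ∃ e ∈ R.A X j, c * e = c * ξ := by
  obtain ⟨g, hg, h⟩ := S.regular hc hm hX hsign
  exact ⟨_, R.act_mem hg ha (by omega), h j ξ hξ⟩

end Pool.Std
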