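import Pool.Agent.Work.StdConj.Dual
import Pool.Agent.Work.StdConj.Sect

/-!
Hard Lefschetz; the operator `Λ` of the `sl2`-triple.
-/

open CategoryTheory MonoidalCategory CartesianMonoidalCategory
open scoped TensorProduct

universe u v w x b

namespace Pool.Std

open Pool.KC

variable {V : Type u} [Category.{v} V] [CartesianMonoidalCategory V] {K : Type x} [Field K]
variable {T : WeilTheory.{u, v, w, x} V K} {R : Cyc T}

namespace Pl

variable (G : Pl.{u, v, w, x, b} R)

theorem hard {X : V} (M : G.Bund X) : Hard T.toCohomology (G.c M) :=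
  ⟨fun hik a ha => G.hard_inj M hik a ha, fun hik a ha => G.hard_surj M hik a ha⟩

/-- an operator `Λ` with `[L, Λ] = i - n` -/
structure IsLam {X : V} (M : G.Bund X) (lam : Module.End K (T.H X)) : Prop where
  zero : ∀ i < 2, ∀ a ∈ T.deg X i, lam a = 0
  deg : ∀ (i : ℕ), ∀ a ∈ T.deg X (i + 2), lam a ∈ T.deg X i
  comm : ∀ (i : ℕ), ∀ a ∈ T.deg X i,
    G.c M * lam a - lam (G.c M * a) = ((i : K) - T.dim X) • a

variable {G}

theorem IsLam.comm_pow {X : V} {M : G.Bund X}
    {lam : Module.End K (T.H X)} (h : G.IsLam M lam) (k : ℕ) {i : ℕ} {a : T.H X}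
    (ha : a ∈ T.deg X i) : G.c M ^ (k + 1) * lam a - lam (G.c M ^ (k + 1) * a) =
      (((k : K) + 1) * ((i : K) - T.dim X + k)) • (G.c M ^ k * a) := by
  induction k with
  | zero =>
    rw [zero_add, pow_one, h.comm i a ha, pow_zero, one_mul]
    simp
  | succ k ih =>
    have h1 : G.c M ^ (k + 1) * a ∈ T.deg X (i + 2 * (k + 1)) :=
      T.deg_of_eq (T.mul_deg (G.c_pow_deg M (k + 1)) ha) (by omega)
    have h2 := h.comm _ _ h1
    have h3 : G.c M ^ (k + 1 + 1) * lam a = G.c M * (G.c M ^ (k + 1) * lam a) := by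
      rw [pow_succ' _ (k + 1), mul_assoc]
    have h4 : G.c M ^ (k + 1 + 1) * a = G.c M * (G.c M ^ (k + 1) * a) := by
      rw [pow_succ' _ (k + 1), mul_assoc]
    have h5 : G.c M * (G.c M ^ k * a) = G.c M ^ (k + 1) * a := by
      rw [pow_succ' _ k, mul_assoc]
    rw [h3, h4, eq_add_of_sub_eq ih, mul_add, mul_smul_comm, h5, add_sub_assoc, h2, ← add_smul]
    congr 1
    push_cast
    ring

variable (G)

/-- the operator `Λ` of the `sl2`-triple is algebraic -/
def Lef {X : V} (M : G.Bund X) : Prop :=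
  ∃ z ∈ R.A (X ⊗ X) (T.dim X - 1), G.IsLam M (T.act z)

end Pl

end Pool.Std
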