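import Pool.Agent.Work.StdConj.Op

/-!
Products with projective lines.
-/

open CategoryTheory MonoidalCategory CartesianMonoidalCategory

universe u v w x b

namespace Pool.Std

open Pool.KC

variable {V : Type u} [Category.{v} V] [CartesianMonoidalCategory V] {K : Type x} [Field K]
variable {T : WeilTheory.{u, v, w, x} V K} {R : Cyc T}

namespace Pl

variable {G : Pl.{u, v, w, x, b} R}

theorem box_sub : (T.pull (fst G.P1 G.P1) (G.c G.O1) - T.pull (snd G.P1 G.P1) (G.c G.O1)) *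
    G.c (G.box G.O1 G.O1) = 0 := by
  have h1 : T.pull (fst G.P1 G.P1) (G.c G.O1) * T.pull (fst G.P1 G.P1) (G.c G.O1) = 0 := by
    rw [← map_mul, G.P_sq, map_zero]
  have h2 : T.pull (snd G.P1 G.P1) (G.c G.O1) * T.pull (snd G.P1 G.P1) (G.c G.O1) = 0 := by
    rw [← map_mul, G.P_sq, map_zero]
  have h3 := T.even_comm (T.snd_deg (X := G.P1) (G.c_deg G.O1))
    (T.pull (fst G.P1 G.P1) (G.c G.O1))
  rw [G.c_box, sub_mul, mul_add, mul_add, h1, h2, h3]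
  abel

theorem tr_sub_sq : T.tr (G.P1 ⊗ G.P1)
    ((T.pull (fst G.P1 G.P1) (G.c G.O1) - T.pull (snd G.P1 G.P1) (G.c G.O1)) *
      (T.pull (fst G.P1 G.P1) (G.c G.O1) - T.pull (snd G.P1 G.P1) (G.c G.O1))) = -2 := by
  have h1 : T.pull (fst G.P1 G.P1) (G.c G.O1) * T.pull (fst G.P1 G.P1) (G.c G.O1) = 0 := by
    rw [← map_mul, G.P_sq, map_zero]
  have h2 : T.pull (snd G.P1 G.P1) (G.c G.O1) * T.pull (snd G.P1 G.P1) (G.c G.O1) = 0 := by
    rw [← map_mul, G.P_sq, map_zero]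
  have h3 := T.even_comm (T.snd_deg (X := G.P1) (G.c_deg G.O1))
    (T.pull (fst G.P1 G.P1) (G.c G.O1))
  rw [sub_mul, mul_sub, mul_sub, h1, h2, h3, zero_sub, sub_zero, map_sub, map_neg, T.tr_prod,
    G.P_tr]
  ring

/-- regularity on `(P¹ × P¹) × U` gives regularity on `U` -/
theorem reg_of_lines [CharZero K] {U : V} (N : G.Bund U) (hU : 1 ≤ T.dim U)
    (h : R.Reg (G.c (G.box (G.box G.O1 G.O1) N))) : R.Reg (G.c N) := by
  set δ : T.H (G.P1 ⊗ G.P1) :=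
    T.pull (fst G.P1 G.P1) (G.c G.O1) - T.pull (snd G.P1 G.P1) (G.c G.O1) with hδ
  have hδA : δ ∈ R.A (G.P1 ⊗ G.P1) 1 := sub_mem (R.pull _ (G.c_mem _)) (R.pull _ (G.c_mem _))
  have hδ0 : δ * G.c (G.box G.O1 G.O1) = 0 := box_sub
  have hδ0' : G.c (G.box G.O1 G.O1) * δ = 0 := by rw [G.c_comm, hδ0]
  have hδ2 : T.tr (G.P1 ⊗ G.P1) (δ * δ) = -2 := tr_sub_sq
  have hdim : T.dim ((G.P1 ⊗ G.P1) ⊗ U) = T.dim U + 2 := by
    rw [T.dim_prod, T.dim_prod, G.P_dim]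
    omega
  have hδ1 : T.pull (fst (G.P1 ⊗ G.P1) U) δ ∈ R.A ((G.P1 ⊗ G.P1) ⊗ U) 1 := R.pull _ hδA
  refine Cyc.Reg.transfer
    (α := LinearMap.mulLeft K (T.pull (fst (G.P1 ⊗ G.P1) U) δ) ∘ₗ
      (T.pull (snd (G.P1 ⊗ G.P1) U)).toLinearMap)
    (β := (((-1 / 2 : ℚ) : ℚ) : K) • (T.push (G.P1 ⊗ G.P1) U ∘ₗ
      LinearMap.mulLeft K (T.pull (fst (G.P1 ⊗ G.P1) U) δ)))
    (a := T.dim U + 1) (b := T.dim U + 1) (t := 1)
    (Cyc.Op_comp (Cyc.Op_pull _) (Cyc.Op_mul hδ1) (by omega))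
    (Cyc.Op_smul _ (Cyc.Op_comp (Cyc.Op_mul hδ1) (Cyc.Op_push _ _) (by omega)))
    ?_ ?_ ?_ rfl (by omega) hU (by omega) h
  · intro y
    change T.pull (fst _ _) δ * T.pull (snd _ _) (G.c N * y) =
      G.c (G.box (G.box G.O1 G.O1) N) * (T.pull (fst _ _) δ * T.pull (snd _ _) y)
    rw [box_mul', hδ0', map_zero, zero_mul, zero_add]
  · intro y
    change ((-1 / 2 : ℚ) : K) • T.push (G.P1 ⊗ G.P1) U (T.pull (fst _ _) δ *
      (G.c (G.box (G.box G.O1 G.O1) N) * y)) =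
      G.c N * (((-1 / 2 : ℚ) : K) • T.push (G.P1 ⊗ G.P1) U (T.pull (fst _ _) δ * y))
    have h1 : T.pull (fst (G.P1 ⊗ G.P1) U) δ * G.c (G.box (G.box G.O1 G.O1) N) =
        T.pull (snd (G.P1 ⊗ G.P1) U) (G.c N) * T.pull (fst (G.P1 ⊗ G.P1) U) δ := by
      rw [G.c_box, mul_add, ← map_mul, hδ0, map_zero, zero_add,
        T.even_comm (T.snd_deg (X := G.P1 ⊗ G.P1) (G.c_deg N))]
    rw [← mul_assoc, h1, mul_assoc, T.push_snd_mul, mul_smul_comm]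
  · intro y
    change ((-1 / 2 : ℚ) : K) • T.push (G.P1 ⊗ G.P1) U (T.pull (fst _ _) δ *
      (T.pull (fst _ _) δ * T.pull (snd _ _) y)) = y
    rw [← mul_assoc, ← map_mul, T.push_pure, hδ2, smul_smul]
    push_cast
    rw [show (-1 / 2 : K) * -2 = 1 by norm_num, one_smul]

/-- `(P¹ × Z) × (P¹ × Z)` and `(P¹ × P¹) × (Z × Z)` -/
theorem reg_square [CharZero K] {Z : V} (N : G.Bund Z) (hZ : 1 ≤ T.dim Z)
    (h : R.Reg (G.c (G.box (G.box G.O1 N) (G.box G.O1 N)))) :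
    R.Reg (G.c (G.box N N)) := by
  apply reg_of_lines (G := G) (G.box N N) (by rw [T.dim_prod]; omega)
  refine Cyc.Reg.iso
    (lift (lift (fst (G.P1 ⊗ Z) (G.P1 ⊗ Z) ≫ fst G.P1 Z) (snd (G.P1 ⊗ Z) (G.P1 ⊗ Z) ≫ fst G.P1 Z))
      (lift (fst (G.P1 ⊗ Z) (G.P1 ⊗ Z) ≫ snd G.P1 Z) (snd (G.P1 ⊗ Z) (G.P1 ⊗ Z) ≫ snd G.P1 Z)))
    (lift (lift (fst (G.P1 ⊗ G.P1) (Z ⊗ Z) ≫ fst G.P1 G.P1)
        (snd (G.P1 ⊗ G.P1) (Z ⊗ Z) ≫ fst Z Z))
      (lift (fst (G.P1 ⊗ G.P1) (Z ⊗ Z) ≫ snd G.P1 G.P1)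
        (snd (G.P1 ⊗ G.P1) (Z ⊗ Z) ≫ snd Z Z)))
    (by ext <;> simp) ?_ ?_ ?_ h
  · simp only [G.c_box, map_add, T.pull_comp', lift_fst, lift_snd, lift_fst_assoc, lift_snd_assoc]
    abel
  · simp only [T.dim_prod]
    omega
  · rw [T.dim_prod, T.dim_prod, G.P_dim]
    omega

/-- `(P¹ × Z) × Y` and `P¹ × (Z × Y)` -/
theorem reg_assoc {Z Y : V} (N : G.Bund Z) (M : G.Bund Y)
    (h : R.Reg (G.c (G.box (G.box G.O1 N) M))) :
    R.Reg (G.c (G.box G.O1 (G.box N M))) := by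
  refine Cyc.Reg.iso
    (lift (fst (G.P1 ⊗ Z) Y ≫ fst G.P1 Z)
      (lift (fst (G.P1 ⊗ Z) Y ≫ snd G.P1 Z) (snd (G.P1 ⊗ Z) Y)))
    (lift (lift (fst G.P1 (Z ⊗ Y)) (snd G.P1 (Z ⊗ Y) ≫ fst Z Y))
      (snd G.P1 (Z ⊗ Y) ≫ snd Z Y))
    (by ext <;> simp) ?_ ?_ ?_ h
  · simp only [G.c_box, map_add, T.pull_comp', lift_fst, lift_snd, lift_fst_assoc, lift_snd_assoc]
    abel
  · simp only [T.dim_prod]
    omega
  · rw [T.dim_prod, G.P_dim]
    omega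

/-- regularity on `P¹ × Z` gives the sign conjecture for `Z` -/
theorem sign_of_reg_line {Z : V} (N : G.Bund Z) (h : R.Reg (G.c (G.box G.O1 N))) :
    R.Sign Z := by
  obtain ⟨g, hg, h0, h1⟩ := h
  have hdim : T.dim (G.P1 ⊗ Z) = T.dim Z + 1 := by rw [T.dim_prod, G.P_dim]; omega
  have hpush : ∀ a : T.H Z, T.push G.P1 Z (G.c (G.box G.O1 N) * T.pull (snd G.P1 Z) a) = a := by
    intro a
    have h2 := box_mul' G.O1 N (1 : T.H G.P1) a
    rw [map_one, one_mul, mul_one] at h2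
    rw [h2, map_add, T.push_pure]
    have h3 := T.push_pure (1 : T.H G.P1) (G.c N * a)
    rw [map_one] at h3
    rw [h3, G.P_tr, G.P_tr_one, one_smul, zero_smul, add_zero]
  have hop : T.push G.P1 Z ∘ₗ LinearMap.mulLeft K (G.c (G.box G.O1 N)) ∘ₗ T.act g ∘ₗ
      LinearMap.mulLeft K (G.c (G.box G.O1 N)) ∘ₗ (T.pull (snd G.P1 Z)).toLinearMap ∈
      R.Op Z Z (T.dim Z) := by
    have e1 := Cyc.Op_comp (Cyc.Op_pull (R := R) (snd G.P1 Z)) (Cyc.Op_mul (G.c_mem (G.box G.O1 N)))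
      (t := T.dim Z + 1) (by omega)
    have e2 := Cyc.Op_comp e1 (Cyc.act_mem_Op hg) (t := T.dim Z) (by omega)
    have e3 := Cyc.Op_comp e2 (Cyc.Op_mul (G.c_mem (G.box G.O1 N))) (t := T.dim Z + 1) (by omega)
    exact Cyc.Op_comp e3 (Cyc.Op_push (R := R) G.P1 Z) (by omega)
  obtain ⟨z, hz, hza⟩ := hop
  have hval : ∀ a, T.act z a = T.push G.P1 Z (G.c (G.box G.O1 N) *
      T.act g (G.c (G.box G.O1 N) * T.pull (snd G.P1 Z) a)) := fun a => by rw [hza]; rfl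
  refine ⟨z, hz, ?_, ?_⟩
  · intro i a ha
    rw [hval, h0 i _ (T.pull_deg _ ha), hpush]
  · intro i a ha
    rw [hval, h1 i _ (T.pull_deg _ ha), map_zero]

/-- the sign conjecture for `P¹ × Z` gives it for `Z` -/
theorem sign_of_sign_line {Z : V} (h : R.Sign (G.P1 ⊗ Z)) : R.Sign Z := by
  obtain ⟨g, hg, h0, h1⟩ := h
  have hdim : T.dim (G.P1 ⊗ Z) = T.dim Z + 1 := by rw [T.dim_prod, G.P_dim]; omega
  have hh : T.pull (fst G.P1 Z) (G.c G.O1) ∈ R.A (G.P1 ⊗ Z) 1 := R.pull _ (G.c_mem _)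
  have hop : T.push G.P1 Z ∘ₗ LinearMap.mulLeft K (T.pull (fst G.P1 Z) (G.c G.O1)) ∘ₗ
      T.act g ∘ₗ (T.pull (snd G.P1 Z)).toLinearMap ∈ R.Op Z Z (T.dim Z) := by
    have e1 := Cyc.Op_comp (Cyc.Op_pull (R := R) (snd G.P1 Z)) (Cyc.act_mem_Op hg)
      (t := T.dim Z) (by omega)
    have e2 := Cyc.Op_comp e1 (Cyc.Op_mul hh) (t := T.dim Z + 1) (by omega)
    exact Cyc.Op_comp e2 (Cyc.Op_push (R := R) G.P1 Z) (by omega)
  obtain ⟨z, hz, hza⟩ := hop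
  have hval : ∀ a, T.act z a = T.push G.P1 Z (T.pull (fst G.P1 Z) (G.c G.O1) *
      T.act g (T.pull (snd G.P1 Z) a)) := fun a => by rw [hza]; rfl
  refine ⟨z, hz, ?_, ?_⟩
  · intro i a ha
    rw [hval, h0 i _ (T.pull_deg _ ha), T.push_pure, G.P_tr, one_smul]
  · intro i a ha
    rw [hval, h1 i _ (T.pull_deg _ ha), mul_zero, map_zero]

/-- the standard conjecture for the projective line -/
theorem lef_line [CharZero K] (hspan : ∀ a : T.H G.P1, ∃ s t : K, a = s • 1 + t • G.c G.O1) :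
    G.Lef G.O1 := by
  have hdim := G.P_dim
  set h := G.c G.O1 with hh
  have hact : ∀ a : T.H G.P1, T.act (1 : T.H (G.P1 ⊗ G.P1)) a = T.tr G.P1 a • 1 := by
    intro a
    have := T.act_pure (1 : T.H G.P1) (1 : T.H G.P1) a
    rwa [map_one, map_one, mul_one, mul_one] at this
  have hmem : (1 : T.H (G.P1 ⊗ G.P1)) ∈ R.A (G.P1 ⊗ G.P1) (T.dim G.P1 - 1) := by
    rw [hdim]
    exact R.one _
  refine ⟨1, hmem, isLam_of_comm (by omega) (R.deg hmem) ?_⟩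
  have key : ∀ a : T.H G.P1, h * T.act (1 : T.H (G.P1 ⊗ G.P1)) a -
      T.act (1 : T.H (G.P1 ⊗ G.P1)) (h * a) =
        ∑ i ∈ Finset.range 3, ((i : K) - 1) • T.proj G.P1 i a := by
    intro a
    obtain ⟨s, t, ha⟩ := hspan a
    subst ha
    have e0 : (1 : T.H G.P1) ∈ T.deg G.P1 0 := T.one_deg
    have e2 : h ∈ T.deg G.P1 2 := G.c_deg G.O1
    have e3 : h * h = 0 := G.P_sq
    have e4 : h * (s • (1 : T.H G.P1) + t • h) = s • h := by
      have e5 : h * (t • h) = t • (h * h) := mul_smul_comm _ _ _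
      rw [mul_add, e5, e3, smul_zero, add_zero, mul_smul_comm, mul_one]
    have e6 : T.tr G.P1 (s • (1 : T.H G.P1) + t • h) = t := by
      rw [map_add, map_smul, map_smul, G.P_tr_one, G.P_tr, smul_zero, zero_add, smul_eq_mul,
        mul_one]
    have e7 : T.tr G.P1 (s • h) = s := by
      rw [map_smul, G.P_tr, smul_eq_mul, mul_one]
    have e8 : h * (t • (1 : T.H G.P1)) = t • h := by rw [mul_smul_comm, mul_one]
    rw [hact, hact, e4, e6, e7, e8]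
    simp only [Finset.sum_range_succ, Finset.sum_range_zero, map_add, map_smul, T.proj_same e0,
      T.proj_ne e0 (show 0 ≠ 1 by omega), T.proj_ne e0 (show 0 ≠ 2 by omega),
      T.proj_ne e2 (show 2 ≠ 0 by omega), T.proj_ne e2 (show 2 ≠ 1 by omega), T.proj_same e2]
    push_cast
    module
  intro i a ha
  rw [key, hdim]
  simp only [Finset.sum_range_succ, Finset.sum_range_zero, zero_add]
  rcases Nat.lt_or_ge 2 i with hi | hi
  · rw [T.deg_eq_zero ha (by omega)]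
    simp
  · interval_cases i
    · rw [T.proj_same ha, T.proj_ne ha (show 0 ≠ 1 by omega), T.proj_ne ha (show 0 ≠ 2 by omega)]
      simp
    · rw [T.proj_same ha, T.proj_ne ha (show 1 ≠ 0 by omega), T.proj_ne ha (show 1 ≠ 2 by omega)]
      simp
    · rw [T.proj_same ha, T.proj_ne ha (show 2 ≠ 0 by omega), T.proj_ne ha (show 2 ≠ 1 by omega)]
      simp

end Pl

end Pool.Std
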