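import Pool.Agent.Work.StdConj.Strings

/-!
Regularity on `(P¹ × P¹ × X) × (P¹ × P¹ × X)` gives the Lefschetz standard conjecture for `X`.
-/

open CategoryTheory MonoidalCategory CartesianMonoidalCategory

universe u v w x b

namespace Pool.Std

open Pool.KC

variable {V : Type u} [Category.{v} V] [CartesianMonoidalCategory V] {K : Type x} [Field K]
variable {T : WeilTheory.{u, v, w, x} V K} {R : Cyc T}

namespace Pl

variable (G : Pl.{u, v, w, x, b} R)

/-- the operator `Λ` in the degrees `i` with `i + p` even -/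
def HalfLam {X : V} (M : G.Bund X) (p : ℕ) : Prop :=
  ∃ z ∈ R.Op X X (T.dim X - 1), ∀ (i : ℕ) (y : T.H X), Even (i + p) → G.Prim M i y → z y = 0 ∧
    ∀ j : ℕ, i + (j + 1) ≤ T.dim X → z (G.c M ^ (j + 1) * y) = G.c M ^ j * y

variable {G}

theorem half_even [CharZero K] {X : V} (M : G.Bund X) (hX : 1 ≤ T.dim X)
    (hreg : R.Reg (G.c (G.box (G.box G.O1 M) (G.box G.O1 M)))) (hs : R.Sign (G.P1 ⊗ X)) :
    G.HalfLam M (T.dim X) := by
  have hdim : T.dim (G.P1 ⊗ X) = T.dim X + 1 := by rw [T.dim_prod, G.P_dim]; omega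
  obtain ⟨y, hy, hrel⟩ := homotopy (G.box G.O1 M) (by omega) hreg hs
  refine clean hX (compress_mem hX (Cyc.act_mem_Op hy)) (fun i => Even (i + T.dim X))
    (fun i j => (if Even j then 1 else 0 : ℚ) - ((j : ℚ) + 1) * (-1) ^ j /
      ((T.dim X - i : ℕ) + 1)) ?_
  intro i a hi ha
  obtain ⟨h0, h1⟩ := string hX (compress_mem hX (Cyc.act_mem_Op hy))
    (fun i hi a ha => compress_rel M hrel hi ha) hi ha
  refine ⟨h0, ?_⟩
  intro j hj
  constructor
  · obtain ⟨k, hk⟩ : ∃ k, T.dim X = i + k := ⟨T.dim X - i, by omega⟩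
    rw [show T.dim X - i = k by omega]
    have hk0 : ((k : ℚ) + 1) ≠ 0 := by positivity
    rcases Nat.even_or_odd j with h | h
    · rw [if_pos h, h.neg_one_pow, mul_one, Ne, sub_eq_zero]
      intro h2
      rw [eq_div_iff hk0, one_mul] at h2
      have h3 : k = j := by
        have : (k : ℚ) = j := by linarith
        exact_mod_cast this
      omega
    · rw [if_neg (by rw [Nat.not_even_iff_odd]; exact h), h.neg_one_pow, zero_sub, Ne,
        neg_eq_zero, div_eq_zero_iff]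
      rintro (h2 | h2)
      · have h3 : (0 : ℚ) < (j : ℚ) + 1 := by positivity
        linarith
      · exact hk0 h2
  · rw [h1 j]
    congr 1
    by_cases h : Even j
    · simp [h]
    · simp [h]

/-- powers of the polarization of `P¹ × X` -/
theorem line_pow {X : V} (M : G.Bund X) (y : T.H X) (j : ℕ) :
    G.c (G.box G.O1 M) ^ j * T.pull (snd G.P1 X) (G.c M * y) =
      T.pull (snd G.P1 X) (G.c M ^ (j + 1) * y) + (j : K) •
        (T.pull (fst G.P1 X) (G.c G.O1) * T.pull (snd G.P1 X) (G.c M ^ j * y)) := by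
  induction j with
  | zero => simp
  | succ j ih =>
    rw [pow_succ', mul_assoc, ih, mul_add, mul_smul_comm, box_h, ← mul_assoc (G.c M), ← pow_succ']
    have h1 := box_mul' G.O1 M (1 : T.H G.P1) (G.c M ^ (j + 1) * y)
    rw [map_one, one_mul, mul_one, one_mul, ← mul_assoc (G.c M), ← pow_succ'] at h1
    rw [h1]
    push_cast
    module

theorem line_pow' {X : V} (M : G.Bund X) (y : T.H X) (j : ℕ) :
    G.c (G.box G.O1 M) ^ j *
      (T.pull (fst G.P1 X) (G.c G.O1) * T.pull (snd G.P1 X) y) =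
      T.pull (fst G.P1 X) (G.c G.O1) * T.pull (snd G.P1 X) (G.c M ^ j * y) := by
  induction j with
  | zero => simp
  | succ j ih => rw [pow_succ', mul_assoc, ih, box_h, ← mul_assoc (G.c M), ← pow_succ']

theorem line_pow_one {X : V} (M : G.Bund X) (y : T.H X) (j : ℕ) :
    G.c (G.box G.O1 M) ^ (j + 1) * T.pull (snd G.P1 X) y =
      T.pull (snd G.P1 X) (G.c M ^ (j + 1) * y) + ((j : K) + 1) •
        (T.pull (fst G.P1 X) (G.c G.O1) * T.pull (snd G.P1 X) (G.c M ^ j * y)) := by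
  have h1 := box_mul' G.O1 M (1 : T.H G.P1) y
  rw [map_one, one_mul, mul_one, one_mul] at h1
  rw [pow_succ, mul_assoc, h1, mul_add, line_pow, line_pow']
  module

theorem push_snd {X : V} (a : T.H X) : T.push G.P1 X (T.pull (snd G.P1 X) a) = 0 := by
  have h3 := T.push_pure (1 : T.H G.P1) a
  rwa [map_one, one_mul, G.P_tr_one, zero_smul] at h3

/-- from `P¹ × X` to `X` -/
theorem half_odd [CharZero K] {X : V} (M : G.Bund X) (hX : 1 ≤ T.dim X)
    (h : G.HalfLam (G.box G.O1 M) (T.dim X + 1)) : G.HalfLam M (T.dim X + 1) := by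
  have hdim : T.dim (G.P1 ⊗ X) = T.dim X + 1 := by rw [T.dim_prod, G.P_dim]; omega
  obtain ⟨z, hz, hzl⟩ := h
  refine clean hX (compress_mem hX hz) (fun i => Even (i + (T.dim X + 1)))
    (fun i j => if i + (j + 1) < T.dim X then 1 else
      ((T.dim X - i : ℕ) : ℚ) / ((T.dim X - i : ℕ) + 1)) ?_
  intro i y hi hy
  have hy' := hy
  obtain ⟨hin, hyi, hyk⟩ := hy'
  obtain ⟨k, hk⟩ : ∃ k, T.dim X = i + k := ⟨T.dim X - i, by omega⟩
  have hki : T.dim X - i = k := by omega
  rw [hki] at hyk ⊢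
  have hkodd : Odd k := by
    rw [← Nat.not_even_iff_odd]
    intro hk2
    rw [hk, show i + (i + k + 1) = 2 * i + k + 1 by ring] at hi
    exact (Nat.not_even_iff_odd.mpr (((even_two_mul i).add hk2).add_one)) hi
  have hk1 : 1 ≤ k := hkodd.pos
  set C := G.c (G.box G.O1 M) with hC
  set E : ℕ → T.H (G.P1 ⊗ X) := fun j =>
    T.pull (fst G.P1 X) (G.c G.O1) * T.pull (snd G.P1 X) (G.c M ^ j * y) with hE
  set w : T.H (G.P1 ⊗ X) := T.pull (snd G.P1 X) y with hw
  set t : T.H (G.P1 ⊗ X) := T.pull (snd G.P1 X) (G.c M * y) - (k : K) • E 0 with ht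
  have hCw : ∀ j : ℕ, C ^ (j + 1) * w = T.pull (snd G.P1 X) (G.c M ^ (j + 1) * y) +
      ((j : K) + 1) • E j := fun j => line_pow_one M y j
  have hCt : ∀ j : ℕ, C ^ j * t = T.pull (snd G.P1 X) (G.c M ^ (j + 1) * y) +
      ((j : K) - k) • E j := by
    intro j
    have e1 := line_pow M y j
    have e2 := line_pow' M (G.c M ^ 0 * y) j
    rw [← mul_assoc (G.c M ^ j), ← pow_add, add_zero] at e2
    rw [ht, mul_sub, mul_smul_comm, e1]
    change _ - (k : K) • (C ^ j * (T.pull (fst G.P1 X) (G.c G.O1) *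
      T.pull (snd G.P1 X) (G.c M ^ 0 * y))) = _
    rw [e2]
    module
  have hw0 : G.Prim (G.box G.O1 M) i w := by
    refine ⟨by omega, T.pull_deg _ hyi, ?_⟩
    rw [hdim, show T.dim X + 1 - i + 1 = (k + 1) + 1 by omega]
    have e3 : G.c M ^ (k + 1 + 1) * y = 0 := by rw [pow_succ', mul_assoc, hyk, mul_zero]
    rw [← hC, hCw, e3, map_zero, zero_add]
    simp only [hE]
    rw [hyk, map_zero, mul_zero, smul_zero]
  have ht0 : G.Prim (G.box G.O1 M) (i + 2) t := by
    refine ⟨by omega, ?_, ?_⟩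
    · refine sub_mem ?_ (Submodule.smul_mem _ _ ?_)
      · exact T.deg_of_eq (T.pull_deg _ (T.mul_deg (G.c_deg M) hyi)) (by omega)
      · simp only [hE, pow_zero, one_mul]
        exact T.deg_of_eq (T.mul_deg (T.fst_deg (G.c_deg G.O1)) (T.snd_deg hyi)) (by omega)
    · rw [hdim, show T.dim X + 1 - (i + 2) + 1 = k by omega, ← hC, hCt, hyk, map_zero, zero_add,
        sub_self, zero_smul]
  have hdiff : ∀ j : ℕ, ((k : K) + 1) • E j = C ^ (j + 1) * w - C ^ j * t := by
    intro j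
    rw [hCw, hCt]
    module
  have hk0 : ((k : K) + 1) ≠ 0 := by exact_mod_cast Nat.succ_ne_zero k
  have hEj : ∀ j : ℕ, E j = ((k : K) + 1)⁻¹ • (C ^ (j + 1) * w - C ^ j * t) := by
    intro j
    rw [← hdiff, smul_smul, inv_mul_cancel₀ hk0, one_smul]
  have hpE : ∀ j : ℕ, T.push G.P1 X (E j) = G.c M ^ j * y := fun j => push_h _
  obtain ⟨hzw0, hzw⟩ := hzl i w hi hw0
  obtain ⟨hzt0, hzt⟩ := hzl (i + 2) t (by
    rw [show i + 2 + (T.dim X + 1) = (i + (T.dim X + 1)) + 2 * 1 by ring]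
    exact hi.add (even_two_mul 1)) ht0
  have hD0 : G.compress z y = 0 := by
    have e4 : T.pull (fst G.P1 X) (G.c G.O1) * T.pull (snd G.P1 X) y = E 0 := by
      simp only [hE, pow_zero, one_mul]
    rw [compress_apply, e4, hEj 0, map_smul, map_sub, pow_zero, one_mul, hzt0, sub_zero,
      hzw 0 (by omega), pow_zero, one_mul, map_smul, hw, push_snd, smul_zero]
  refine ⟨hD0, ?_⟩
  intro j hj
  have hDj : G.compress z (G.c M ^ (j + 1) * y) = T.push G.P1 X (z (E (j + 1))) := rfl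
  by_cases hjk : i + (j + 1) < T.dim X
  · simp only [if_pos hjk]
    refine ⟨one_ne_zero, ?_⟩
    rw [hDj, hEj, map_smul, map_sub, hzw (j + 1) (by omega), hzt j (by omega), ← hEj, hpE,
      Rat.cast_one, one_smul]
  · have hjk' : j + 1 = k := by omega
    simp only [if_neg hjk, hki]
    constructor
    · have : (k : ℚ) ≠ 0 := by
        rw [Nat.cast_ne_zero]
        omega
      positivity
    · have e5 : C ^ (j + 1) * t = 0 := by
        rw [hCt, ← hjk', Nat.cast_succ, sub_self, zero_smul, add_zero,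
          show j + 1 + 1 = k + 1 by omega, hyk, map_zero]
      rw [hDj, hEj, e5, sub_zero, map_smul, hzw (j + 1) (by omega), hCw, map_smul, map_add,
        push_snd, zero_add, map_smul, hpE, smul_smul]
      congr 1
      rw [← hjk']
      push_cast
      rw [mul_comm, div_eq_mul_inv]

theorem lefB_of_halves {X : V} (M : G.Bund X) (hX : 1 ≤ T.dim X) (hs : R.Sign X)
    (h0 : G.HalfLam M (T.dim X)) (h1 : G.HalfLam M (T.dim X + 1)) : G.LefB M := by
  obtain ⟨z0, hz0, hl0⟩ := h0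
  obtain ⟨z1, hz1, hl1⟩ := h1
  obtain ⟨p, hp, hp0, hp1⟩ := hs.parity (T.dim X)
  obtain ⟨r, hr, hr0, hr1⟩ := hs.parity (T.dim X + 1)
  have hop : z0 ∘ₗ T.act p + z1 ∘ₗ T.act r ∈ R.Op X X (T.dim X - 1) :=
    add_mem (Cyc.Op_comp (Cyc.act_mem_Op hp) hz0 (by omega))
      (Cyc.Op_comp (Cyc.act_mem_Op hr) hz1 (by omega))
  obtain ⟨z, hz, hza⟩ := hop
  have hval : ∀ a, T.act z a = z0 (T.act p a) + z1 (T.act r a) := fun a => by rw [hza]; rfl
  have hcdeg : ∀ {i : ℕ} {y : T.H X}, y ∈ T.deg X i → ∀ j, G.c M ^ j * y ∈ T.deg X (2 * j + i) :=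
    fun hy j => T.mul_deg (G.c_pow_deg M j) hy
  refine ⟨z, hz, ?_⟩
  intro i y hy
  rcases Nat.even_or_odd (i + T.dim X) with hi | hi
  · have e1 : ∀ j, Even (2 * j + i + T.dim X) := fun j => by
      rw [add_assoc]
      exact (even_two_mul j).add hi
    have e2 : ∀ j, Odd (2 * j + i + (T.dim X + 1)) := fun j => by
      rw [← add_assoc]
      exact (e1 j).add_one
    have e3 : ∀ j, T.act z (G.c M ^ j * y) = z0 (G.c M ^ j * y) := by
      intro j
      rw [hval, hp0 _ (e1 j) _ (hcdeg hy.2.1 j), hr1 _ (e2 j) _ (hcdeg hy.2.1 j), map_zero,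
        add_zero]
    obtain ⟨h2, h3⟩ := hl0 i y hi hy
    constructor
    · have := e3 0
      rw [pow_zero, one_mul] at this
      rw [this, h2]
    · intro j hj
      rw [e3, h3 j hj]
  · have e1 : ∀ j, Odd (2 * j + i + T.dim X) := fun j => by
      rw [add_assoc]
      exact (even_two_mul j).add_odd hi
    have e2 : ∀ j, Even (2 * j + i + (T.dim X + 1)) := fun j => by
      rw [← add_assoc]
      exact (e1 j).add_one
    have e3 : ∀ j, T.act z (G.c M ^ j * y) = z1 (G.c M ^ j * y) := by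
      intro j
      rw [hval, hp1 _ (e1 j) _ (hcdeg hy.2.1 j), hr0 _ (e2 j) _ (hcdeg hy.2.1 j), map_zero,
        zero_add]
    obtain ⟨h2, h3⟩ := hl1 i y (by rw [← add_assoc]; exact hi.add_one) hy
    constructor
    · have := e3 0
      rw [pow_zero, one_mul] at this
      rw [this, h2]
    · intro j hj
      rw [e3, h3 j hj]

/-- **Main step.** -/
theorem lefB_of_reg_lines [CharZero K] {X : V} (M : G.Bund X)
    (h : R.Reg (G.c (G.box (G.box G.O1 (G.box G.O1 M)) (G.box G.O1 (G.box G.O1 M))))) :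
    G.LefB M := by
  rcases Nat.eq_zero_or_pos (T.dim X) with h0 | hX
  · refine ⟨0, zero_mem _, ?_⟩
    intro i y _
    rw [T.act_zero]
    exact ⟨rfl, fun j hj => by omega⟩
  · have hdim : T.dim (G.P1 ⊗ X) = T.dim X + 1 := by rw [T.dim_prod, G.P_dim]; omega
    have hreg : R.Reg (G.c (G.box (G.box G.O1 M) (G.box G.O1 M))) :=
      reg_square (G.box G.O1 M) (by omega) h
    have hs0 : R.Sign ((G.P1 ⊗ X) ⊗ (G.P1 ⊗ (G.P1 ⊗ X))) :=
      sign_of_reg_line _ (reg_assoc (G.box G.O1 M) (G.box G.O1 (G.box G.O1 M)) h)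
    have hs2 : R.Sign (G.P1 ⊗ (G.P1 ⊗ X)) :=
      hs0.retract (lift (snd G.P1 (G.P1 ⊗ X)) (𝟙 _)) (snd _ _) (lift_snd _ _)
    have hs1 : R.Sign (G.P1 ⊗ X) := sign_of_sign_line hs2
    have hs : R.Sign X := sign_of_sign_line hs1
    have h1 : G.HalfLam M (T.dim X) := half_even M hX hreg hs1
    have h2 : G.HalfLam (G.box G.O1 M) (T.dim (G.P1 ⊗ X)) :=
      half_even (G.box G.O1 M) (by omega) h hs2
    rw [hdim] at h2
    exact lefB_of_halves M hX hs h1 (half_odd M hX h2)

/-- the converse -/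
theorem reg_lines_of_lefB [CharZero K]
    (hspan : ∀ a : T.H G.P1, ∃ s t : K, a = s • 1 + t • G.c G.O1) {X : V} (M : G.Bund X)
    (h : G.LefB M) :
    G.LefB (G.box (G.box G.O1 (G.box G.O1 M)) (G.box G.O1 (G.box G.O1 M))) := by
  have h1 := G.lef_of_lefB M h
  have h2 : G.Lef (G.box G.O1 (G.box G.O1 M)) := 
    lef_prod (lef_line hspan) (lef_prod (lef_line hspan) h1)
  exact lefB_of_lef _ _ (lef_prod h2 h2)

end Pl

end Pool.Std
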