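import Pool.Agent.Work.StdConj.Point

/-!
Algebraic operators between the cohomologies of two varieties; transfer of the sign conjecture
and of regularity.
-/

open CategoryTheory MonoidalCategory CartesianMonoidalCategory

universe u v w x b

namespace Pool.Std

open Pool.KC

variable {V : Type u} [Category.{v} V] [CartesianMonoidalCategory V] {K : Type x} [Field K]
variable {T : WeilTheory.{u, v, w, x} V K} (R : Cyc T)

/-- algebraic operators `H(X) → H(Y)`: the operators of the algebraic classes of codimension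
`r` on `X × Y` -/
def Cyc.Op (X Y : V) (r : ℕ) : AddSubgroup (T.H X →ₗ[K] T.H Y) where
  carrier := {f | ∃ z ∈ R.A (X ⊗ Y) r, T.act z = f}
  add_mem' := by
    rintro f g ⟨z, hz, rfl⟩ ⟨y, hy, rfl⟩
    exact ⟨z + y, add_mem hz hy, T.act_add _ _⟩
  zero_mem' := ⟨0, zero_mem _, T.act_zero⟩
  neg_mem' := by
    rintro f ⟨z, hz, rfl⟩
    refine ⟨-z, neg_mem hz, ?_⟩
    apply LinearMap.ext
    intro a
    rw [T.act_apply, LinearMap.neg_apply, T.act_apply, mul_neg, map_neg]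

namespace Cyc

variable {R}

theorem mem_Op {X Y : V} {r : ℕ} {f : T.H X →ₗ[K] T.H Y} :
    f ∈ R.Op X Y r ↔ ∃ z ∈ R.A (X ⊗ Y) r, T.act z = f := Iff.rfl

theorem act_mem_Op {X Y : V} {r : ℕ} {z : T.H (X ⊗ Y)} (hz : z ∈ R.A (X ⊗ Y) r) :
    T.act z ∈ R.Op X Y r := ⟨z, hz, rfl⟩

theorem Op_of_eq {X Y : V} {r s : ℕ} {f : T.H X →ₗ[K] T.H Y} (hf : f ∈ R.Op X Y r)
    (h : r = s) : f ∈ R.Op X Y s := h ▸ hf

theorem Op_smul {X Y : V} {r : ℕ} (q : ℚ) {f : T.H X →ₗ[K] T.H Y} (hf : f ∈ R.Op X Y r) :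
    (q : K) • f ∈ R.Op X Y r := by
  obtain ⟨z, hz, rfl⟩ := hf
  exact ⟨_, R.smul q hz, T.act_smul _ _⟩

theorem Op_comp {X Y Z : V} {r s t : ℕ} {f : T.H X →ₗ[K] T.H Y} {g : T.H Y →ₗ[K] T.H Z}
    (hf : f ∈ R.Op X Y r) (hg : g ∈ R.Op Y Z s) (h : r + s = T.dim Y + t) :
    g ∘ₗ f ∈ R.Op X Z t := by
  obtain ⟨z, hz, rfl⟩ := hf
  obtain ⟨y, hy, rfl⟩ := hg
  exact ⟨T.comp z y, R.comp_mem hz hy h rfl, T.act_comp _ _⟩

theorem Op_id (X : V) : (LinearMap.id : T.H X →ₗ[K] T.H X) ∈ R.Op X X (T.dim X) :=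
  ⟨_, R.diag X, T.act_diag X⟩

theorem Op_pull {X Y : V} (f : X ⟶ Y) : (T.pull f).toLinearMap ∈ R.Op Y X (T.dim Y) := by
  refine ⟨T.pull (lift (fst Y X) (snd Y X ≫ f)) (T.diag Y), R.pull _ (R.diag Y), ?_⟩
  apply LinearMap.ext
  intro a
  rw [T.act_pull_snd, T.act_diag, LinearMap.id_apply]
  rfl

theorem Op_mul {X : V} {s : ℕ} {a : T.H X} (ha : a ∈ R.A X s) :
    LinearMap.mulLeft K a ∈ R.Op X X (T.dim X + s) := by
  refine ⟨T.pull (snd X X) a * T.diag X, R.of_eq (R.mul (R.pull _ ha) (R.diag X))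
    (Nat.add_comm _ _), ?_⟩
  apply LinearMap.ext
  intro e
  rw [T.act_snd_mul (R.deg ha), T.act_diag]
  rfl

/-- push-forward along the second projection as a correspondence -/
theorem act_push {P Z Y : V} (z : T.H (Z ⊗ Y)) (a : T.H (P ⊗ Z)) :
    T.act (T.pull (lift (fst (P ⊗ Z) Y ≫ snd P Z) (snd (P ⊗ Z) Y)) z) a =
      T.act z (T.push P Z a) := by
  refine T.kind (P := fun z => T.act (T.pull (lift (fst (P ⊗ Z) Y ≫ snd P Z)
    (snd (P ⊗ Z) Y)) z) a = T.act z (T.push P Z a)) (by simp [T.act_zero]) ?_ ?_ z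
  · intro p q
    rw [map_mul, T.pull_comp', T.pull_comp', lift_fst, lift_snd,
      T.pull_comp (fst (P ⊗ Z) Y) (snd P Z), T.act_pure, T.act_pure, ← T.push_mul_snd, T.tr_push]
  · intro p q h1 h2
    rw [map_add, T.act_add, T.act_add, LinearMap.add_apply, LinearMap.add_apply, h1, h2]

theorem Op_push (P X : V) : T.push P X ∈ R.Op (P ⊗ X) X (T.dim X) := by
  refine ⟨T.pull (lift (fst (P ⊗ X) X ≫ snd P X) (snd (P ⊗ X) X)) (T.diag X),
    R.pull _ (R.diag X), ?_⟩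
  apply LinearMap.ext
  intro a
  rw [act_push, T.act_diag, LinearMap.id_apply]

theorem Op_deg {X Y : V} {r i l : ℕ} {f : T.H X →ₗ[K] T.H Y} (hf : f ∈ R.Op X Y r)
    (h : i + 2 * r = 2 * T.dim X + l) {a : T.H X} (ha : a ∈ T.deg X i) : f a ∈ T.deg Y l := by
  obtain ⟨z, hz, rfl⟩ := hf
  exact T.act_deg (R.deg hz) h ha

theorem Op_eq_zero {X Y : V} {r i : ℕ} {f : T.H X →ₗ[K] T.H Y} (hf : f ∈ R.Op X Y r)
    (h : i + 2 * r < 2 * T.dim X) {a : T.H X} (ha : a ∈ T.deg X i) : f a = 0 := by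
  obtain ⟨z, hz, rfl⟩ := hf
  exact act_eq_zero T.toCohomology (R.deg hz) ha h

theorem Op_alg {X Y : V} {r i j : ℕ} {f : T.H X →ₗ[K] T.H Y} (hf : f ∈ R.Op X Y r)
    {a : T.H X} (ha : a ∈ R.A X j) (h : j + r = T.dim X + i) : f a ∈ R.A Y i := by
  obtain ⟨z, hz, rfl⟩ := hf
  exact R.act_mem hz ha h

/-- a retract of a variety satisfying the sign conjecture satisfies it -/
theorem Sign.retract {U W : V} (s : U ⟶ W) (p : W ⟶ U) (h : s ≫ p = 𝟙 U) (hW : R.Sign W) :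
    R.Sign U := by
  obtain ⟨z, hz, h0, h1⟩ := hW
  have hp : ∀ a, T.pull s (T.pull p a) = a := by
    intro a
    rw [T.pull_comp', h, T.pull_id]
  have h2 : (T.pull s).toLinearMap ∘ₗ T.act z ∘ₗ (T.pull p).toLinearMap ∈
      R.Op U U (T.dim U) := by
    refine Op_comp (Op_comp (Op_pull p) (act_mem_Op hz) (t := T.dim U) (by omega))
      (Op_pull s) (by omega)
  obtain ⟨y, hy, hya⟩ := h2
  refine ⟨y, hy, ?_, ?_⟩
  · intro i a ha
    rw [hya]
    change T.pull s (T.act z (T.pull p a)) = a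
    rw [h0 i _ (T.pull_deg _ ha), hp]
  · intro i a ha
    rw [hya]
    change T.pull s (T.act z (T.pull p a)) = 0
    rw [h1 i _ (T.pull_deg _ ha), map_zero]

/-- transfer of regularity to a direct summand -/
theorem Reg.transfer {U W : V} {cU : T.H U} {cW : T.H W} {a b t : ℕ}
    {α : T.H U →ₗ[K] T.H W} {β : T.H W →ₗ[K] T.H U} (hα : α ∈ R.Op U W a)
    (hβ : β ∈ R.Op W U b) (h1 : ∀ x, α (cU * x) = cW * α x) (h2 : ∀ x, β (cW * x) = cU * β x)
    (h3 : ∀ x, β (α x) = x) (ha : a = T.dim U + t) (hb : b + t = T.dim W)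
    (hU : 1 ≤ T.dim U) (hW : 1 ≤ T.dim W) (h : R.Reg cW) : R.Reg cU := by
  obtain ⟨g, hg, hg0, hg1⟩ := h
  have hmem : β ∘ₗ T.act g ∘ₗ α ∈ R.Op U U (T.dim U - 1) := by
    refine Op_comp (Op_comp hα (act_mem_Op hg) (t := T.dim U + t - 1) (by omega))
      hβ (by omega)
  obtain ⟨y, hy, hya⟩ := hmem
  refine ⟨y, hy, ?_, ?_⟩
  · intro j x hx
    have hx' : α x ∈ T.deg W (2 * (j + t)) := Op_deg hα (by omega) hx
    rw [hya]
    change cU * β (T.act g (α (cU * x))) = cU * x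
    rw [h1, ← h2, hg0 _ _ hx', h2, h3]
  · intro j x hx
    have hx' : α x ∈ T.deg W (2 * (j + t) + 1) := Op_deg hα (by omega) hx
    rw [hya]
    change cU * β (T.act g (α (cU * x))) = 0
    rw [h1, ← h2, hg1 _ _ hx', map_zero]

/-- regularity is invariant under isomorphisms -/
theorem Reg.iso {U W : V} (f : W ⟶ U) (g : U ⟶ W) (hgf : g ≫ f = 𝟙 U) {cU : T.H U} {cW : T.H W}
    (h1 : T.pull f cU = cW) (hd : T.dim U = T.dim W)
    (hU : 1 ≤ T.dim U) (h : R.Reg cW) : R.Reg cU := by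
  have h2 : ∀ x, T.pull g (T.pull f x) = x := by
    intro x
    rw [T.pull_comp', hgf, T.pull_id]
  refine Reg.transfer (α := (T.pull f).toLinearMap) (β := (T.pull g).toLinearMap) (t := 0)
    (Op_pull f) (Op_pull g) ?_ ?_ h2 rfl (by omega) hU (by omega) h
  · intro x
    change T.pull f (cU * x) = cW * T.pull f x
    rw [map_mul, h1]
  · intro x
    change T.pull g (cW * x) = cU * T.pull g x
    rw [map_mul, ← h1, h2]

end Cyc

end Pool.Std
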