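import Pool.Agent.Work.StdConj.Lef

/-!
Primitive decomposition; the operator `Λ` of the Lefschetz decomposition; the Lefschetz
standard conjecture implies the Kuenneth conjecture.
-/

open CategoryTheory MonoidalCategory CartesianMonoidalCategory Polynomial

universe u v w x b

namespace Pool.Std

open Pool.KC

variable {V : Type u} [Category.{v} V] [CartesianMonoidalCategory V] {K : Type x} [Field K]
variable {T : WeilTheory.{u, v, w, x} V K} {R : Cyc T}

theorem aeval_eigen {E : Type*} [AddCommGroup E] [Module K E] {f : Module.End K E} {a : E} {μ : K}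
    (h : f a = μ • a) (p : K[X]) : aeval f p a = p.eval μ • a := by
  induction p using Polynomial.induction_on' with
  | add p q hp hq => rw [map_add, LinearMap.add_apply, hp, hq, eval_add, add_smul]
  | monomial n c =>
    rw [aeval_monomial, Module.End.mul_apply, Module.algebraMap_end_apply, eval_monomial,
      mul_smul]
    congr 1
    induction n with
    | zero => simp
    | succ n ih => rw [pow_succ', Module.End.mul_apply, ih, map_smul, h, smul_smul, pow_succ]

namespace Pl

variable (G : Pl.{u, v, w, x, b} R)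

/-- primitive classes -/
def Prim {X : V} (M : G.Bund X) (i : ℕ) (y : T.H X) : Prop :=
  i ≤ T.dim X ∧ y ∈ T.deg X i ∧ G.c M ^ (T.dim X - i + 1) * y = 0

variable {G}

theorem Prim.pow_eq_zero {X : V} {M : G.Bund X} {i : ℕ} {y : T.H X} (h : G.Prim M i y) {j : ℕ}
    (hj : T.dim X < i + j) : G.c M ^ j * y = 0 := by
  obtain ⟨h1, h2, h3⟩ := h
  obtain ⟨k, rfl⟩ : ∃ k, j = k + (T.dim X - i + 1) := ⟨j - (T.dim X - i + 1), by omega⟩
  rw [pow_add, mul_assoc, h3, mul_zero]

/-- every class is a sum of classes `c^j y` with `y` primitive -/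
theorem prim_ind {X : V} (M : G.Bund X) {P : T.H X → Prop} (h0 : P 0)
    (hL : ∀ (i : ℕ) (y : T.H X), G.Prim M i y → ∀ j, i + j ≤ T.dim X → P (G.c M ^ j * y))
    (ha : ∀ a e, P a → P e → P (a + e)) (a : T.H X) : P a := by
  let S : Set (T.H X) := {t | ∃ (i j : ℕ) (y : T.H X), G.Prim M i y ∧ i + j ≤ T.dim X ∧
    G.c M ^ j * y = t}
  let N : AddSubmonoid (T.H X) := AddSubmonoid.closure S
  have hc : ∀ t ∈ N, G.c M * t ∈ N := by
    intro t ht
    induction ht using AddSubmonoid.closure_induction with
    | mem t ht =>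
      obtain ⟨i, j, y, hy, hij, rfl⟩ := ht
      rw [← mul_assoc, ← pow_succ']
      rcases Nat.lt_or_ge (T.dim X) (i + (j + 1)) with h | h
      · rw [hy.pow_eq_zero h]
        exact zero_mem _
      · exact AddSubmonoid.subset_closure ⟨i, j + 1, y, hy, h, rfl⟩
    | zero => rw [mul_zero]; exact zero_mem _
    | add s t _ _ hs ht => rw [mul_add]; exact add_mem hs ht
  have hck : ∀ (k : ℕ), ∀ t ∈ N, G.c M ^ k * t ∈ N := by
    intro k
    induction k with
    | zero => intro t ht; rwa [pow_zero, one_mul]
    | succ k ih => intro t ht; rw [pow_succ', mul_assoc]; exact hc _ (ih t ht)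
  have h1 : ∀ i ≤ T.dim X, ∀ a ∈ T.deg X i, a ∈ N := by
    intro i
    induction i using Nat.strong_induction_on with
    | _ i ih =>
      intro hi a ha
      rcases Nat.lt_or_ge i 2 with h2 | h2
      · have h3 : G.c M ^ (T.dim X - i + 1) * a = 0 :=
          T.deg_eq_zero (T.mul_deg (G.c_pow_deg M _) ha) (by omega)
        exact AddSubmonoid.subset_closure ⟨i, 0, a, ⟨hi, ha, h3⟩, by omega, by
          rw [pow_zero, one_mul]⟩
      · obtain ⟨i, rfl⟩ : ∃ i', i = i' + 2 := ⟨i - 2, by omega⟩
        obtain ⟨e, he, hea⟩ := G.hard_surj M (i := i) (k := T.dim X - i) (by omega)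
          (G.c M ^ (T.dim X - (i + 2) + 1) * a)
          (T.deg_of_eq (T.mul_deg (G.c_pow_deg M _) ha) (by omega))
        have h3 : G.Prim M (i + 2) (a - G.c M * e) := by
          refine ⟨hi, sub_mem ha (T.deg_of_eq (T.mul_deg (G.c_deg M) he) (by omega)), ?_⟩
          rw [mul_sub, ← mul_assoc, ← pow_succ,
            show T.dim X - (i + 2) + 1 + 1 = T.dim X - i by omega, hea, sub_self]
        have h4 : a = (a - G.c M * e) + G.c M * e := by abel
        rw [h4]
        refine add_mem ?_ (hc _ (ih i (by omega) (by omega) e he))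
        exact AddSubmonoid.subset_closure ⟨i + 2, 0, _, h3, by omega, by
          rw [pow_zero, one_mul]⟩
  have h2 : a ∈ N := by
    refine T.hind (P := fun a => a ∈ N) (zero_mem _) ?_ (fun a e h3 h4 => add_mem h3 h4) a
    intro i a ha
    rcases Nat.lt_or_ge (T.dim X) i with h3 | h3
    · rcases Nat.lt_or_ge (2 * T.dim X) i with h4 | h4
      · rw [T.deg_eq_zero ha h4]
        exact zero_mem _
      · obtain ⟨e, he, hea⟩ := G.hard_surj M (i := 2 * T.dim X - i) (k := i - T.dim X) (by omega)
          a (T.deg_of_eq ha (by omega))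
        rw [← hea]
        exact hck _ _ (h1 _ (by omega) e he)
    · exact h1 i h3 a ha
  induction h2 using AddSubmonoid.closure_induction with
  | mem t ht =>
    obtain ⟨i, j, y, hy, hij, rfl⟩ := ht
    exact hL i y hy j hij
  | zero => exact h0
  | add s t _ _ hs ht => exact ha s t hs ht

theorem IsLam.prim {X : V} {M : G.Bund X} {lam : Module.End K (T.H X)} (h : G.IsLam M lam)
    {i : ℕ} {y : T.H X} (hy : G.Prim M i y) : lam y = 0 := by
  obtain ⟨hi, h1, h2⟩ := hy
  rcases Nat.lt_or_ge i 2 with h3 | h3
  · exact h.zero i h3 y h1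
  · obtain ⟨i, rfl⟩ : ∃ i', i = i' + 2 := ⟨i - 2, by omega⟩
    have h4 := h.comm_pow (T.dim X - (i + 2)) h1
    have h5 : ((i + 2 : ℕ) : K) - T.dim X + ((T.dim X - (i + 2) : ℕ) : K) = 0 := by
      rw [Nat.cast_sub hi]
      ring
    rw [h2, map_zero, sub_zero, h5, mul_zero, zero_smul] at h4
    apply G.hard_inj M (i := i) (k := T.dim X - i) (by omega) _ (h.deg i y h1)
    rw [show T.dim X - i = (T.dim X - (i + 2) + 1) + 1 by omega, pow_succ', mul_assoc, h4,
      mul_zero]

theorem IsLam.pow_prim {X : V} {M : G.Bund X} {lam : Module.End K (T.H X)} (h : G.IsLam M lam)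
    {i : ℕ} {y : T.H X} (hy : G.Prim M i y) {j : ℕ} (hj : i + (j + 1) ≤ T.dim X) :
    lam (G.c M ^ (j + 1) * y) = (((j + 1) * (T.dim X - i - j) : ℕ) : K) • (G.c M ^ j * y) := by
  have h1 := h.comm_pow j hy.2.1
  rw [h.prim hy, mul_zero, zero_sub] at h1
  rw [← neg_neg (lam _), h1, ← neg_smul]
  congr 1
  rw [Nat.cast_mul, Nat.cast_sub (by omega), Nat.cast_sub (by omega)]
  push_cast
  ring

variable (G)

/-- `Λ` is algebraic -/
def LefB {X : V} (M : G.Bund X) : Prop :=
  ∃ z ∈ R.A (X ⊗ X) (T.dim X - 1), ∀ (i : ℕ) (y : T.H X), G.Prim M i y → T.act z y = 0 ∧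
    ∀ j : ℕ, i + (j + 1) ≤ T.dim X → T.act z (G.c M ^ (j + 1) * y) = G.c M ^ j * y

theorem lefB_of_lef [CharZero K] {X : V} (M : G.Bund X) (h : G.Lef M) : G.LefB M := by
  obtain ⟨z, hz, hl⟩ := h
  rcases Nat.eq_zero_or_pos (T.dim X) with h0 | h0
  · refine ⟨0, zero_mem _, ?_⟩
    intro i y _
    rw [T.act_zero]
    exact ⟨rfl, fun j hj => by omega⟩
  · have hf : T.act (T.pull (snd X X) (G.c M) * z) ∈ R.ops X :=
      ⟨_, R.of_eq (R.mul (R.pull _ (G.c_mem M)) hz) (by omega), rfl⟩
    set f : Module.End K (T.H X) := T.act (T.pull (snd X X) (G.c M) * z) with hfdef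
    have hfa : ∀ a, f a = G.c M * T.act z a := fun a => T.act_snd_mul (G.c_deg M) z a
    let s := Finset.Icc 1 ((T.dim X + 1) * (T.dim X + 1))
    let g : ℚ[X] := Lagrange.interpolate s (fun i => (i : ℚ)) (fun i => 1 / (i : ℚ))
    have hg : ∀ i ∈ s, g.eval (i : ℚ) = 1 / (i : ℚ) := fun i hi =>
      Lagrange.eval_interpolate_at_node _ (fun a _ b _ hab => by exact_mod_cast hab) hi
    obtain ⟨y0, hy0, hy⟩ := R.aeval_ops hf g
    refine ⟨T.comp y0 z, R.comp_mem hy0 hz (k := T.dim X - 1) (by omega) rfl, ?_⟩
    intro i y hprim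
    rw [T.act_comp, hy]
    constructor
    · have h1 : f y = (0 : K) • y := by rw [hfa, hl.prim hprim, mul_zero, zero_smul]
      change T.act z (aeval f (g.map (algebraMap ℚ K)) y) = 0
      rw [aeval_eigen h1, map_smul, hl.prim hprim, smul_zero]
    · intro j hj
      set μ : ℕ := (j + 1) * (T.dim X - i - j) with hμ
      have hμ1 : 1 ≤ μ := Nat.mul_pos (by omega) (by omega)
      have hμs : μ ∈ s := by
        rw [Finset.mem_Icc]
        exact ⟨hμ1, Nat.mul_le_mul (by omega) (by omega)⟩
      have hμ0 : (μ : K) ≠ 0 := by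
        rw [Nat.cast_ne_zero]
        omega
      have h2 := hl.pow_prim hprim hj
      rw [← hμ] at h2
      have h1 : f (G.c M ^ (j + 1) * y) = (μ : K) • (G.c M ^ (j + 1) * y) := by
        rw [hfa, h2, mul_smul_comm, ← mul_assoc, ← pow_succ']
      have h3 : (g.map (algebraMap ℚ K)).eval (μ : K) = 1 / (μ : K) := by
        have h4 : (μ : K) = algebraMap ℚ K (μ : ℚ) := by simp
        rw [h4, Polynomial.eval_map_algebraMap, Polynomial.aeval_algebraMap_apply,
          Polynomial.coe_aeval_eq_eval, hg μ hμs]
        simp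
      change T.act z (aeval f (g.map (algebraMap ℚ K)) (G.c M ^ (j + 1) * y)) = _
      rw [aeval_eigen h1, h3, map_smul, h2, smul_smul, one_div, inv_mul_cancel₀ hμ0, one_smul]

end Pl

/-- the Kuenneth conjecture -/
def Cyc.KunnethC (R : Cyc T) (X : V) : Prop :=
  ∀ i : ℕ, ∃ z ∈ R.A (X ⊗ X) (T.dim X), (∀ a ∈ T.deg X i, T.act z a = a) ∧
    ∀ j : ℕ, j ≠ i → ∀ a ∈ T.deg X j, T.act z a = 0

theorem Cyc.KunnethC.sign {X : V} (h : R.KunnethC X) : R.Sign X := by
  choose z hz h1 h2 using h
  refine ⟨∑ i ∈ Finset.range (T.dim X + 1), z (2 * i), sum_mem fun i _ => hz _, ?_, ?_⟩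
  · intro i a ha
    rw [← T.actEquiv_apply, map_sum, LinearMap.sum_apply]
    by_cases hi : i ≤ T.dim X
    · rw [Finset.sum_eq_single i]
      · rw [T.actEquiv_apply, h1 _ a ha]
      · intro j _ hji
        rw [T.actEquiv_apply, h2 _ _ (by omega) a ha]
      · intro h3
        exact absurd (Finset.mem_range.mpr (by omega)) h3
    · rw [T.deg_eq_zero ha (by omega)]
      simp
  · intro i a ha
    rw [← T.actEquiv_apply, map_sum, LinearMap.sum_apply]
    apply Finset.sum_eq_zero
    intro j _
    rw [T.actEquiv_apply, h2 _ _ (by omega) a ha]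

namespace Pl

variable (G : Pl.{u, v, w, x, b} R)

/-- `B(X)` implies `C(X)` -/
theorem kunneth_of_lefB [CharZero K] {X : V} (M : G.Bund X) (h : G.LefB M) : R.KunnethC X := by
  obtain ⟨z, hz, hl⟩ := h
  rcases Nat.eq_zero_or_pos (T.dim X) with h0 | h0
  · intro i
    rcases Nat.eq_zero_or_pos i with hi | hi
    · subst hi
      refine ⟨T.diag X, R.diag X, ?_, ?_⟩
      · intro a _
        rw [T.act_diag, LinearMap.id_apply]
      · intro j hj a ha
        rw [T.deg_eq_zero ha (by omega), map_zero]
    · refine ⟨0, zero_mem _, ?_, ?_⟩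
      · intro a ha
        rw [T.deg_eq_zero ha (by omega), map_zero]
      · intro j _ a _
        rw [T.act_zero, LinearMap.zero_apply]
  · set f : Module.End K (T.H X) := T.act z with hf
    set L : Module.End K (T.H X) := LinearMap.mulLeft K (G.c M) with hL
    have hLa : ∀ a, L a = G.c M * a := fun a => rfl
    have hconj1 : ∀ g ∈ R.ops X, L * g * f ∈ R.ops X := by
      rintro g ⟨y, hy, rfl⟩
      refine ⟨T.pull (snd X X) (G.c M) * T.comp z y, R.of_eq (R.mul (R.pull _ (G.c_mem M))
        (R.comp_mem hz hy (k := T.dim X - 1) (by omega) rfl)) (by omega), ?_⟩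
      apply LinearMap.ext
      intro a
      rw [T.act_snd_mul (G.c_deg M), T.act_comp]
      rfl
    have hconj2 : ∀ g ∈ R.ops X, f * g * L ∈ R.ops X := by
      rintro g ⟨y, hy, rfl⟩
      refine ⟨T.comp (T.pull (fst X X) (G.c M) * y) z, R.comp_mem
        (R.mul (R.pull _ (G.c_mem M)) hy) hz (k := T.dim X) (by omega) rfl, ?_⟩
      apply LinearMap.ext
      intro a
      rw [T.act_comp]
      change f (T.act (T.pull (fst X X) (G.c M) * y) a) = f (T.act y (G.c M * a))
      rw [T.act_fst_mul, ← G.c_comm]
    have hS1 : ∀ r : ℕ, L ^ r * f ^ r ∈ R.ops X := by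
      intro r
      induction r with
      | zero => simpa using one_mem (R.ops X)
      | succ r ih =>
        have := hconj1 _ ih
        rwa [← mul_assoc L, ← pow_succ', mul_assoc, ← pow_succ] at this
    have hS2 : ∀ r : ℕ, f ^ r * L ^ r ∈ R.ops X := by
      intro r
      induction r with
      | zero => simpa using one_mem (R.ops X)
      | succ r ih =>
        have := hconj2 _ ih
        rwa [← mul_assoc f, ← pow_succ', mul_assoc, ← pow_succ] at this
    have hfr : ∀ (r : ℕ) {i j : ℕ} {y : T.H X}, G.Prim M i y → i + j ≤ T.dim X →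
        (f ^ r) (G.c M ^ j * y) = if r ≤ j then G.c M ^ (j - r) * y else 0 := by
      intro r
      induction r with
      | zero => intro i j y _ _; simp
      | succ r ih =>
        intro i j y hy hij
        rw [pow_succ', Module.End.mul_apply, ih hy hij]
        by_cases h1 : r ≤ j
        · rw [if_pos h1]
          by_cases h2 : r + 1 ≤ j
          · rw [if_pos h2]
            have h3 := (hl i y hy).2 (j - (r + 1)) (by omega)
            rw [show j - (r + 1) + 1 = j - r by omega] at h3
            exact h3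
          · rw [if_neg h2, show j - r = 0 by omega, pow_zero, one_mul]
            exact (hl i y hy).1
        · rw [if_neg h1, if_neg (by omega), map_zero]
    have hLr : ∀ (r : ℕ) (a : T.H X), (L ^ r) a = G.c M ^ r * a := by
      intro r a
      rw [hL, LinearMap.pow_mulLeft]
      rfl
    set H : Module.End K (T.H X) := ∑ r ∈ Finset.range (T.dim X),
      (L ^ (r + 1) * f ^ (r + 1) - f ^ (r + 1) * L ^ (r + 1)) with hH
    have hHo : H ∈ R.ops X := sum_mem fun r _ => sub_mem (hS1 _) (hS2 _)
    have hHa : ∀ (i : ℕ), ∀ a ∈ T.deg X i, H a = ((i : K) - T.dim X) • a := by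
      have key : ∀ a : T.H X, H a =
          ∑ i ∈ Finset.range (2 * T.dim X + 1), ((i : K) - T.dim X) • T.proj X i a := by
        intro a
        refine prim_ind M (P := fun a => H a = ∑ i ∈ Finset.range (2 * T.dim X + 1),
          ((i : K) - T.dim X) • T.proj X i a) (by simp) ?_ ?_ a
        · intro i y hy j hij
          have hdeg : G.c M ^ j * y ∈ T.deg X (i + 2 * j) :=
            T.deg_of_eq (T.mul_deg (G.c_pow_deg M j) hy.2.1) (by omega)
          have h1 : H (G.c M ^ j * y) = ∑ r ∈ Finset.range (T.dim X),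
              ((if r + 1 ≤ j then 1 else 0 : K) -
                (if r + 1 ≤ T.dim X - i - j then 1 else 0)) • (G.c M ^ j * y) := by
            rw [hH, LinearMap.sum_apply]
            apply Finset.sum_congr rfl
            intro r hr
            rw [LinearMap.sub_apply, Module.End.mul_apply, Module.End.mul_apply, hfr _ hy hij,
              sub_smul]
            congr 1
            · by_cases h2 : r + 1 ≤ j
              · rw [if_pos h2, if_pos h2, one_smul, hLr, ← mul_assoc, ← pow_add]
                congr 2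
                omega
              · rw [if_neg h2, if_neg h2, zero_smul, map_zero]
            · rw [hLr, ← mul_assoc, ← pow_add]
              by_cases h2 : r + 1 ≤ T.dim X - i - j
              · rw [if_pos h2, one_smul, hfr _ hy (by omega), if_pos (by omega)]
                congr 2
                omega
              · rw [if_neg h2, zero_smul, hy.pow_eq_zero (by omega), map_zero]
          rw [h1, ← Finset.sum_smul, Finset.sum_sub_distrib, Finset.sum_boole, Finset.sum_boole,
            Finset.sum_eq_single (i + 2 * j), T.proj_same hdeg]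
          · congr 1
            have e1 : (Finset.range (T.dim X)).filter (fun r => r + 1 ≤ j) = Finset.range j := by
              ext r
              simp only [Finset.mem_filter, Finset.mem_range]
              omega
            have e2 : (Finset.range (T.dim X)).filter (fun r => r + 1 ≤ T.dim X - i - j) =
                Finset.range (T.dim X - i - j) := by
              ext r
              simp only [Finset.mem_filter, Finset.mem_range]
              omega
            rw [e1, e2, Finset.card_range, Finset.card_range, Nat.cast_sub (by omega),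
              Nat.cast_sub (by omega)]
            push_cast
            ring
          · intro k _ hk
            rw [T.proj_ne hdeg (Ne.symm hk), smul_zero]
          · intro h2
            exact absurd (Finset.mem_range.mpr (by omega)) h2
        · intro a e h1 h2
          simp only [map_add, h1, h2, smul_add, Finset.sum_add_distrib]
      intro i a ha
      rw [key]
      by_cases hi : i ≤ 2 * T.dim X
      · rw [Finset.sum_eq_single i, T.proj_same ha]
        · intro k _ hk
          rw [T.proj_ne ha (Ne.symm hk), smul_zero]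
        · intro h2
          exact absurd (Finset.mem_range.mpr (by omega)) h2
      · rw [T.deg_eq_zero ha (by omega)]
        simp
    intro i
    let s := Finset.range (2 * T.dim X + 1)
    let v : ℕ → ℚ := fun j => (j : ℚ) - T.dim X
    let r : ℕ → ℚ := fun j => if j = i then 1 else 0
    have hv : Set.InjOn v s := by
      intro j _ k _ hjk
      have h2 : (j : ℚ) - T.dim X = (k : ℚ) - T.dim X := hjk
      have h3 : (j : ℚ) = k := by linarith
      exact_mod_cast h3
    have hg : ∀ j ∈ s, (Lagrange.interpolate s v r).eval (v j) = r j := fun j hj =>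
      Lagrange.eval_interpolate_at_node r hv hj
    obtain ⟨y, hy, hyf⟩ := R.aeval_ops hHo (Lagrange.interpolate s v r)
    have hact : ∀ j, ∀ a ∈ T.deg X j, T.act y a = (r j : K) • a := by
      intro j a ha
      by_cases hj : j ∈ s
      · have h1 : H a = (algebraMap ℚ K (v j)) • a := by
          rw [hHa j a ha]
          simp [v]
        rw [hyf, aeval_eigen h1, Polynomial.eval_map_algebraMap,
          Polynomial.aeval_algebraMap_apply, Polynomial.coe_aeval_eq_eval, hg j hj]
        simp
      · rw [T.deg_eq_zero ha]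
        · simp
        · simp only [s, Finset.mem_range] at hj
          omega
    refine ⟨y, hy, ?_, ?_⟩
    · intro a ha
      rw [hact i a ha]
      simp [r]
    · intro j hj a ha
      rw [hact j a ha]
      simp [r, hj]

variable {G}

/-- `Λ^k L^k = 1` in degrees at most `n - k` -/
theorem lam_pow {X : V} {M : G.Bund X} {f : Module.End K (T.H X)}
    (hl : ∀ (i : ℕ) (y : T.H X), G.Prim M i y → f y = 0 ∧
      ∀ j : ℕ, i + (j + 1) ≤ T.dim X → f (G.c M ^ (j + 1) * y) = G.c M ^ j * y)
    {k j : ℕ} (hjk : j + k ≤ T.dim X) {a : T.H X} (ha : a ∈ T.deg X j) :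
    (f ^ k) (G.c M ^ k * a) = a := by
  have h1 : ∀ (k : ℕ) {i j : ℕ} {y : T.H X}, G.Prim M i y → i + (j + k) ≤ T.dim X →
      (f ^ k) (G.c M ^ (j + k) * y) = G.c M ^ j * y := by
    intro k
    induction k with
    | zero => intro i j y _ _; simp
    | succ k ih =>
      intro i j y hy hij
      have h2 := (hl i y hy).2 (j + k) (by omega)
      rw [pow_succ, Module.End.mul_apply, show j + (k + 1) = j + k + 1 by omega, h2]
      exact ih hy (by omega)
  have key : ∀ a : T.H X, (f ^ k) (G.c M ^ k * T.proj X j a) = T.proj X j a := by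
    intro a
    refine prim_ind M (P := fun a => (f ^ k) (G.c M ^ k * T.proj X j a) = T.proj X j a)
      (by simp) ?_ ?_ a
    · intro i y hy s his
      have hdeg : G.c M ^ s * y ∈ T.deg X (i + 2 * s) :=
        T.deg_of_eq (T.mul_deg (G.c_pow_deg M s) hy.2.1) (by omega)
      by_cases hj : i + 2 * s = j
      · subst hj
        rw [T.proj_same hdeg, ← mul_assoc, ← pow_add, show k + s = s + k by omega]
        exact h1 k hy (by omega)
      · rw [T.proj_ne hdeg hj]
        simp
    · intro a e h2 h3
      simp only [map_add, mul_add, h2, h3]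
  have := key a
  rwa [T.proj_same ha] at this

variable (G)

/-- the motivic form of the conjecture: the inverse of `L^(n-i)` on `H^i` and the projector
onto the primitive part are algebraic -/
theorem motivic_of_lefB [CharZero K] {X : V} (M : G.Bund X) (h : G.LefB M) {i : ℕ}
    (hi : i ≤ T.dim X) :
    (∃ z ∈ R.A (X ⊗ X) i, ∀ a ∈ T.deg X i, T.act z (G.c M ^ (T.dim X - i) * a) = a) ∧
    ∃ p ∈ R.A (X ⊗ X) (T.dim X), (∀ a : T.H X, G.Prim M i a → T.act p a = a) ∧
      (∀ j : ℕ, j + 2 = i → ∀ e ∈ T.deg X j, T.act p (G.c M * e) = 0) ∧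
      ∀ j : ℕ, j ≠ i → ∀ a ∈ T.deg X j, T.act p a = 0 := by
  obtain ⟨y, hy, hy1, hy2⟩ := G.kunneth_of_lefB M h i
  obtain ⟨z, hz, hl⟩ := h
  constructor
  · have h1 : ∀ k ≤ T.dim X, ∃ z' ∈ R.A (X ⊗ X) (T.dim X - k), T.act z' = (T.act z) ^ k := by
      intro k
      induction k with
      | zero =>
        intro _
        exact ⟨T.diag X, R.diag X, by rw [T.act_diag]; rfl⟩
      | succ k ih =>
        intro hk
        obtain ⟨z', hz', h2⟩ := ih (by omega)
        refine ⟨T.comp z' z, R.comp_mem hz' hz (k := T.dim X - (k + 1)) (by omega) rfl, ?_⟩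
        rw [T.act_comp, h2, pow_succ']
        rfl
    obtain ⟨z', hz', h2⟩ := h1 (T.dim X - i) (by omega)
    refine ⟨z', R.of_eq hz' (by omega), ?_⟩
    intro a ha
    rw [h2]
    exact lam_pow hl (by omega) ha
  · rcases Nat.eq_zero_or_pos (T.dim X) with h0 | h0
    · refine ⟨y, hy, fun a ha => hy1 a ha.2.1, ?_, hy2⟩
      intro j hj
      omega
    · have hg : (1 : Module.End K (T.H X)) - T.act (T.pull (snd X X) (G.c M) * z) ∈ R.ops X :=
        sub_mem (one_mem _) ⟨_, R.of_eq (R.mul (R.pull _ (G.c_mem M)) hz) (by omega), rfl⟩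
      obtain ⟨g, hg, hgf⟩ := hg
      have hga : ∀ a, T.act g a = a - G.c M * T.act z a := by
        intro a
        rw [hgf, LinearMap.sub_apply, T.act_snd_mul (G.c_deg M)]
        rfl
      refine ⟨T.comp g y, R.comp_mem hg hy (k := T.dim X) rfl rfl, ?_, ?_, ?_⟩
      · intro a ha
        rw [T.act_comp, LinearMap.comp_apply, hga, (hl i a ha).1, mul_zero, sub_zero,
          hy1 a ha.2.1]
      · intro j hj e he
        have h3 := lam_pow hl (k := 1) (j := j) (by omega) he
        rw [pow_one, pow_one] at h3
        rw [T.act_comp, LinearMap.comp_apply, hga, h3, sub_self, map_zero]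
      · intro j hj a ha
        rw [T.act_comp, LinearMap.comp_apply]
        exact hy2 j hj _ (T.act_deg (R.deg hg) (by omega) ha)

end Pl

end Pool.Std
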