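import Pool.Agent.Work.StdConj.Prim

/-!
Regularity of the Lefschetz operator on even cohomology, and the sign conjecture for very
general hypersurface sections.
-/

open CategoryTheory MonoidalCategory CartesianMonoidalCategory

universe u v w x b

namespace Pool.Std

open Pool.KC Pool.SL

variable {V : Type u} [Category.{v} V] [CartesianMonoidalCategory V] {K : Type x} [Field K]
variable {T : WeilTheory.{u, v, w, x} V K} (R : Cyc T)

/-- `L g L = L` on the even cohomology, `L g L = 0` on the odd cohomology, `g` algebraic -/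
def Cyc.Reg {X : V} (c : T.H X) : Prop :=
  ∃ g ∈ R.A (X ⊗ X) (T.dim X - 1),
    (∀ (j : ℕ), ∀ a ∈ T.deg X (2 * j), c * T.act g (c * a) = c * a) ∧
    ∀ (j : ℕ), ∀ a ∈ T.deg X (2 * j + 1), c * T.act g (c * a) = 0

variable {R}

/-- the sign conjecture for a very general section gives regularity -/
theorem Sect.reg_of_sign {X : V} {c : T.H X} (hc : c ∈ R.A X 1) {m : ℕ} (hm : 1 ≤ m)
    (hX : T.dim X = 2 * m) (S : Sect R c) (hsign : R.Sign S.Y) : R.Reg c := by
  have hd := S.dim
  obtain ⟨z, hz, heven, hodd⟩ := hsign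
  obtain ⟨g0, hg0, hg0z⟩ := exists_of_even (S.res hc hX) (R.deg hz) hodd
  obtain ⟨g, hg, s, hgz⟩ := S.spread z hz ⟨g0, hg0, 0, by rw [zero_smul, add_zero, hg0z]⟩
  have hs : s = 0 := by
    have h1 : T.act z S.v = 0 := hodd (m - 1) _ (T.deg_of_eq S.v_mem (by omega))
    rw [hgz, T.act_add, T.act_smul, LinearMap.add_apply, LinearMap.smul_apply,
      act_sq_van S.i g S.v_orth, zero_add, T.act_diag, LinearMap.id_apply] at h1
    exact (smul_eq_zero.mp h1).resolve_right S.v_ne
  rw [hs, zero_smul, add_zero] at hgz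
  have hcC : c ∈ T.C X 1 := R.le hc
  have key : ∀ a : T.H X, T.act z (T.pull S.i a) =
      (S.r : K) • T.pull S.i (T.act g (c * a)) := by
    intro a
    have h3 := act_sq_pull S.i hcC S.tr g a
    rw [← T.even_comm (R.deg hc) a, ← hgz] at h3
    exact h3
  have hker : ∀ ζ : T.H X, T.pull S.i ζ = 0 → c * ζ = 0 := by
    intro ζ hζ
    apply T.nondeg
    intro b
    have h5 := S.tr (b * ζ)
    rw [map_mul, hζ, mul_zero, map_zero] at h5
    rw [T.even_comm (R.deg hc) ζ, ← mul_assoc]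
    exact (mul_eq_zero.mp h5.symm).resolve_left S.r_ne
  refine ⟨(S.r : K) • g, R.smul _ (R.of_eq hg (by omega)), ?_, ?_⟩
  · intro j a ha
    rw [T.act_smul, LinearMap.smul_apply, ← sub_eq_zero, ← mul_sub]
    apply hker
    rw [map_sub, map_smul, ← key, heven j _ (T.pull_deg _ ha), sub_self]
  · intro j a ha
    rw [T.act_smul, LinearMap.smul_apply]
    apply hker
    rw [map_smul, ← key]
    exact hodd j _ (T.pull_deg _ ha)

/-- the push-forward of a class on `Y`, by duality -/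
theorem exists_gys {X Y : V} (i : Y ⟶ X) (y : T.H Y) :
    ∃ w : T.H X, ∀ a : T.H X, T.tr X (a * w) = T.tr Y (T.pull i a * y) := by
  obtain ⟨w, hw⟩ := (T.dualEquiv X).surjective
    (T.tr Y ∘ₗ LinearMap.mulRight K y ∘ₗ (T.pull i).toLinearMap)
  refine ⟨w, fun a => ?_⟩
  rw [← T.dualEquiv_apply, hw]
  rfl

/-- homogeneous version -/
theorem exists_gys_deg {X Y : V} (i : Y ⟶ X) (hd : T.dim Y + 1 = T.dim X) {s : ℕ} {y : T.H Y}
    (hy : y ∈ T.deg Y s) :
    ∃ w ∈ T.deg X (s + 2), ∀ a : T.H X, T.tr X (a * w) = T.tr Y (T.pull i a * y) := by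
  obtain ⟨w, hw⟩ := exists_gys i y
  refine ⟨T.proj X (s + 2) w, T.proj_mem _ _, ?_⟩
  intro a
  refine T.hind (P := fun a => T.tr X (a * T.proj X (s + 2) w) = T.tr Y (T.pull i a * y))
    (by simp) ?_ ?_ a
  · intro t a ha
    by_cases h : t + (s + 2) = 2 * T.dim X
    · rw [T.tr_proj_mul w ha h, hw]
    · rw [T.tr_mul_ne ha (T.proj_mem _ _) h, T.tr_mul_ne (T.pull_deg i ha) hy (by omega)]
  · intro a e h1 h2
    rw [add_mul, map_add, h1, h2, map_add, add_mul, map_add]

/-- the operator of `(i × i)^* g` in terms of the push-forward -/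
theorem act_sq_gys {X Y : V} (i : Y ⟶ X) (hd : T.dim Y + 1 = T.dim X) (g : T.H (X ⊗ X)) {s : ℕ}
    {y : T.H Y} (hy : y ∈ T.deg Y s) {w : T.H X} (hwd : w ∈ T.deg X (s + 2))
    (hw : ∀ a : T.H X, T.tr X (a * w) = T.tr Y (T.pull i a * y)) :
    T.act (T.pull (sq i) g) y = T.pull i (T.act g w) := by
  have h0 : ∀ p : T.H X, T.tr Y (y * T.pull i p) = T.tr X (w * p) := by
    intro p
    refine T.hind (P := fun p => T.tr Y (y * T.pull i p) = T.tr X (w * p)) (by simp) ?_ ?_ p
    · intro t p hp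
      have h1 : (-1 : K) ^ ((s + 2) * t) = (-1) ^ (s * t) := by
        rw [add_mul, pow_add, pow_mul _ 2 t]
        simp
      rw [T.comm hy (T.pull_deg i hp), T.comm hwd hp, T.neg_pow_smul, T.neg_pow_smul, map_smul,
        map_smul, hw, h1]
    · intro p q h1 h2
      rw [map_add, mul_add, map_add, h1, h2, mul_add, map_add]
  refine T.kind (P := fun g => T.act (T.pull (sq i) g) y = T.pull i (T.act g w))
    (by simp [T.act_zero]) ?_ ?_ g
  · intro p q
    rw [pull_sq_pure, T.act_pure, T.act_pure, h0, map_smul]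
  · intro p q h1 h2
    rw [map_add, T.act_add, T.act_add, LinearMap.add_apply, LinearMap.add_apply, map_add, h1, h2]

/-- a class killed by `c` restricts to zero on `Y` -/
theorem Sect.pull_eq_zero {X : V} {c : T.H X} (hcd : c ∈ T.deg X (2 * 1)) (S : Sect R c)
    (hinj : ∀ {i k : ℕ}, i + k = T.dim X → ∀ a ∈ T.deg X i, c ^ k * a = 0 → a = 0)
    {j : ℕ} {ζ : T.H X} (hζ : ζ ∈ T.deg X j) (h : c * ζ = 0) : T.pull S.i ζ = 0 := by
  have hd := S.dim
  rcases Nat.lt_or_ge j (T.dim X) with h1 | h1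
  · have h2 : ζ = 0 := by
      apply hinj (i := j) (k := T.dim X - j) (by omega) _ hζ
      rw [show T.dim X - j = (T.dim X - j - 1) + 1 by omega, pow_succ, mul_assoc, h, mul_zero]
    rw [h2, map_zero]
  · apply T.eq_zero_of_deg (T.pull_deg S.i hζ)
    intro t ht y hy
    obtain ⟨a, _, rfl⟩ := S.weak t (by omega) y hy
    rw [← map_mul, S.tr, mul_assoc, ← T.even_comm hcd ζ, h, mul_zero, map_zero, mul_zero]

/-- regularity gives the sign conjecture for very general sections -/
theorem Sect.sign_of_reg [CharZero K] {X : V} {c : T.H X} (hc : c ∈ R.A X 1) {m : ℕ}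
    (hX : T.dim X = 2 * m) (hhard : Hard T.toCohomology c) (S : Sect R c) (hreg : R.Reg c) :
    R.Sign S.Y := by
  have hd := S.dim
  obtain ⟨g, hg, h0, h1⟩ := hreg
  have hcC : c ∈ T.C X 1 := R.le hc
  have hcd : c ∈ T.deg X (2 * 1) := R.deg hc
  refine ⟨((S.r⁻¹ : ℚ) : K) • T.pull (sq S.i) g, R.smul _ (R.pull _ (R.of_eq hg (by omega))),
    ?_, ?_⟩
  · intro j y hy
    obtain ⟨a, ha, rfl⟩ := S.res hc hX j y hy
    have h2 := act_sq_pull S.i hcC S.tr g a
    rw [← T.even_comm hcd a] at h2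
    rw [T.act_smul, LinearMap.smul_apply, h2, smul_smul, Rat.cast_inv, inv_mul_cancel₀ S.r_ne,
      one_smul, ← sub_eq_zero, ← map_sub]
    have hdeg : T.act g (c * a) ∈ T.deg X (2 * j) :=
      T.act_deg (R.deg hg) (by omega) (T.mul_deg hcd ha)
    apply S.pull_eq_zero hcd hhard.1 (sub_mem hdeg ha)
    rw [mul_sub, h0 j a ha, sub_self]
  · intro j y hy
    -- `y` is odd
    obtain ⟨w, hwd, hw⟩ := exists_gys_deg S.i S.dim hy
    rw [T.act_smul, LinearMap.smul_apply, act_sq_gys S.i S.dim g hy hwd hw]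
    obtain ⟨e, he, hew⟩ : ∃ e ∈ T.deg X (2 * j + 1), c * e = w := by
      rcases Nat.lt_trichotomy (2 * j + 1) (T.dim S.Y) with h2 | h2 | h2
      · obtain ⟨a, ha, rfl⟩ := S.weak _ h2 y hy
        refine ⟨(S.r : K) • a, Submodule.smul_mem _ _ ha, ?_⟩
        rw [← sub_eq_zero]
        apply T.nondeg
        intro p
        rw [mul_sub, map_sub, hw, ← map_mul, S.tr, mul_smul_comm, mul_smul_comm, map_smul,
          smul_eq_mul, T.even_comm hcd a, mul_assoc, sub_self]
      · obtain ⟨e, he, h3⟩ := hhard.2 (i := 2 * j + 1) (k := 1) (by omega) w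
          (T.deg_of_eq hwd (by omega))
        exact ⟨e, he, by rw [← h3, pow_one]⟩
      · -- above the middle
        rcases Nat.lt_or_ge (2 * T.dim X) (2 * j + 1 + 2) with h4 | h4
        · exact ⟨0, zero_mem _, by rw [mul_zero, T.deg_eq_zero hwd h4]⟩
        obtain ⟨e, he, h3⟩ := hhard.2 (i := 2 * T.dim X - (2 * j + 1 + 2))
          (k := 2 * j + 1 + 2 - T.dim X) (by omega) w (T.deg_of_eq hwd (by omega))
        refine ⟨c ^ (2 * j + 1 + 2 - T.dim X - 1) * e, ?_, ?_⟩
        · exact T.deg_of_eq (T.mul_deg (pow_deg hcd _) he) (by omega)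
        · rw [← mul_assoc, ← pow_succ', ← h3]
          congr 2
          omega
    rw [← hew]
    have hdeg : T.act g (c * e) ∈ T.deg X (2 * j + 1) :=
      T.act_deg (R.deg hg) (by omega) (T.mul_deg hcd he)
    rw [S.pull_eq_zero hcd hhard.1 hdeg (h1 j e he), smul_zero]

end Pool.Std
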