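import Pool.Agent.Work.StdConj.Even

/-!
From the relation `L² D + 2 L D L + D L² = 2 L` to the operator `Λ`.
-/

open CategoryTheory MonoidalCategory CartesianMonoidalCategory Polynomial

universe u v w x b

namespace Pool.Std

open Pool.KC

variable {V : Type u} [Category.{v} V] [CartesianMonoidalCategory V] {K : Type x} [Field K]
variable {T : WeilTheory.{u, v, w, x} V K} {R : Cyc T}

/-- the recursion `L² a_j + 2 L a_{j+1} + a_{j+2} = 2 L^{j+1} y` -/
theorem recursion {A : Type*} [Ring A] [Algebra K A] (c y : A) (a : ℕ → A)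
    (hrec : ∀ j, c * (c * a j) + (2 : K) • (c * a (j + 1)) + a (j + 2) =
      (2 : K) • (c ^ (j + 1) * y)) (j : ℕ) :
    a (j + 1) = (-1 : K) ^ (j + 1) • (c ^ (j + 1) * a 0) +
      (if Even j then 1 else 0 : K) • (c ^ j * y) +
      (((j : K) + 1) * (-1) ^ j) • (c ^ j * (c * a 0 + a 1 - y)) := by
  set s := c * a 0 + a 1 - y with hs
  have h1 : ∀ j, c * a j + a (j + 1) = c ^ j * y + (-1 : K) ^ j • (c ^ j * s) := by
    intro j
    induction j with
    | zero => rw [hs]; simp
    | succ j ih =>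
      have h2 := hrec j
      have h3 : c * (c * a j + a (j + 1)) + (c * a (j + 1) + a (j + 2)) =
          (2 : K) • (c ^ (j + 1) * y) := by
        rw [← h2, two_smul, mul_add]
        abel
      rw [ih, mul_add, mul_smul_comm, ← mul_assoc, ← mul_assoc, ← pow_succ'] at h3
      have h4 := eq_sub_of_add_eq' h3
      rw [show j + 1 + 1 = j + 2 by rfl, h4, pow_succ (-1 : K) j]
      module
  induction j with
  | zero => rw [hs]; simp
  | succ j ih =>
    have h2 := eq_sub_of_add_eq' (h1 (j + 1))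
    rw [show j + 1 + 1 = j + 2 by rfl] at h2 ⊢
    rw [h2, ih, mul_add, mul_add, mul_smul_comm, mul_smul_comm, mul_smul_comm, ← mul_assoc,
      ← mul_assoc, ← mul_assoc, ← pow_succ', ← pow_succ']
    rcases Nat.even_or_odd j with hj | hj
    · rw [if_pos hj, if_neg (by rw [Nat.not_even_iff_odd]; exact hj.add_one), hj.add_one.neg_one_pow,
        show j + 2 = j + 1 + 1 by rfl, hj.add_one.add_one.neg_one_pow, hj.neg_one_pow]
      push_cast
      module
    · rw [if_neg (by rw [Nat.not_even_iff_odd]; exact hj), if_pos hj.add_one,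
        hj.add_one.neg_one_pow, show j + 2 = j + 1 + 1 by rfl, hj.add_one.add_one.neg_one_pow,
        hj.neg_one_pow]
      push_cast
      module

namespace Pl

variable {G : Pl.{u, v, w, x, b} R}

/-- the value of the operator on strings -/
theorem string [CharZero K] {X : V} {M : G.Bund X} (hX : 1 ≤ T.dim X) {D : Module.End K (T.H X)}
    (hD : D ∈ R.Op X X (T.dim X - 1))
    (hrel : ∀ (i : ℕ), Even (i + T.dim X) → ∀ a ∈ T.deg X i,
      G.c M * (G.c M * D a) + (2 : K) • (G.c M * D (G.c M * a)) + D (G.c M * (G.c M * a)) =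
        (2 : K) • (G.c M * a))
    {i : ℕ} (hi : Even (i + T.dim X)) {y : T.H X} (hy : G.Prim M i y) :
    D y = 0 ∧ ∀ j : ℕ, D (G.c M ^ (j + 1) * y) =
      ((if Even j then 1 else 0 : K) - ((j : K) + 1) * (-1) ^ j / ((T.dim X - i : ℕ) + 1)) •
        (G.c M ^ j * y) := by
  obtain ⟨hin, hyi, hyk⟩ := hy
  set c := G.c M with hc
  obtain ⟨k, hk⟩ : ∃ k, T.dim X = i + k := ⟨T.dim X - i, by omega⟩
  have hki : T.dim X - i = k := by omega
  rw [hki] at hyk ⊢
  have hkeven : Even k := by
    rw [hk, ← add_assoc, ← two_mul] at hi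
    exact (Nat.even_add.mp hi).mp (even_two_mul i)
  have hcdeg : ∀ j, c ^ j * y ∈ T.deg X (2 * j + i) := fun j =>
    T.mul_deg (G.c_pow_deg M j) hyi
  set a : ℕ → T.H X := fun j => D (c ^ j * y) with ha
  have hrec : ∀ j, c * (c * a j) + (2 : K) • (c * a (j + 1)) + a (j + 2) =
      (2 : K) • (c ^ (j + 1) * y) := by
    intro j
    have h1 := hrel (2 * j + i) (by rw [add_assoc]; exact (even_two_mul j).add hi) _ (hcdeg j)
    rw [← mul_assoc c (c ^ j), ← pow_succ', ← mul_assoc c (c ^ (j + 1)), ← pow_succ'] at h1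
    exact h1
  have hsol := recursion c y a hrec
  set s := c * a 0 + a 1 - y with hs
  have ha0i : i < 2 → a 0 = 0 := by
    intro h
    simp only [ha, pow_zero, one_mul]
    exact Cyc.Op_eq_zero hD (by omega) hyi
  have hvan : ∀ j, k < j → a j = 0 := by
    intro j hj
    obtain ⟨r, rfl⟩ : ∃ r, j = r + (k + 1) := ⟨j - (k + 1), by omega⟩
    simp only [ha]
    rw [pow_add, mul_assoc, hyk, mul_zero, map_zero]
  have h1 := hsol k
  have h2 := hsol (k + 1)
  rw [hvan _ (by omega), if_pos hkeven, hkeven.add_one.neg_one_pow, hkeven.neg_one_pow] at h1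
  rw [hvan _ (by omega), if_neg (by rw [Nat.not_even_iff_odd]; exact hkeven.add_one),
    hkeven.add_one.add_one.neg_one_pow, hkeven.add_one.neg_one_pow] at h2
  have h3 := congrArg (fun w => c * w) h1
  simp only [mul_zero, mul_add, mul_smul_comm, ← mul_assoc, ← pow_succ'] at h3
  rw [hyk] at h3
  have h4 : c ^ (k + 1) * s = 0 := by
    have h5 : (0 : T.H X) = -(c ^ (k + 1) * s) := by
      calc (0 : T.H X) = 0 + 0 := by rw [add_zero]
        _ = _ := by
          nth_rw 1 [h3]
          nth_rw 1 [h2]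
          push_cast
          module
    rw [← neg_eq_zero, ← h5]
  rw [h4] at h2
  have h5 : c ^ (k + 2) * a 0 = 0 := by
    have h6 := h2.symm
    simpa using h6
  have ha0 : a 0 = 0 := by
    rcases Nat.lt_or_ge i 2 with h6 | h6
    · exact ha0i h6
    · apply G.hard_inj M (i := i - 2) (k := k + 2) (by omega) _ _ h5
      simp only [ha, pow_zero, one_mul]
      exact Cyc.Op_deg hD (by omega) hyi
  have hk0 : ((k : K) + 1) ≠ 0 := by exact_mod_cast Nat.succ_ne_zero k
  have hsdeg : s ∈ T.deg X i := by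
    rw [hs, ha0, mul_zero, zero_add]
    refine sub_mem ?_ hyi
    simp only [ha]
    exact Cyc.Op_deg hD (by omega) (hcdeg 1)
  have h6 : y + ((k : K) + 1) • s = 0 := by
    apply G.hard_inj M (i := i) (k := k) hk.symm _
      (add_mem hyi (Submodule.smul_mem _ _ hsdeg))
    rw [ha0, mul_zero, smul_zero, zero_add] at h1
    rw [mul_add, mul_smul_comm]
    have h7 := h1.symm
    simpa using h7
  have h7 : s = (-1 / ((k : K) + 1)) • y := by
    have h8 : ((k : K) + 1) • s = -y := by
      rw [← sub_eq_zero, sub_neg_eq_add, add_comm]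
      exact h6
    calc s = (((k : K) + 1)⁻¹ * ((k : K) + 1)) • s := by rw [inv_mul_cancel₀ hk0, one_smul]
      _ = ((k : K) + 1)⁻¹ • -y := by rw [mul_smul, h8]
      _ = _ := by
        rw [smul_neg, ← neg_smul]
        congr 1
        rw [neg_div, one_div]
  refine ⟨?_, ?_⟩
  · have := ha0
    simpa [ha] using this
  · intro j
    have h8 := hsol j
    rw [ha0, mul_zero, smul_zero, zero_add, h7, mul_smul_comm, smul_smul, ← add_smul] at h8
    change a (j + 1) = _
    rw [h8]
    congr 1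
    ring

/-- correction of an operator by a rational polynomial -/
theorem clean [CharZero K] {X : V} {M : G.Bund X} (hX : 1 ≤ T.dim X) {D : Module.End K (T.H X)}
    (hD : D ∈ R.Op X X (T.dim X - 1)) (P : ℕ → Prop) (q : ℕ → ℕ → ℚ)
    (h : ∀ (i : ℕ) (y : T.H X), P i → G.Prim M i y → D y = 0 ∧
      ∀ j : ℕ, i + (j + 1) ≤ T.dim X → q i j ≠ 0 ∧
        D (G.c M ^ (j + 1) * y) = ((q i j : ℚ) : K) • (G.c M ^ j * y)) :
    ∃ z ∈ R.Op X X (T.dim X - 1), ∀ (i : ℕ) (y : T.H X), P i → G.Prim M i y → z y = 0 ∧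
      ∀ j : ℕ, i + (j + 1) ≤ T.dim X → z (G.c M ^ (j + 1) * y) = G.c M ^ j * y := by
  set f : Module.End K (T.H X) := LinearMap.mulLeft K (G.c M) ∘ₗ D with hf
  have hfa : ∀ a, f a = G.c M * D a := fun a => rfl
  have hfo : f ∈ R.ops X := by
    have := Cyc.Op_comp hD (Cyc.Op_mul (G.c_mem M)) (t := T.dim X) (by omega)
    exact this
  let s : Finset ℚ := ((Finset.range (T.dim X + 1)) ×ˢ (Finset.range (T.dim X + 1))).image
    fun p => q p.1 p.2
  let g : ℚ[X] := Lagrange.interpolate s id (fun r => 1 / r)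
  have hg : ∀ r ∈ s, g.eval r = 1 / r := fun r hr =>
    Lagrange.eval_interpolate_at_node _ (fun a _ b _ hab => hab) hr
  have hgo := R.aeval_ops hfo g
  refine ⟨D ∘ₗ aeval f (g.map (algebraMap ℚ K)), Cyc.Op_comp (t := T.dim X - 1) hgo hD
    (by omega), ?_⟩
  intro i y hi hy
  obtain ⟨h0, h1⟩ := h i y hi hy
  constructor
  · have h2 : f y = (0 : K) • y := by rw [hfa, h0, mul_zero, zero_smul]
    change D (aeval f (g.map (algebraMap ℚ K)) y) = 0
    rw [aeval_eigen h2, map_smul, h0, smul_zero]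
  · intro j hj
    obtain ⟨hq, h2⟩ := h1 j hj
    have h3 : f (G.c M ^ (j + 1) * y) = (algebraMap ℚ K (q i j)) • (G.c M ^ (j + 1) * y) := by
      rw [hfa, h2, mul_smul_comm, ← mul_assoc, ← pow_succ']
      simp
    have hqs : q i j ∈ s := by
      simp only [s, Finset.mem_image, Finset.mem_product, Finset.mem_range]
      exact ⟨(i, j), ⟨by omega, by omega⟩, rfl⟩
    change D (aeval f (g.map (algebraMap ℚ K)) (G.c M ^ (j + 1) * y)) = _
    rw [aeval_eigen h3, Polynomial.eval_map_algebraMap, Polynomial.aeval_algebraMap_apply,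
      Polynomial.coe_aeval_eq_eval, hg _ hqs, map_smul, h2, smul_smul]
    have h4 : (algebraMap ℚ K) (1 / q i j) * ((q i j : ℚ) : K) = 1 := by
      rw [eq_ratCast, ← Rat.cast_mul, one_div, inv_mul_cancel₀ hq, Rat.cast_one]
    rw [h4, one_smul]

end Pl

end Pool.Std
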